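import Mathlib
import Pool.Agent.Lib.helper82.PolyFun

-- ======== part 0: formerly Pool.Agent.MP_71daef_lc.Tower
section MrgPart0

/-!
Clique minors of binary point configurations: towers of round flats contain large clique minors.
-/

set_option autoImplicit false

namespace Pool.Agent.MP71

open Submodule Module

/-- The two-element field. -/
abbrev F2 := ZMod 2

variable {V : Type} [AddCommGroup V] [Module F2 V]

theorem f2_cases (c : F2) : c = 0 ∨ c = 1 := by
  revert c; decide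

theorem add_self_v (x : V) : x + x = 0 := by
  have : (1 + 1 : F2) = 0 := by decide
  calc x + x = (1 + 1 : F2) • x := by rw [add_smul, one_smul]
    _ = 0 := by rw [this, zero_smul]

theorem mem_sup_single {A : Submodule F2 V} {e x : V} :
    x ∈ A ⊔ span F2 {e} ↔ x ∈ A ∨ x + e ∈ A := by
  constructor
  · intro h
    obtain ⟨a, ha, y, hy, rfl⟩ := mem_sup.1 h
    obtain ⟨c, rfl⟩ := mem_span_singleton.1 hy
    rcases f2_cases c with rfl | rfl
    · left; simpa using ha
    · right; rw [one_smul, add_assoc, add_self_v, add_zero]; exact ha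
  · rintro (h | h)
    · exact mem_sup_left h
    · have : x = (x + e) + e := by rw [add_assoc, add_self_v, add_zero]
      rw [this]
      exact add_mem (mem_sup_left h) (mem_sup_right (mem_span_singleton_self e))

theorem mem_of_add_mem {A : Submodule F2 V} {x y : V} (h : x + y ∈ A) (hy : y ∈ A) : x ∈ A :=
  (A.add_mem_iff_left hy).1 h

/-- The configuration `X` has the clique on `t` vertices (with an extra apex) as a minor. -/
def HasK (t : ℕ) (X : Set V) : Prop :=
  ∃ (Y : Set V) (x : Fin t → V), Y ⊆ X ∧ (∀ i, x i ∈ X) ∧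
    (∀ c : Fin t → F2, ∑ i, c i • x i ∈ span F2 Y → c = 0) ∧
    ∀ i j, i ≠ j → ∃ z ∈ X, z + x i + x j ∈ span F2 Y

theorem HasK.mono {t : ℕ} {X X' : Set V} (h : HasK t X) (hX : X ⊆ X') : HasK t X' := by
  obtain ⟨Y, x, h1, h2, h3, h4⟩ := h
  refine ⟨Y, x, h1.trans hX, fun i => hX (h2 i), h3, fun i j hij => ?_⟩
  obtain ⟨z, hz, h⟩ := h4 i j hij
  exact ⟨z, hX hz, h⟩

/-- The linear map `φ` contracts a set of elements of `X`. -/
def Con (X : Set V) (φ : V →ₗ[F2] V) : Prop :=
  LinearMap.ker φ ≤ span F2 (X ∩ LinearMap.ker φ)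

theorem comap_span_le {X Y' : Set V} {φ : V →ₗ[F2] V} (h : Con X φ) (hY : Y' ⊆ φ '' X) {v : V}
    (hv : φ v ∈ span F2 Y') : v ∈ span F2 (X ∩ φ ⁻¹' (insert 0 Y')) := by
  have h1 : span F2 Y' ≤ (span F2 (X ∩ φ ⁻¹' (insert 0 Y'))).map φ := by
    rw [span_le]
    intro y hy
    obtain ⟨x, hx, rfl⟩ := hY hy
    exact mem_map_of_mem (subset_span ⟨hx, Or.inr hy⟩)
  obtain ⟨w, hw, hwv⟩ := h1 hv
  have h2 : v - w ∈ LinearMap.ker φ := by
    rw [LinearMap.mem_ker, map_sub, hwv, sub_self]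
  have h3 : span F2 (X ∩ LinearMap.ker φ) ≤ span F2 (X ∩ φ ⁻¹' (insert 0 Y')) :=
    span_mono (fun x hx => ⟨hx.1, Or.inl hx.2⟩)
  simpa using add_mem (h3 (h h2)) hw

theorem HasK.of_con {t : ℕ} {X : Set V} {φ : V →ₗ[F2] V} (h : Con X φ)
    (hK : HasK t (φ '' X)) : HasK t X := by
  obtain ⟨Y, x, h1, h2, h3, h4⟩ := hK
  choose x' hx' hx'' using h2
  refine ⟨X ∩ φ ⁻¹' (insert 0 Y), x', Set.inter_subset_left, hx', fun c hc => h3 c ?_,
    fun i j hij => ?_⟩
  · have h5 : (span F2 (X ∩ φ ⁻¹' (insert 0 Y))).map φ ≤ span F2 Y := by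
      rw [map_span, span_le]
      rintro _ ⟨y, ⟨-, hy | hy⟩, rfl⟩
      · rw [hy]; exact zero_mem _
      · exact subset_span hy
    have := h5 (mem_map_of_mem hc)
    simpa [map_sum, hx''] using this
  · obtain ⟨_, ⟨z, hz, rfl⟩, h5⟩ := h4 i j hij
    refine ⟨z, hz, comap_span_le h h1 ?_⟩
    simpa [hx''] using h5

theorem Con.comp {X : Set V} {φ ψ : V →ₗ[F2] V} (h : Con X φ) (h' : Con (φ '' X) ψ) :
    Con X (ψ ∘ₗ φ) := by
  intro v hv
  have h1 : φ v ∈ span F2 (φ '' X ∩ LinearMap.ker ψ) := h' hv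
  refine span_mono ?_ (comap_span_le h Set.inter_subset_left h1)
  rintro x ⟨hx, h2 | h2⟩
  · refine ⟨hx, ?_⟩
    have : φ x = 0 := h2
    simp [this]
  · exact ⟨hx, h2.2⟩

theorem exists_ker (W : Submodule F2 V) : ∃ φ : V →ₗ[F2] V, LinearMap.ker φ = W := by
  obtain ⟨q, hq⟩ := W.exists_isCompl
  exact ⟨q.projection W hq.symm, ker_projection _⟩

theorem mem_of_map_mem {G : Submodule F2 V} {φ : V →ₗ[F2] V} (h : LinearMap.ker φ ≤ G) {x : V}
    (hx : φ x ∈ G.map φ) : x ∈ G := by
  obtain ⟨g, hg, hgx⟩ := hx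
  have : x - g ∈ G := h (by rw [LinearMap.mem_ker, map_sub, hgx, sub_self])
  simpa using add_mem this hg

theorem mem_of_map_mem' {G A : Submodule F2 V} {φ : V →ₗ[F2] V}
    (h : Disjoint G (LinearMap.ker φ)) (hA : A ≤ G) {x : V} (hG : x ∈ G)
    (hx : φ x ∈ A.map φ) : x ∈ A := by
  obtain ⟨g, hg, hgx⟩ := hx
  have : x - g = 0 := (Submodule.disjoint_def.1 h) _ (sub_mem hG (hA hg))
    (by rw [LinearMap.mem_ker, map_sub, hgx, sub_self])
  rw [sub_eq_zero.1 this]; exact hg

theorem eq_of_map_eq {G A B : Submodule F2 V} {φ : V →ₗ[F2] V}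
    (h : Disjoint G (LinearMap.ker φ)) (hA : A ≤ G) (hB : B ≤ G)
    (hx : A.map φ = B.map φ) : A = B :=
  le_antisymm (fun _ ha => mem_of_map_mem' h hB (hA ha) (hx ▸ mem_map_of_mem ha))
    (fun _ hb => mem_of_map_mem' h hA (hB hb) (hx ▸ mem_map_of_mem hb))

/-- Towers: `Tw X n G` describes a flat of rank `n + 1` built from two towers of rank `n`. -/
def Tw (X : Set V) : ℕ → Submodule F2 V → Prop
  | 0, G => ∃ e ∈ X, e ≠ 0 ∧ G = span F2 {e}
  | n + 1, G => ∃ (A B : Submodule F2 V) (e : V), Tw X n A ∧ Tw X n B ∧ A ≠ B ∧ e ∈ X ∧ e ∉ A ∧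
      e ∉ B ∧ G = A ⊔ span F2 {e} ∧ G = B ⊔ span F2 {e}

theorem Tw.map {X : Set V} {φ : V →ₗ[F2] V} : ∀ {n : ℕ} {G : Submodule F2 V}, Tw X n G →
    Disjoint G (LinearMap.ker φ) → Tw (φ '' X) n (G.map φ)
  | 0, G, ⟨e, he, h0, hG⟩, hd => by
    refine ⟨φ e, ⟨e, he, rfl⟩, fun h => h0 ?_, by rw [hG, map_span, Set.image_singleton]⟩
    exact (Submodule.disjoint_def.1 hd) e (hG ▸ mem_span_singleton_self e) h
  | n + 1, G, ⟨A, B, e, hA, hB, hAB, he, heA, heB, h1, h2⟩, hd => by
    have hAG : A ≤ G := h1 ▸ le_sup_left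
    have hBG : B ≤ G := h2 ▸ le_sup_left
    have heG : e ∈ G := h1 ▸ mem_sup_right (mem_span_singleton_self e)
    refine ⟨A.map φ, B.map φ, φ e, hA.map (hd.mono_left hAG), hB.map (hd.mono_left hBG),
      fun h => hAB (eq_of_map_eq hd hAG hBG h), ⟨e, he, rfl⟩,
      fun h => heA (mem_of_map_mem' hd hAG heG h), fun h => heB (mem_of_map_mem' hd hBG heG h),
      ?_, ?_⟩
    · rw [h1, Submodule.map_sup, map_span, Set.image_singleton]
    · rw [h2, Submodule.map_sup, map_span, Set.image_singleton]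

theorem Tw.le_span {X : Set V} : ∀ {n : ℕ} {G : Submodule F2 V}, Tw X n G →
    G ≤ span F2 (X ∩ G)
  | 0, G, ⟨e, he, _, hG⟩ => by
    have : e ∈ X ∩ G := ⟨he, hG ▸ mem_span_singleton_self e⟩
    exact hG.le.trans (span_mono (Set.singleton_subset_iff.2 this))
  | n + 1, G, ⟨A, B, e, hA, _, _, he, _, _, h1, _⟩ => by
    have hAG : A ≤ G := h1 ▸ le_sup_left
    have : e ∈ X ∩ G := ⟨he, h1 ▸ mem_sup_right (mem_span_singleton_self e)⟩
    refine h1.le.trans (sup_le (hA.le_span.trans (span_mono fun x hx => ⟨hx.1, hAG hx.2⟩))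
      (span_mono (Set.singleton_subset_iff.2 this)))

variable [Finite V]

theorem Tw.rk {X : Set V} : ∀ {n : ℕ} {G : Submodule F2 V}, Tw X n G →
    Module.finrank F2 G = n + 1
  | 0, G, ⟨e, _, h0, hG⟩ => by rw [hG, finrank_span_singleton h0]
  | n + 1, G, ⟨A, B, e, hA, _, _, _, heA, _, h1, _⟩ => by
    rw [h1, finrank_sup_span_singleton heA, hA.rk]

/-- Towers are round. -/
theorem Tw.round {X : Set V} : ∀ {n : ℕ} {G : Submodule F2 V}, Tw X n G →
    ∀ {H H' : Submodule F2 V}, (∀ x ∈ X, x ∈ G → x ∈ H ∨ x ∈ H') → G ≤ H ∨ G ≤ H'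
  | 0, G, ⟨e, he, _, hG⟩, H, H', h => by
    rcases h e he (hG ▸ mem_span_singleton_self e) with h | h
    · left; rw [hG]; exact (span_singleton_le_iff_mem e H).2 h
    · right; rw [hG]; exact (span_singleton_le_iff_mem e H').2 h
  | n + 1, G, ⟨A, B, e, hA, hB, hAB, he, heA, heB, h1, h2⟩, H, H', h => by
    have hAG : A ≤ G := h1 ▸ le_sup_left
    have hBG : B ≤ G := h2 ▸ le_sup_left
    have heG : e ∈ G := h1 ▸ mem_sup_right (mem_span_singleton_self e)
    have key : ∀ K : Submodule F2 V, A ≤ K → B ≤ K → G ≤ K := by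
      intro K hAK hBK
      have : ¬ B ≤ A := fun hle =>
        hAB (eq_of_le_of_finrank_eq hle (by rw [hA.rk, hB.rk])).symm
      obtain ⟨y, hyB, hyA⟩ := SetLike.not_le_iff_exists.1 this
      have hy : y + e ∈ A := (mem_sup_single.1 (h1 ▸ hBG hyB)).resolve_left hyA
      have heK : e ∈ K := (K.add_mem_iff_right (hBK hyB)).1 (hAK hy)
      rw [h1]; exact sup_le hAK ((span_singleton_le_iff_mem e K).2 heK)
    have kA : ∀ K : Submodule F2 V, A ≤ K → e ∈ K → G ≤ K := fun K hK heK => by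
      rw [h1]; exact sup_le hK ((span_singleton_le_iff_mem e K).2 heK)
    have kB : ∀ K : Submodule F2 V, B ≤ K → e ∈ K → G ≤ K := fun K hK heK => by
      rw [h2]; exact sup_le hK ((span_singleton_le_iff_mem e K).2 heK)
    rcases hA.round (fun x hx hxA => h x hx (hAG hxA)) with hA' | hA' <;>
      rcases hB.round (fun x hx hxB => h x hx (hBG hxB)) with hB' | hB'
    · exact Or.inl (key _ hA' hB')
    · exact (h e he heG).imp (kA _ hA') (kB _ hB')
    · exact (h e he heG).imp (kB _ hB') (kA _ hA')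
    · exact Or.inr (key _ hA' hB')

omit [Finite V] in
theorem finrank_map_of_disjoint {D : Submodule F2 V} {ψ : V →ₗ[F2] V}
    (h : Disjoint D (LinearMap.ker ψ)) : finrank F2 (D.map ψ) = finrank F2 D := by
  rw [← LinearMap.range_domRestrict]
  exact LinearMap.finrank_range_of_inj (LinearMap.injective_domRestrict_iff.2 h)

/-- Contract elements of `U` until `U` collapses onto a given subspace `D`. -/
theorem shrink {X : Set V} {U D : Submodule F2 V} (hU : U ≤ span F2 (X ∩ U)) :
    ∃ ψ : V →ₗ[F2] V, Con X ψ ∧ LinearMap.ker ψ ≤ U ∧ Disjoint D (LinearMap.ker ψ) ∧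
      U.map ψ ≤ D.map ψ := by
  obtain ⟨W, -, ⟨h1, h2, h3⟩, hmax⟩ := Finite.exists_le_maximal
    (p := fun W : Submodule F2 V => W ≤ span F2 (X ∩ W) ∧ W ≤ U ∧ Disjoint D W) (a := ⊥)
    ⟨bot_le, bot_le, disjoint_bot_right⟩
  obtain ⟨ψ, rfl⟩ := exists_ker W
  refine ⟨ψ, h1, h2, h3, (map_mono hU).trans ?_⟩
  rw [map_span, span_le]
  rintro _ ⟨x, ⟨hx, hxU⟩, rfl⟩
  by_cases hd : Disjoint D (LinearMap.ker ψ ⊔ span F2 {x})
  · have hxm : x ∈ LinearMap.ker ψ ⊔ span F2 {x} := mem_sup_right (mem_span_singleton_self x)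
    have : LinearMap.ker ψ ⊔ span F2 {x} ≤ LinearMap.ker ψ := hmax
      ⟨sup_le (h1.trans (span_mono fun y hy => ⟨hy.1, mem_sup_left hy.2⟩))
        (span_mono (Set.singleton_subset_iff.2 ⟨hx, hxm⟩)),
        sup_le h2 ((span_singleton_le_iff_mem x U).2 hxU), hd⟩ le_sup_left
    have h0 : ψ x = 0 := this hxm
    rw [h0]; exact zero_mem _
  · rw [Submodule.disjoint_def] at hd
    push Not at hd
    obtain ⟨y, hyD, hy, hy0⟩ := hd
    rcases mem_sup_single.1 hy with hy | hy
    · exact absurd ((Submodule.disjoint_def.1 h3) y hyD hy) hy0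
    · have : ψ y + ψ x = 0 := by rw [← map_add]; exact hy
      have h4 : ψ x = ψ y := by
        calc ψ x = (ψ y + ψ y) + ψ x := by rw [add_self_v, zero_add]
          _ = ψ y := by rw [add_assoc, this, add_zero]
      rw [h4]; exact mem_map_of_mem hyD

/-- After the contraction `φ`, the points `p i` are independent over `U` and each of them is
joined to a spanning subset of `U`. -/
structure QS (X : Set V) (G : Submodule F2 V) (m s : ℕ) (φ : V →ₗ[F2] V) (U : Submodule F2 V)
    (p : Fin m → V) : Prop where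
  con : Con X φ
  kerle : LinearMap.ker φ ≤ G
  mape : G.map φ ≤ U ⊔ span F2 (Set.range p)
  ule : U ≤ G.map φ
  pX : ∀ i, p i ∈ φ '' X
  pG : ∀ i, p i ∈ G.map φ
  spU : U ≤ span F2 (φ '' X ∩ U)
  rk : s ≤ finrank F2 U
  ind : ∀ c : Fin m → F2, ∑ i, c i • p i ∈ U → c = 0
  star : ∀ i, U ≤ span F2 {u | u ∈ U ∧ p i + u ∈ φ '' X}

omit [Finite V] in
theorem map_le_span_image {S T : Set V} {U : Submodule F2 V} {ψ : V →ₗ[F2] V}
    (h : U ≤ span F2 S) (hT : ∀ x ∈ S, ψ x ∈ T) : U.map ψ ≤ span F2 T := by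
  refine (map_mono h).trans ?_
  rw [map_span]
  exact span_mono (by rintro _ ⟨x, hx, rfl⟩; exact hT x hx)

omit [Finite V] in
theorem QS.shrink {X : Set V} {G : Submodule F2 V} {m s s' : ℕ} {φ ψ : V →ₗ[F2] V}
    {U : Submodule F2 V} {p : Fin m → V} (h : QS X G m s φ U p) (h1 : Con (φ '' X) ψ)
    (h2 : LinearMap.ker ψ ≤ U) (h3 : s' ≤ finrank F2 (U.map ψ)) :
    QS X G m s' (ψ ∘ₗ φ) (U.map ψ) (fun i => ψ (p i)) := by
  have hi : (ψ ∘ₗ φ) '' X = ψ '' (φ '' X) := by rw [Set.image_image]; rfl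
  refine ⟨h.con.comp h1, fun v hv => mem_of_map_mem h.kerle (h.ule (h2 hv)), ?_, ?_, fun i => ?_,
    fun i => ?_, ?_, h3, fun c hc => h.ind c (mem_of_map_mem h2 ?_), fun i => ?_⟩
  · rw [map_comp]
    refine (map_mono h.mape).trans ?_
    rw [Submodule.map_sup, map_span, ← Set.range_comp]; rfl
  · rw [map_comp]; exact map_mono h.ule
  · rw [hi]; exact Set.mem_image_of_mem _ (h.pX i)
  · rw [map_comp]; exact mem_map_of_mem (h.pG i)
  · rw [hi]
    exact map_le_span_image h.spU fun x hx => ⟨Set.mem_image_of_mem _ hx.1, mem_map_of_mem hx.2⟩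
  · simpa [map_sum] using hc
  · rw [hi]
    refine map_le_span_image (h.star i) fun x hx => ⟨mem_map_of_mem hx.1, ?_⟩
    rw [← map_add]; exact Set.mem_image_of_mem _ hx.2

theorem finrank_sup_le_sum {ι : Type} (S : Finset ι) (D : ι → Submodule F2 V) :
    finrank F2 (S.sup D : Submodule F2 V) ≤ ∑ i ∈ S, finrank F2 (D i) := by
  classical
  induction S using Finset.induction_on with
  | empty => simp
  | insert a S ha ih =>
    rw [Finset.sup_insert, Finset.sum_insert ha]
    exact (finrank_add_le_finrank_add_finrank _ _).trans (by omega)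

theorem QS.step {X : Set V} {G : Submodule F2 V} {m s : ℕ} {φ : V →ₗ[F2] V}
    {U : Submodule F2 V} {p : Fin m → V} (h : QS X G m (2 ^ m * s + 1) φ U p) {e : V}
    (he : e ∉ G) (hr : G ⊔ span F2 {e} ≤ span F2 {x | x ∈ X ∧ x + e ∈ G}) :
    ∃ φ' U' p', QS X (G ⊔ span F2 {e}) (m + 1) s φ' U' p' := by
  classical
  set C : (Fin m → F2) → Set V := fun c => {y | y ∈ φ '' X ∧ y + φ e + ∑ i, c i • p i ∈ U}
    with hC
  have hU : U ≤ Finset.univ.sup (fun c => span F2 (C c)) := by
    refine h.ule.trans ((map_mono (le_sup_left.trans hr)).trans ?_)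
    rw [map_span, span_le]
    rintro _ ⟨x, ⟨hx, hxe⟩, rfl⟩
    obtain ⟨u, hu, w, hw, huw⟩ := mem_sup.1 (h.mape (mem_map_of_mem hxe))
    obtain ⟨c, rfl⟩ := (mem_span_range_iff_exists_fun F2).1 hw
    have : φ x ∈ C c := by
      refine ⟨⟨x, hx, rfl⟩, ?_⟩
      rw [← map_add, ← huw, add_assoc, add_self_v, add_zero]; exact hu
    exact (Finset.le_sup (f := fun c => span F2 (C c)) (Finset.mem_univ c)) (subset_span this)
  obtain ⟨c, hc⟩ : ∃ c, s + 1 ≤ finrank F2 (span F2 (C c)) := by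
    by_contra hcon
    push Not at hcon
    have h1 := (h.rk.trans (Submodule.finrank_mono hU)).trans (finrank_sup_le_sum _ _)
    have h2 : ∑ c, finrank F2 (span F2 (C c)) ≤ ∑ _c : Fin m → F2, s :=
      Finset.sum_le_sum fun c _ => Nat.lt_succ_iff.1 (hcon c)
    simp at h2
    omega
  obtain ⟨y, hy⟩ : (C c).Nonempty := by
    by_contra hne
    rw [Set.not_nonempty_iff_eq_empty.1 hne, span_empty, finrank_bot] at hc
    omega
  set D : Submodule F2 V := span F2 ((fun z => y + z) '' C c) with hD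
  have hDU : ∀ z ∈ C c, y + z ∈ U := fun z hz => by
    have := add_mem hy.2 hz.2
    have e1 : y + φ e + ∑ i, c i • p i + (z + φ e + ∑ i, c i • p i) =
        y + z + ((φ e + ∑ i, c i • p i) + (φ e + ∑ i, c i • p i)) := by abel
    rwa [e1, add_self_v, add_zero] at this
  have hDU' : D ≤ U := by
    rw [hD, span_le]; rintro _ ⟨z, hz, rfl⟩; exact hDU z hz
  have hDs : s ≤ finrank F2 D := by
    have h1 : span F2 (C c) ≤ D ⊔ span F2 {y} := by
      rw [span_le]
      intro z hz
      refine mem_sup_single.2 (Or.inr (subset_span ⟨z, hz, add_comm _ _⟩))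
    have h2 := (Submodule.finrank_mono h1).trans (finrank_add_le_finrank_add_finrank _ _)
    have h3 : finrank F2 (span F2 ({y} : Set V)) ≤ 1 := by
      simpa using finrank_span_le_card (R := F2) ({y} : Set V)
    omega
  obtain ⟨ψ, k1, k2, k3, k4⟩ := MP71.shrink (D := D) h.spU
  have hq := h.shrink (s' := s) k1 k2
    (hDs.trans ((finrank_map_of_disjoint k3).ge.trans (Submodule.finrank_mono (map_mono hDU'))))
  have hi : (ψ ∘ₗ φ) '' X = ψ '' (φ '' X) := by rw [Set.image_image]; rfl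
  have hsum : ∑ i, c i • p i ∈ G.map φ := sum_mem fun i _ => smul_mem _ _ (h.pG i)
  have hye : y + φ e ∈ G.map φ := mem_of_add_mem (h.ule hy.2) hsum
  refine ⟨ψ ∘ₗ φ, U.map ψ, Fin.cons (ψ y) (fun i => ψ (p i)), hq.con,
    hq.kerle.trans le_sup_left, ?_, hq.ule.trans (map_mono le_sup_left), ?_, ?_, hq.spU, hq.rk,
    fun d hd => ?_, ?_⟩
  · have hsub : span F2 (Set.range fun i => ψ (p i)) ≤
        span F2 (Set.range (Fin.cons (ψ y) (fun i => ψ (p i)) : Fin (m + 1) → V)) :=
      span_mono (by rintro _ ⟨i, rfl⟩; exact ⟨i.succ, by simp⟩)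
    have h1 := hq.mape.trans (sup_le_sup_left hsub _)
    rw [Submodule.map_sup, map_span, Set.image_singleton]
    refine sup_le h1 ((span_singleton_le_iff_mem _ _).2 ?_)
    have h2 : ψ y + ψ (φ e) ∈ G.map (ψ ∘ₗ φ) := by
      rw [map_comp, ← map_add]; exact mem_map_of_mem hye
    rw [add_comm] at h2
    exact mem_of_add_mem (h1 h2) (mem_sup_right (subset_span ⟨0, by simp⟩))
  · refine Fin.cases ?_ (fun i => ?_)
    · rw [hi]; exact Set.mem_image_of_mem _ hy.1
    · exact hq.pX i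
  · refine Fin.cases ?_ (fun i => ?_)
    · rw [map_comp]
      refine mem_map_of_mem (mem_of_add_mem (map_mono le_sup_left hye) ?_)
      exact mem_map_of_mem (mem_sup_right (mem_span_singleton_self e))
    · exact map_mono le_sup_left (hq.pG i)
  · rw [Fin.sum_univ_succ] at hd
    simp only [Fin.cons_zero, Fin.cons_succ] at hd
    have h0 : d 0 = 0 := by
      rcases f2_cases (d 0) with h0 | h0
      · exact h0
      · exfalso
        rw [h0, one_smul] at hd
        have h1 : ψ y ∈ G.map (ψ ∘ₗ φ) :=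
          mem_of_add_mem (hq.ule hd) (sum_mem fun i _ => smul_mem _ _ (hq.pG i))
        have h2 : ψ (φ e) + ψ y ∈ G.map (ψ ∘ₗ φ) := by
          rw [map_comp, ← map_add, add_comm]; exact mem_map_of_mem hye
        exact he (mem_of_map_mem hq.kerle (mem_of_add_mem h2 h1))
    rw [h0, zero_smul, zero_add] at hd
    have := hq.ind _ hd
    funext i
    refine Fin.cases h0 (fun i => congrFun this i) i
  · refine Fin.cases ?_ (fun i => hq.star i)
    refine k4.trans (map_le_span_image le_rfl ?_)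
    rintro _ ⟨z, hz, rfl⟩
    refine ⟨mem_map_of_mem (hDU z hz), ?_⟩
    simp only [Fin.cons_zero]
    rw [hi, ← map_add, ← add_assoc, add_self_v, zero_add]
    exact Set.mem_image_of_mem _ hz.1

/-- The height of a tower that suffices for `m` points over a subspace of rank `s`. -/
def hgt : ℕ → ℕ → ℕ
  | 0, s => s
  | m + 1, s => hgt m (2 ^ m * s + 1) + 1

theorem Tw.exists_QS {X : Set V} : ∀ (m s : ℕ) {n : ℕ} {G : Submodule F2 V}, hgt m s ≤ n →
    Tw X n G → ∃ φ U p, QS X G m s φ U p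
  | 0, s, n, G, hn, hG => by
    refine ⟨LinearMap.id, G, Fin.elim0, by simp [Con], by simp, by simp, by simp,
      fun i => i.elim0, fun i => i.elim0, by simpa using hG.le_span, ?_,
      fun c _ => Subsingleton.elim _ _, fun i => i.elim0⟩
    rw [hG.rk]; exact hn.trans (Nat.le_succ n)
  | m + 1, s, 0, G, hn, _ => by simp [hgt] at hn
  | m + 1, s, n + 1, G, hn, hG => by
    obtain ⟨A, B, e, hA, -, -, he, heA, -, h1, -⟩ := id hG
    obtain ⟨φ, U, p, h⟩ := hA.exists_QS m (2 ^ m * s + 1) (Nat.succ_le_succ_iff.1 hn)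
    have := hG.round (H := A) (H' := span F2 {x | x ∈ X ∧ x + e ∈ A}) (fun x hx hxG =>
      (mem_sup_single.1 (h1 ▸ hxG)).imp id fun h => subset_span ⟨hx, h⟩)
    rcases this with h2 | h2
    · exact absurd (h2 (h1 ▸ mem_sup_right (mem_span_singleton_self e))) heA
    · rw [h1] at h2 ⊢
      exact h.step heA h2

theorem QS.hasK {X : Set V} {G : Submodule F2 V} {t : ℕ} {φ : V →ₗ[F2] V}
    {U : Submodule F2 V} {p : Fin ((2 ^ t) ^ t * t) → V} (h : QS X G _ t φ U p)
    (hU : finrank F2 U = t) : HasK t X := by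
  classical
  refine HasK.of_con h.con ?_
  have hb : ∀ i, ∃ β : Fin t → U, (∀ j, p i + β j ∈ φ '' X) ∧
      LinearIndependent F2 (fun j => (β j : V)) := by
    intro i
    have h1 : span F2 {u | u ∈ U ∧ p i + u ∈ φ '' X} = U :=
      le_antisymm (span_le.2 fun u hu => hu.1) (h.star i)
    have := exists_fun_fin_finrank_span_eq F2 {u | u ∈ U ∧ p i + u ∈ φ '' X}
    rw [h1, hU] at this
    obtain ⟨f, hf, -, hli⟩ := this
    exact ⟨fun j => ⟨f j, (hf j).1⟩, fun j => (hf j).2, hli⟩
  choose β hβ hli using hb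
  have := Fintype.ofFinite U
  have hcard : Fintype.card (Fin t → U) = (2 ^ t) ^ t := by
    rw [Fintype.card_fun, Module.card_eq_pow_finrank (K := F2), hU]; simp
  obtain ⟨b, hb⟩ := Fintype.exists_le_card_fiber_of_mul_le_card β (n := t) (by simp [hcard])
  obtain ⟨S, hS, hSc⟩ := Finset.exists_subset_card_eq hb
  set ι : Fin t → Fin ((2 ^ t) ^ t * t) := fun k => (S.equivFinOfCardEq hSc).symm k with hι
  have hinj : Function.Injective ι := fun a b hab =>
    (S.equivFinOfCardEq hSc).symm.injective (Subtype.ext hab)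
  have hιb : ∀ k, β (ι k) = b := fun k =>
    (Finset.mem_filter.1 (hS ((S.equivFinOfCardEq hSc).symm k).2)).2
  have hX : ∀ k j, p (ι k) + b j ∈ φ '' X := fun k j => hιb k ▸ hβ (ι k) j
  have hind : ∀ c : Fin t → F2, ∑ k, c k • p (ι k) ∈ U → c = 0 := by
    intro c hc
    have := h.ind (fun i => ∑ k, if ι k = i then c k else 0) (by
      simp only [Finset.sum_smul]
      rw [Finset.sum_comm]
      simpa [ite_smul] using hc)
    funext k
    simpa [hinj.eq_iff] using congrFun this (ι k)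
  refine ⟨Set.range fun k => p (ι k) + b k, fun k => p (ι k), ?_, fun k => h.pX _,
    fun c hc => ?_, fun i j _ => ⟨_, hX i j, ?_⟩⟩
  · rintro _ ⟨k, rfl⟩; exact hX k k
  · obtain ⟨d, hd⟩ := (mem_span_range_iff_exists_fun F2).1 hc
    simp only [smul_add, Finset.sum_add_distrib] at hd
    have h1 : ∑ k, (c - d) k • p (ι k) = ∑ k, d k • (b k : V) := by
      simp only [Pi.sub_apply, sub_smul, Finset.sum_sub_distrib]
      rw [← hd]; abel
    have h2 : c - d = 0 := hind _ (h1 ▸ sum_mem fun k _ => smul_mem _ _ (b k).2)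
    rw [h2] at h1
    simp only [Pi.zero_apply, zero_smul, Finset.sum_const_zero] at h1
    funext k
    have h3 := Fintype.linearIndependent_iff.1 (hιb k ▸ hli (ι k)) d h1.symm k
    rw [sub_eq_zero.1 h2, h3]; rfl
  · have : p (ι i) + b j + p (ι i) + p (ι j) = (p (ι i) + p (ι i)) + (p (ι j) + b j) := by abel
    rw [this, add_self_v, zero_add]
    exact subset_span ⟨j, rfl⟩

/-- Tall towers contain clique minors. -/
theorem Tw.hasK {X : Set V} {t n : ℕ} {G : Submodule F2 V} (hn : hgt ((2 ^ t) ^ t * t) t ≤ n)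
    (hG : Tw X n G) : HasK t X := by
  obtain ⟨φ, U, p, h⟩ := hG.exists_QS _ _ hn
  obtain ⟨f, hf⟩ := exists_linearIndependent_of_le_finrank h.rk
  have hf' : LinearIndependent F2 (U.subtype ∘ f) := hf.map' _ (ker_subtype U)
  have hD : finrank F2 (span F2 (Set.range (U.subtype ∘ f))) = t := by
    rw [finrank_span_eq_card hf']; simp
  have hDU : span F2 (Set.range (U.subtype ∘ f)) ≤ U := by
    rw [span_le]; rintro _ ⟨i, rfl⟩; exact (f i).2
  obtain ⟨ψ, k1, k2, k3, k4⟩ := MP71.shrink (D := span F2 (Set.range (U.subtype ∘ f))) h.spU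
  have : finrank F2 (U.map ψ) = t := by
    rw [le_antisymm k4 (map_mono hDU), finrank_map_of_disjoint k3, hD]
  exact (h.shrink k1 k2 this.ge).hasK this

end Pool.Agent.MP71

end MrgPart0

-- ======== part 1: formerly Pool.Agent.MP_71daef_lc.Growth
section MrgPart1

/-!
Linear growth rate of binary point configurations without a clique minor, and a packing lemma.
-/

set_option autoImplicit false

namespace Pool.Agent.MP71

open Submodule Module Finset

section growth

open Classical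

variable {V : Type} [AddCommGroup V] [Module F2 V]

/-- The flats obtained from two members of `𝓐` by adding the point `e`. -/
noncomputable def wit (𝓐 : Finset (Submodule F2 V)) (e : V) : Finset (Submodule F2 V) :=
  ((𝓐.filter (e ∉ ·)).image (· ⊔ span F2 {e})).filter (fun G => ∃ A ∈ 𝓐.filter (e ∉ ·),
    ∃ B ∈ 𝓐.filter (e ∉ ·), A ≠ B ∧ G = A ⊔ span F2 {e} ∧ G = B ⊔ span F2 {e})

theorem mem_wit {𝓐 : Finset (Submodule F2 V)} {e : V} {G : Submodule F2 V} :
    G ∈ wit 𝓐 e ↔ ∃ A ∈ 𝓐, ∃ B ∈ 𝓐, A ≠ B ∧ e ∉ A ∧ e ∉ B ∧ G = A ⊔ span F2 {e} ∧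
      G = B ⊔ span F2 {e} := by
  simp only [wit, mem_filter, mem_image]
  constructor
  · rintro ⟨-, A, ⟨h1, h2⟩, B, ⟨h3, h4⟩, h5, h6, h7⟩
    exact ⟨A, h1, B, h3, h5, h2, h4, h6, h7⟩
  · rintro ⟨A, h1, B, h3, h5, h2, h4, h6, h7⟩
    exact ⟨⟨A, ⟨h1, h2⟩, h6.symm⟩, A, ⟨h1, h2⟩, B, ⟨h3, h4⟩, h5, h6, h7⟩

/-- All flats constructed from `𝓐`. -/
noncomputable def plus (X : Finset V) (𝓐 : Finset (Submodule F2 V)) : Finset (Submodule F2 V) :=
  X.biUnion (wit 𝓐)

/-- The images of the members of `𝓐` that avoid `e`. -/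
noncomputable def img (φ : V →ₗ[F2] V) (e : V) (𝓐 : Finset (Submodule F2 V)) :
    Finset (Submodule F2 V) := (𝓐.filter (e ∉ ·)).image (Submodule.map φ)

theorem tw_plus {X : Finset V} {𝓐 : Finset (Submodule F2 V)} {n : ℕ}
    (h : ∀ A ∈ 𝓐, Tw (X : Set V) n A) : ∀ G ∈ plus X 𝓐, Tw (X : Set V) (n + 1) G := by
  intro G hG
  obtain ⟨e, he, hG⟩ := mem_biUnion.1 hG
  obtain ⟨A, h1, B, h3, h5, h2, h4, h6, h7⟩ := mem_wit.1 hG
  exact ⟨A, B, e, h A h1, h B h3, h5, he, h2, h4, h6, h7⟩

theorem card_image_add_le {α β : Type} [DecidableEq β] (S : Finset α) (g : α → β)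
    [DecidablePred (fun y => ∃ a ∈ S, ∃ b ∈ S, a ≠ b ∧ y = g a ∧ y = g b)] :
    (S.image g).card + ((S.image g).filter
      (fun y => ∃ a ∈ S, ∃ b ∈ S, a ≠ b ∧ y = g a ∧ y = g b)).card ≤ S.card := by
  rw [card_eq_sum_card_image g S, card_filter, card_eq_sum_ones (S.image g), ← sum_add_distrib]
  refine sum_le_sum fun y hy => ?_
  split_ifs with h
  · obtain ⟨a, ha, b, hb, hab, h1, h2⟩ := h
    exact one_lt_card.2 ⟨a, mem_filter.2 ⟨ha, h1.symm⟩, b, mem_filter.2 ⟨hb, h2.symm⟩, hab⟩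
  · obtain ⟨a, ha, h1⟩ := mem_image.1 hy
    exact card_pos.2 ⟨a, mem_filter.2 ⟨ha, h1⟩⟩

variable {φ : V →ₗ[F2] V} {e : V}

theorem map_sup_ker (hφ : LinearMap.ker φ = span F2 {e}) (A : Submodule F2 V) :
    (A ⊔ span F2 {e}).map φ = A.map φ := by
  rw [Submodule.map_sup, ← hφ, sup_eq_left]
  rintro _ ⟨x, hx, rfl⟩
  rw [LinearMap.mem_ker.1 hx]; exact zero_mem _

theorem loss_lower (hφ : LinearMap.ker φ = span F2 {e}) (𝓐 : Finset (Submodule F2 V)) :
    (img φ e 𝓐).card + (wit 𝓐 e).card ≤ 𝓐.card := by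
  have h1 := card_image_add_le (𝓐.filter (e ∉ ·)) (· ⊔ span F2 {e})
  have h2 : img φ e 𝓐 = ((𝓐.filter (e ∉ ·)).image (· ⊔ span F2 {e})).image (Submodule.map φ) := by
    rw [image_image]
    exact image_congr fun A _ => (map_sup_ker hφ A).symm
  have h3 := card_image_le (s := (𝓐.filter (e ∉ ·)).image (· ⊔ span F2 {e}))
    (f := Submodule.map φ)
  have h4 := card_filter_le 𝓐 (e ∉ ·)
  rw [h2, wit]
  refine (Nat.add_le_add h3 (le_of_eq ?_)).trans (h1.trans h4)
  congr 1
  ext G
  simp only [mem_filter]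

theorem loss_upper (hφ : LinearMap.ker φ = span F2 {e}) {X : Finset V} (he : e ∈ X)
    (𝓑 : Finset (Submodule F2 V)) :
    𝓑.card ≤ (img φ e 𝓑).card + (𝓑.filter (e ∈ ·)).card +
      (𝓑.filter (fun G => G ⊔ span F2 {e} ∈ plus X 𝓑)).card := by
  set R := 𝓑.filter (fun G => e ∉ G ∧ G ⊔ span F2 {e} ∉ plus X 𝓑) with hR
  have h1 : 𝓑 ⊆ R ∪ 𝓑.filter (e ∈ ·) ∪ 𝓑.filter (fun G => G ⊔ span F2 {e} ∈ plus X 𝓑) := by
    intro G hG
    simp only [hR, mem_union, mem_filter]
    tauto
  have h2 : R.card ≤ (img φ e 𝓑).card := by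
    refine card_le_card_of_injOn (Submodule.map φ) (fun G hG => ?_) (fun G hG G' hG' h => ?_)
    · have := mem_filter.1 (mem_coe.1 hG)
      exact mem_coe.2 (mem_image_of_mem _ (mem_filter.2 ⟨this.1, this.2.1⟩))
    · have k := mem_filter.1 (mem_coe.1 hG)
      have k' := mem_filter.1 (mem_coe.1 hG')
      by_contra hne
      refine k.2.2 (mem_biUnion.2 ⟨e, he, mem_wit.2 ⟨G, k.1, G', k'.1, hne, k.2.1, k'.2.1, rfl, ?_⟩⟩)
      rw [← hφ, ← comap_map_eq, ← comap_map_eq, h]
  have h3 := (card_le_card h1).trans ((card_union_le _ _).trans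
    (Nat.add_le_add_right (card_union_le _ _) _))
  omega

theorem disj_ker (hφ : LinearMap.ker φ = span F2 {e}) {G : Submodule F2 V} (h : e ∉ G) :
    Disjoint G (LinearMap.ker φ) := hφ ▸ disjoint_span_singleton_of_notMem h

theorem tw_img (hφ : LinearMap.ker φ = span F2 {e}) {X : Finset V} {n : ℕ}
    {𝓐 : Finset (Submodule F2 V)} (h : ∀ A ∈ 𝓐, Tw (X : Set V) n A) :
    ∀ A ∈ img φ e 𝓐, Tw (X.image φ : Set V) n A := by
  intro A hA
  obtain ⟨B, hB, rfl⟩ := mem_image.1 hA
  rw [coe_image]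
  exact (h B (mem_filter.1 hB).1).map (disj_ker hφ (mem_filter.1 hB).2)

theorem img_plus (hφ : LinearMap.ker φ = span F2 {e}) (X : Finset V)
    (𝓐 : Finset (Submodule F2 V)) : img φ e (plus X 𝓐) ⊆ plus (X.image φ) (img φ e 𝓐) := by
  intro G' hG'
  obtain ⟨G, hG, rfl⟩ := mem_image.1 hG'
  obtain ⟨hG, heG⟩ := mem_filter.1 hG
  obtain ⟨x, hx, hG⟩ := mem_biUnion.1 hG
  obtain ⟨A, h1, B, h3, h5, h2, h4, h6, h7⟩ := mem_wit.1 hG
  have hd := disj_ker hφ heG
  have hAG : A ≤ G := h6 ▸ le_sup_left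
  have hBG : B ≤ G := h7 ▸ le_sup_left
  have hxG : x ∈ G := h6 ▸ mem_sup_right (mem_span_singleton_self x)
  refine mem_biUnion.2 ⟨φ x, mem_image_of_mem _ hx, mem_wit.2 ⟨A.map φ,
    mem_image_of_mem _ (mem_filter.2 ⟨h1, fun h => heG (hAG h)⟩), B.map φ,
    mem_image_of_mem _ (mem_filter.2 ⟨h3, fun h => heG (hBG h)⟩),
    fun h => h5 (eq_of_map_eq hd hAG hBG h), fun h => h2 (mem_of_map_mem' hd hAG hxG h),
    fun h => h4 (mem_of_map_mem' hd hBG hxG h), ?_, ?_⟩⟩
  · rw [h6, Submodule.map_sup, map_span, Set.image_singleton]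
  · rw [h7, Submodule.map_sup, map_span, Set.image_singleton]

theorem noK_img (hφ : LinearMap.ker φ = span F2 {e}) {X : Finset V} (he : e ∈ X) {t : ℕ}
    (h : ¬ HasK t (X : Set V)) : ¬ HasK t (X.image φ : Set V) := by
  rw [coe_image]
  refine fun hK => h (hK.of_con ?_)
  rw [Con, hφ]
  exact span_mono (Set.singleton_subset_iff.2 ⟨he, mem_span_singleton_self e⟩)

theorem rk_img (hφ : LinearMap.ker φ = span F2 {e}) {X : Finset V} (he : e ∈ X) (h0 : e ≠ 0) :
    finrank F2 (span F2 (X.image φ : Set V)) < finrank F2 (span F2 (X : Set V)) := by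
  rw [coe_image, ← map_span, ← LinearMap.range_domRestrict,
    ← LinearMap.finrank_range_add_finrank_ker (φ.domRestrict (span F2 (X : Set V)))]
  have : finrank F2 (LinearMap.ker (φ.domRestrict (span F2 (X : Set V)))) ≠ 0 := by
    rw [Ne, Submodule.finrank_eq_zero, Submodule.eq_bot_iff]
    intro h
    refine h0 (congrArg Subtype.val (h ⟨e, subset_span he⟩ ?_))
    have : e ∈ LinearMap.ker φ := hφ ▸ mem_span_singleton_self e
    exact this
  omega

variable [Fintype V]

theorem card_pts (G : Submodule F2 V) :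
    (univ.filter (· ∈ G)).card = 2 ^ finrank F2 G := by
  rw [← Fintype.card_subtype, Module.card_eq_pow_finrank (K := F2)]
  simp

theorem sum_mem_le (X : Finset V) (𝓑 : Finset (Submodule F2 V)) {r : ℕ}
    (h : ∀ G ∈ 𝓑, finrank F2 G = r) :
    ∑ e ∈ X, (𝓑.filter (e ∈ ·)).card ≤ 2 ^ r * 𝓑.card := by
  simp only [card_filter]
  rw [sum_comm, mul_comm, ← smul_eq_mul, ← sum_const]
  refine sum_le_sum fun G hG => ?_
  rw [← card_filter, ← h G hG, ← card_pts]
  exact card_le_card fun x hx => mem_filter.2 ⟨mem_univ _, (mem_filter.1 hx).2⟩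

theorem card_below_le (𝓑 : Finset (Submodule F2 V)) (K : Submodule F2 V) :
    (𝓑.filter (· ≤ K)).card ≤ 2 ^ 2 ^ finrank F2 K := by
  rw [← card_pts, ← card_powerset]
  refine card_le_card_of_injOn (fun G => univ.filter (· ∈ G)) (fun G hG => ?_)
    (fun G _ G' _ h => ?_)
  · exact mem_coe.2 (mem_powerset.2 fun x hx =>
      mem_filter.2 ⟨mem_univ _, (mem_filter.1 (mem_coe.1 hG)).2 (mem_filter.1 hx).2⟩)
  · ext x
    simpa using Finset.ext_iff.1 h x

theorem sum_coll_le (X : Finset V) (𝓑 𝓒 : Finset (Submodule F2 V)) {r : ℕ}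
    (h : ∀ K ∈ 𝓒, finrank F2 K = r) :
    ∑ e ∈ X, (𝓑.filter (fun G => G ⊔ span F2 {e} ∈ 𝓒)).card ≤
      2 ^ 2 ^ r * (2 ^ r * 𝓒.card) := by
  refine le_trans ?_ (Nat.mul_le_mul_left _ (sum_mem_le X 𝓒 h))
  rw [mul_sum]
  refine sum_le_sum fun e _ => ?_
  have : 𝓑.filter (fun G => G ⊔ span F2 {e} ∈ 𝓒) ⊆
      (𝓒.filter (e ∈ ·)).biUnion (fun K => 𝓑.filter (· ≤ K)) := by
    intro G hG
    obtain ⟨h1, h2⟩ := mem_filter.1 hG
    exact mem_biUnion.2 ⟨_, mem_filter.2 ⟨h2, mem_sup_right (mem_span_singleton_self e)⟩,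
      mem_filter.2 ⟨h1, le_sup_left⟩⟩
  refine (card_le_card this).trans ?_
  rw [mul_comm]
  exact card_biUnion_le_card_mul _ _ _ fun K hK =>
    h K (mem_filter.1 hK).1 ▸ card_below_le 𝓑 K

/-- The constant lost in one level. -/
def lev (n a : ℕ) : ℕ := 2 ^ (n + 1) + 2 ^ 2 ^ (n + 2) * (2 ^ (n + 2) * a) + 1

variable (V) in
/-- Families of towers of height `n` construct at most `a` times as many flats. -/
def PB (t n a : ℕ) : Prop :=
  ∀ (X : Finset V) (𝓐 : Finset (Submodule F2 V)), ¬ HasK t (X : Set V) →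
    (∀ A ∈ 𝓐, Tw (X : Set V) n A) → (plus X 𝓐).card ≤ a * 𝓐.card

theorem sum_loss {t n a : ℕ} (h : PB V t n a) {X Y : Finset V} {𝓑 : Finset (Submodule F2 V)}
    (hK : ¬ HasK t (X : Set V)) (hB : ∀ G ∈ 𝓑, Tw (X : Set V) n G)
    (hl : lev n a * 𝓑.card ≤ ∑ e ∈ Y, ((𝓑.filter (e ∈ ·)).card +
      (𝓑.filter (fun G => G ⊔ span F2 {e} ∈ plus X 𝓑)).card)) : 𝓑.card = 0 := by
  rw [sum_add_distrib] at hl
  have h1 := sum_mem_le Y 𝓑 fun G hG => (hB G hG).rk
  have h2 := sum_coll_le Y 𝓑 (plus X 𝓑) fun G hG => (tw_plus hB G hG).rk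
  have h3 := Nat.mul_le_mul_left (2 ^ 2 ^ (n + 1 + 1))
    (Nat.mul_le_mul_left (2 ^ (n + 1 + 1)) (h X 𝓑 hK hB))
  have h4 : lev n a * 𝓑.card = 2 ^ (n + 1) * 𝓑.card +
      2 ^ 2 ^ (n + 1 + 1) * (2 ^ (n + 1 + 1) * (a * 𝓑.card)) + 𝓑.card := by
    rw [lev]; ring
  omega

theorem PB.step {t n a : ℕ} (h : PB V t (n + 1) a) : PB V t n (lev (n + 1) a) := by
  intro X
  induction hr : finrank F2 (span F2 (X : Set V)) using Nat.strong_induction_on generalizing X with
  | _ r ih =>
  intro 𝓐 hK hA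
  by_contra hcon
  push Not at hcon
  have := sum_loss h (Y := X) hK (tw_plus hA) (by
    refine (Nat.mul_le_mul_left _ card_biUnion_le).trans ?_
    rw [mul_sum]
    refine sum_le_sum fun e he => ?_
    by_cases h0 : e = 0
    · have : wit 𝓐 e = ∅ := eq_empty_of_forall_notMem fun G hG => by
        obtain ⟨A, -, B, -, -, h2, -⟩ := mem_wit.1 hG
        exact h2 (h0 ▸ zero_mem _)
      simp [this]
    obtain ⟨φ, hφ⟩ := exists_ker (span F2 {e})
    have h1 := ih _ (hr ▸ rk_img hφ he h0) _ rfl _ (noK_img hφ he hK) (tw_img hφ hA)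
    have h2 := card_le_card (img_plus hφ X 𝓐)
    have h3 := loss_upper hφ he (plus X 𝓐)
    have h4 := Nat.mul_le_mul_left (lev (n + 1) a) (loss_lower hφ 𝓐)
    rw [mul_add] at h4
    omega)
  omega

/-- The constant after `k` levels below height `N`. -/
def levs (N : ℕ) : ℕ → ℕ
  | 0 => 0
  | k + 1 => lev (N - k) (levs N k)

theorem PB.levs (t : ℕ) : ∀ k ≤ hgt ((2 ^ t) ^ t * t) t,
    PB V t (hgt ((2 ^ t) ^ t * t) t - k) (levs (hgt ((2 ^ t) ^ t * t) t) k)
  | 0, _ => by
    intro X 𝓐 hK hA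
    have : plus X 𝓐 = ∅ := eq_empty_of_forall_notMem fun G hG =>
      hK ((tw_plus hA G hG).hasK (by omega))
    simp [this]
  | k + 1, hk => by
    have h := PB.levs t k (by omega)
    have e1 : hgt ((2 ^ t) ^ t * t) t - k = hgt ((2 ^ t) ^ t * t) t - (k + 1) + 1 := by omega
    rw [MP71.levs, e1]
    rw [e1] at h
    exact h.step

/-- The growth constant. -/
def gc (t : ℕ) : ℕ := lev 0 (levs (hgt ((2 ^ t) ^ t * t) t) (hgt ((2 ^ t) ^ t * t) t))

theorem growth_fam (t : ℕ) (X : Finset V) (𝓑 : Finset (Submodule F2 V))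
    (hK : ¬ HasK t (X : Set V)) (hB : ∀ G ∈ 𝓑, Tw (X : Set V) 0 G) :
    𝓑.card ≤ gc t * finrank F2 (span F2 (X : Set V)) := by
  have h := PB.levs (V := V) t _ le_rfl
  rw [Nat.sub_self] at h
  induction hr : finrank F2 (span F2 (X : Set V)) using Nat.strong_induction_on
    generalizing X 𝓑 with
  | _ r ih =>
  by_contra hcon
  push Not at hcon
  have := sum_loss h (Y := X.erase 0) hK hB (by
    have hle : 𝓑.card ≤ (X.erase 0).card := by
      refine le_trans (card_le_card fun G hG => ?_)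
        (card_image_le (f := fun e => span F2 ({e} : Set V)))
      obtain ⟨e, he, h0, rfl⟩ := hB G hG
      exact mem_image_of_mem _ (mem_erase.2 ⟨h0, he⟩)
    refine (Nat.mul_le_mul_left _ hle).trans ?_
    rw [mul_comm, ← smul_eq_mul, ← sum_const]
    refine sum_le_sum fun e he => ?_
    obtain ⟨h0, he⟩ := mem_erase.1 he
    obtain ⟨φ, hφ⟩ := exists_ker (span F2 {e})
    have hlt := hr ▸ rk_img hφ he h0
    have h1 := ih _ hlt _ _ (noK_img hφ he hK) (tw_img hφ hB) rfl
    have h3 := loss_upper hφ he 𝓑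
    have h4 := Nat.mul_le_mul_left (gc t) (Nat.succ_le_of_lt hlt)
    rw [Nat.mul_succ] at h4
    change gc t ≤ _
    omega)
  omega

/-- Linear growth rate. -/
theorem growth (t : ℕ) (X : Finset V) (hK : ¬ HasK t (X : Set V)) :
    X.card ≤ gc t * finrank F2 (span F2 (X : Set V)) + 1 := by
  have h1 := growth_fam t X ((X.erase 0).image fun e => span F2 ({e} : Set V)) hK (by
    intro G hG
    obtain ⟨e, he, rfl⟩ := mem_image.1 hG
    exact ⟨e, (mem_erase.1 he).2, (mem_erase.1 he).1, rfl⟩)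
  rw [card_image_of_injOn] at h1
  · have := pred_card_le_card_erase (s := X) (a := 0)
    omega
  · intro x hx y _ hxy
    have h2 : x ∈ span F2 ({y} : Set V) := by
      have : span F2 ({x} : Set V) = span F2 {y} := hxy
      exact this ▸ mem_span_singleton_self x
    obtain ⟨c, rfl⟩ := mem_span_singleton.1 h2
    rcases f2_cases c with rfl | rfl
    · simp at hx
    · simp

end growth

section pack

open symmDiff

variable {α : Type} [DecidableEq α]

/-- Weight of the unit distance edges of a weighted family of subsets of `A`. -/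
def edg (A : Finset α) (w : Finset α → ℕ) : ℕ :=
  ∑ b ∈ A, ∑ Q ∈ (A.erase b).powerset, min (w Q) (w (insert b Q))

/-- The support of `w` shatters `T`. -/
def Shat (A : Finset α) (w : Finset α → ℕ) (T : Finset α) : Prop :=
  ∀ S ⊆ T, ∃ Q ⊆ A, 0 < w Q ∧ Q ∩ T = S

theorem edg_le_zero {A : Finset α} {w : Finset α → ℕ} (h : ¬ Shat A w ∅) :
    edg A w + ∑ Q ∈ A.powerset, w Q = 0 := by
  have h0 : ∀ Q ⊆ A, w Q = 0 := fun Q hQ => by
    by_contra hne
    exact h fun S hS => ⟨Q, hQ, Nat.pos_of_ne_zero hne, by simp [subset_empty.1 hS]⟩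
  rw [sum_eq_zero fun Q hQ => h0 Q (mem_powerset.1 hQ), add_zero, edg]
  refine sum_eq_zero fun b _ => sum_eq_zero fun Q hQ => ?_
  rw [h0 Q ((mem_powerset.1 hQ).trans (erase_subset _ _))]; simp

theorem edg_le (A : Finset α) : ∀ (d : ℕ) (w : Finset α → ℕ),
    (∀ T ⊆ A, T.card = d → ¬ Shat A w T) →
    edg A w + ∑ Q ∈ A.powerset, w Q ≤ d * ∑ Q ∈ A.powerset, w Q := by
  induction A using Finset.induction_on with
  | empty =>
    intro d w h
    rcases d with _ | d
    · exact (edg_le_zero (h ∅ (empty_subset _) rfl)).le.trans (Nat.zero_le _)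
    · simp [edg, Nat.succ_mul]
  | insert a A ha ih =>
    intro d w h
    rcases d with _ | d
    · exact (edg_le_zero (h ∅ (empty_subset _) rfl)).le.trans (Nat.zero_le _)
    have h1 := ih (d + 1) (fun Q => max (w Q) (w (insert a Q))) (fun T hT hc hs => by
      refine h T (hT.trans (subset_insert _ _)) hc fun S hS => ?_
      obtain ⟨Q, hQ, hw, hQS⟩ := hs S hS
      rcases lt_max_iff.1 hw with hw | hw
      · exact ⟨Q, hQ.trans (subset_insert _ _), hw, hQS⟩
      · exact ⟨insert a Q, insert_subset_insert _ hQ, hw, by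
          rw [insert_inter_of_notMem (fun h => ha (hT h)), hQS]⟩)
    have h2 := ih d (fun Q => min (w Q) (w (insert a Q))) (fun T hT hc hs => by
      have haT : a ∉ T := fun h => ha (hT h)
      refine h (insert a T) (insert_subset_insert _ hT) (by rw [card_insert_of_notMem haT, hc])
        fun S hS => ?_
      obtain ⟨Q, hQ, hw, hQS⟩ := hs (S.erase a) (subset_insert_iff.1 hS)
      by_cases haS : a ∈ S
      · refine ⟨insert a Q, insert_subset_insert _ hQ, (lt_min_iff.1 hw).2, ?_⟩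
        rw [← insert_inter_distrib, hQS, insert_erase haS]
      · refine ⟨Q, hQ.trans (subset_insert _ _), (lt_min_iff.1 hw).1, ?_⟩
        rw [inter_insert_of_notMem (fun h => ha (hQ h)), hQS, erase_eq_of_notMem haS])
    have h3 : edg (insert a A) w ≤ ∑ Q ∈ A.powerset, min (w Q) (w (insert a Q)) +
        (edg A (fun Q => max (w Q) (w (insert a Q))) +
          edg A (fun Q => min (w Q) (w (insert a Q)))) := by
      rw [edg, sum_insert ha, erase_insert ha, edg, edg, ← sum_add_distrib]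
      refine Nat.add_le_add_left (sum_le_sum fun b hb => ?_) _
      have hab : a ≠ b := fun h => ha (h ▸ hb)
      rw [erase_insert_of_ne hab, sum_powerset_insert (fun h => ha (mem_of_mem_erase h)),
        ← sum_add_distrib, ← sum_add_distrib]
      refine sum_le_sum fun Q _ => ?_
      rw [insert_comm b a Q]
      omega
    have h4 : ∑ Q ∈ (insert a A).powerset, w Q = ∑ Q ∈ A.powerset, max (w Q) (w (insert a Q)) +
        ∑ Q ∈ A.powerset, min (w Q) (w (insert a Q)) := by
      rw [sum_powerset_insert ha, ← sum_add_distrib, ← sum_add_distrib]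
      exact sum_congr rfl fun Q _ => by omega
    rw [h4, mul_add, Nat.succ_mul d (∑ Q ∈ A.powerset, min (w Q) (w (insert a Q)))]
    omega

variable {ι : Type} [DecidableEq ι]

theorem class_bound (K : Finset ι) (D : Finset α) (P : ι → Finset α) (δ : ℕ)
    (h : ∀ f ∈ K, ∀ g ∈ K, f ≠ g → δ ≤ (D.filter (· ∈ P f ∆ P g)).card) :
    δ * K.card ≤ 2 * ∑ a ∈ D, min (K.filter (a ∉ P ·)).card (K.filter (a ∈ P ·)).card +
      if K.Nonempty then δ else 0 := by
  split_ifs with hK
  swap
  · simp [not_nonempty_iff_eq_empty.1 hK]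
  have h1 : K.offDiag.card * δ ≤ ∑ x ∈ K.offDiag, (D.filter (· ∈ P x.1 ∆ P x.2)).card := by
    rw [← smul_eq_mul, ← sum_const]
    exact sum_le_sum fun x hx => h _ (mem_offDiag.1 hx).1 _ (mem_offDiag.1 hx).2.1
      (mem_offDiag.1 hx).2.2
  have h2 : ∑ x ∈ K.offDiag, (D.filter (· ∈ P x.1 ∆ P x.2)).card ≤ K.card *
      (2 * ∑ a ∈ D, min (K.filter (a ∉ P ·)).card (K.filter (a ∈ P ·)).card) := by
    rw [sum_congr rfl fun x _ => card_filter (· ∈ P x.1 ∆ P x.2) D, sum_comm, mul_sum, mul_sum]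
    refine sum_le_sum fun a _ => ?_
    rw [← card_filter]
    have h3 : K.offDiag.filter (fun x => a ∈ P x.1 ∆ P x.2) ⊆
        K.filter (a ∈ P ·) ×ˢ K.filter (a ∉ P ·) ∪ K.filter (a ∉ P ·) ×ˢ K.filter (a ∈ P ·) := by
      intro x hx
      simp only [mem_filter, mem_offDiag, mem_symmDiff, mem_union, mem_product] at hx ⊢
      tauto
    have h4 := (card_le_card h3).trans (card_union_le _ _)
    rw [card_product, card_product] at h4
    have h5 := card_filter_le K (a ∈ P ·)
    have h6 := card_filter_le K (a ∉ P ·)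
    refine h4.trans ?_
    rcases le_total (K.filter (a ∉ P ·)).card (K.filter (a ∈ P ·)).card with h7 | h7
    · rw [min_eq_left h7]; nlinarith
    · rw [min_eq_right h7]; nlinarith
  rw [offDiag_card] at h1
  have hpos := card_pos.2 hK
  refine Nat.le_of_mul_le_mul_left ?_ hpos
  have h8 : K.card ≤ K.card * K.card := Nat.le_mul_self _
  have h9 : (K.card * K.card - K.card) * δ + K.card * δ = K.card * (δ * K.card) := by
    rw [← add_mul, Nat.sub_add_cancel h8]; ring
  rw [mul_add]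
  omega

/-- Weight of the edges in direction `a` over the classes of traces on `A`. -/
def dirw (K : Finset ι) (P : ι → Finset α) (A : Finset α) (a : α) : ℕ :=
  ∑ Q ∈ A.powerset, min ((K.filter (P · ∩ A = Q)).filter (a ∉ P ·)).card
    ((K.filter (P · ∩ A = Q)).filter (a ∈ P ·)).card

theorem dirw_lower (K : Finset ι) (B : Finset α) (P : ι → Finset α) (δ : ℕ)
    (hP : ∀ f ∈ K, P f ⊆ B) (h : ∀ f ∈ K, ∀ g ∈ K, f ≠ g → δ ≤ (P f ∆ P g).card)
    (A : Finset α) :
    δ * K.card ≤ 2 * ∑ a ∈ B \ A, dirw K P A a + δ * (K.image (P · ∩ A)).card := by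
  have h1 : K.card = ∑ Q ∈ A.powerset, (K.filter (P · ∩ A = Q)).card :=
    card_eq_sum_card_fiberwise fun f _ => mem_coe.2 (mem_powerset.2 inter_subset_right)
  have h2 : K.image (P · ∩ A) =
      A.powerset.filter (fun Q => (K.filter (P · ∩ A = Q)).Nonempty) := by
    ext Q
    simp only [mem_image, mem_filter, mem_powerset, Finset.Nonempty]
    exact ⟨fun ⟨f, hf, hQ⟩ => ⟨hQ ▸ inter_subset_right, f, hf, hQ⟩, fun h => h.2⟩
  simp only [dirw]
  rw [h1, h2, card_filter, sum_comm, mul_sum, mul_sum, mul_sum, ← sum_add_distrib]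
  refine sum_le_sum fun Q _ => ?_
  rw [mul_ite, mul_one, mul_zero]
  refine class_bound _ _ _ _ fun f hf g hg hfg => ?_
  obtain ⟨hf, hf'⟩ := mem_filter.1 hf
  obtain ⟨hg, hg'⟩ := mem_filter.1 hg
  refine (h f hf g hg hfg).trans (card_le_card fun a ha => mem_filter.2 ⟨?_, ha⟩)
  have h3 := Finset.ext_iff.1 (hf'.trans hg'.symm) a
  have h4 := @hP f hf a
  have h5 := @hP g hg a
  simp only [mem_symmDiff, mem_sdiff, mem_inter] at *
  tauto

omit [DecidableEq ι] in
theorem dirw_upper (K : Finset ι) (P : ι → Finset α) {d : ℕ} (A : Finset α)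
    (h : ∀ T ⊆ A, T.card = d → (K.image (P · ∩ T)).card < 2 ^ d) :
    ∑ a ∈ A, dirw K P (A.erase a) a ≤ d * K.card := by
  have h1 : K.card = ∑ Q ∈ A.powerset, (K.filter (P · ∩ A = Q)).card :=
    card_eq_sum_card_fiberwise fun f _ => mem_coe.2 (mem_powerset.2 inter_subset_right)
  have h2 := edg_le A d (fun Q => (K.filter (P · ∩ A = Q)).card) (fun T hT hc hs => by
    refine (h T hT hc).not_ge ?_
    rw [← hc, ← card_powerset]
    refine card_le_card fun S hS => ?_
    obtain ⟨Q, -, hw, hQ⟩ := hs S (mem_powerset.1 hS)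
    obtain ⟨f, hf⟩ := card_pos.1 hw
    refine mem_image.2 ⟨f, (mem_filter.1 hf).1, ?_⟩
    rw [← hQ, ← (mem_filter.1 hf).2, inter_assoc, inter_eq_right.2 hT])
  rw [← h1] at h2
  refine le_trans (sum_le_sum fun a ha => sum_le_sum fun Q hQ => min_le_min ?_ ?_)
    ((Nat.le_add_right _ _).trans h2)
  · refine card_le_card fun f hf => ?_
    simp only [mem_filter] at hf ⊢
    refine ⟨hf.1.1, ?_⟩
    rw [← hf.1.2, ← insert_erase ha, inter_insert_of_notMem hf.2, erase_insert (notMem_erase _ _)]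
  · refine card_le_card fun f hf => ?_
    simp only [mem_filter] at hf ⊢
    refine ⟨hf.1.1, ?_⟩
    rw [← hf.1.2, ← insert_erase ha, inter_insert_of_mem hf.2, erase_insert (notMem_erase _ _)]

theorem sum_erase_eq (B : Finset α) (s : ℕ) (F : Finset α → α → ℕ) :
    ∑ A ∈ B.powersetCard s, ∑ a ∈ B \ A, F A a =
      ∑ A ∈ B.powersetCard (s + 1), ∑ a ∈ A, F (A.erase a) a := by
  rw [sum_sigma', sum_sigma']
  refine sum_nbij' (fun x => ⟨insert x.2 x.1, x.2⟩) (fun x => ⟨x.1.erase x.2, x.2⟩) ?_ ?_ ?_ ?_ ?_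
  · rintro ⟨A, a⟩ hx
    simp only [mem_sigma, mem_powersetCard, mem_sdiff] at hx ⊢
    exact ⟨⟨insert_subset hx.2.1 hx.1.1, by rw [card_insert_of_notMem hx.2.2, hx.1.2]⟩,
      mem_insert_self _ _⟩
  · rintro ⟨A, a⟩ hx
    simp only [mem_sigma, mem_powersetCard, mem_sdiff] at hx ⊢
    exact ⟨⟨(erase_subset _ _).trans hx.1.1, by rw [card_erase_of_mem hx.2, hx.1.2]; rfl⟩,
      hx.1.1 hx.2, notMem_erase _ _⟩
  · rintro ⟨A, a⟩ hx
    simp only [mem_sigma, mem_powersetCard, mem_sdiff] at hx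
    simp [erase_insert hx.2.2]
  · rintro ⟨A, a⟩ hx
    simp only [mem_sigma, mem_powersetCard] at hx
    simp [insert_erase hx.2]
  · rintro ⟨A, a⟩ hx
    simp only [mem_sigma, mem_powersetCard, mem_sdiff] at hx
    simp [erase_insert hx.2.2]

/-- Packing lemma for set systems with linearly many traces. -/
theorem packing (K : Finset ι) (B : Finset α) (P : ι → Finset α) {c d δ : ℕ}
    (hd : c * d + 1 < 2 ^ d) (hP : ∀ f ∈ K, P f ⊆ B)
    (h : ∀ f ∈ K, ∀ g ∈ K, f ≠ g → δ ≤ (P f ∆ P g).card)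
    (htr : ∀ S ⊆ B, (K.image (P · ∩ S)).card ≤ c * S.card + 1) :
    δ * K.card ≤ 8 * c * d * B.card + 2 * δ := by
  rcases Nat.eq_zero_or_pos δ with rfl | hδ
  · simp
  set s := 4 * d * B.card / δ with hs
  have hs1 : s * δ ≤ 4 * d * B.card := Nat.div_mul_le_self _ _
  have hs2 : 4 * d * B.card < (s + 1) * δ := by
    rw [mul_comm (s + 1)]; exact Nat.lt_mul_div_succ _ hδ
  by_cases hsm : s ≤ B.card
  · have h1 : (B.powersetCard s).card * (δ * K.card) ≤ ∑ A ∈ B.powersetCard s,
        (2 * ∑ a ∈ B \ A, dirw K P A a + δ * (c * s + 1)) := by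
      rw [← smul_eq_mul, ← sum_const]
      refine sum_le_sum fun A hA => (dirw_lower K B P δ hP h A).trans ?_
      obtain ⟨hA, hc⟩ := mem_powersetCard.1 hA
      exact Nat.add_le_add_left (Nat.mul_le_mul_left _ (hc ▸ htr A hA)) _
    have h2 : ∑ A ∈ B.powersetCard (s + 1), ∑ a ∈ A, dirw K P (A.erase a) a ≤
        (B.powersetCard (s + 1)).card * (d * K.card) := by
      rw [← smul_eq_mul, ← sum_const]
      refine sum_le_sum fun A hA => dirw_upper K P A fun T hT hc => ?_
      exact (htr T (hT.trans (mem_powersetCard.1 hA).1)).trans_lt (hc ▸ hd)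
    rw [sum_add_distrib, ← mul_sum, sum_erase_eq, sum_const, smul_eq_mul] at h1
    rw [card_powersetCard] at h1 h2
    have h3 := Nat.choose_succ_right_eq B.card s
    have h4 : B.card.choose (s + 1) * (s + 1) ≤ B.card.choose s * B.card :=
      h3 ▸ Nat.mul_le_mul_left _ (Nat.sub_le _ _)
    have h5 : (s + 1) * (δ * K.card) ≤
        2 * B.card * (d * K.card) + (s + 1) * (δ * (c * s + 1)) := by
      refine Nat.le_of_mul_le_mul_left ?_ (Nat.choose_pos hsm)
      have h6 := Nat.mul_le_mul_left (s + 1) (h1.trans (Nat.add_le_add_right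
        (Nat.mul_le_mul_left 2 h2) _))
      have h7 := Nat.mul_le_mul_right (2 * (d * K.card)) h4
      nlinarith
    have h8 : K.card ≤ 2 * (c * s + 1) := by
      refine Nat.le_of_mul_le_mul_left ?_ (Nat.mul_pos (Nat.succ_pos s) hδ)
      have := Nat.mul_le_mul_right K.card hs2.le
      simp only [Nat.succ_eq_add_one]
      nlinarith
    have := Nat.mul_le_mul_left δ h8
    have := Nat.mul_le_mul_left c hs1
    nlinarith
  · have h1 : δ ≤ 4 * d := by
      by_contra hcon
      have := Nat.mul_le_mul (not_le.1 hsm).le (not_le.1 hcon).le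
      have := Nat.mul_le_mul_right δ (Nat.succ_le_of_lt (not_le.1 hsm))
      simp only [Nat.succ_eq_add_one] at this
      have := Nat.mul_le_mul_left B.card (not_le.1 hcon).le
      nlinarith
    have h2 : K.card ≤ c * B.card + 1 := by
      refine le_trans (card_image_of_injOn fun f hf g hg hfg => ?_).ge (htr B subset_rfl)
      by_contra hne
      have := h f hf g hg hne
      simp only [inter_eq_left.2 (hP f hf), inter_eq_left.2 (hP g hg)] at hfg
      simp [hfg] at this
      omega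
    have := Nat.mul_le_mul_left δ h2
    have := Nat.mul_le_mul_right (c * B.card) h1
    nlinarith

end pack

end Pool.Agent.MP71

end MrgPart1

-- ======== part 2: formerly Pool.Agent.MP_71daef_lc.Algo
section MrgPart2

/-!
Load balanced information sets: a polynomial-time algorithm for the shortest cycle of a binary
configuration without a clique minor.
-/

set_option autoImplicit false

namespace Pool.Agent.MP71

open Submodule Module Finset symmDiff

section rounds

variable {V : Type} [AddCommGroup V] [Module F2 V] {ι : Type} [DecidableEq ι]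

theorem sum_symmDiff (a : ι → V) (Z Z' : Finset ι) :
    ∑ j ∈ Z ∆ Z', a j = ∑ j ∈ Z, a j + ∑ j ∈ Z', a j := by
  rw [symmDiff_def, sup_eq_union, sum_union disjoint_sdiff_sdiff,
    ← sum_sdiff (inter_subset_left (s₁ := Z) (s₂ := Z')),
    ← sum_sdiff (inter_subset_right (s₁ := Z) (s₂ := Z')), sdiff_inter_self_left,
    sdiff_inter_self_right]
  have := add_self_v (∑ j ∈ Z ∩ Z', a j)
  calc _ = ∑ j ∈ Z \ Z', a j + ∑ j ∈ Z' \ Z, a j + (∑ j ∈ Z ∩ Z', a j + ∑ j ∈ Z ∩ Z', a j) := by
        rw [this, add_zero]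
    _ = _ := by abel

theorem exists_sum_of_mem_span (a : ι → V) (R : Finset ι) {x : V}
    (hx : x ∈ span F2 (a '' R)) : ∃ Q ⊆ R, x = ∑ j ∈ Q, a j := by
  induction hx using span_induction with
  | mem x hx =>
    obtain ⟨j, hj, rfl⟩ := hx
    exact ⟨{j}, singleton_subset_iff.2 hj, by simp⟩
  | zero => exact ⟨∅, empty_subset _, by simp⟩
  | add x y _ _ hx hy =>
    obtain ⟨Q, hQ, rfl⟩ := hx
    obtain ⟨Q', hQ', rfl⟩ := hy
    exact ⟨Q ∆ Q', symmDiff_le_sup.trans (sup_le hQ hQ'), (sum_symmDiff a Q Q').symm⟩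
  | smul c x _ hx =>
    rcases f2_cases c with rfl | rfl
    · exact ⟨∅, empty_subset _, by simp⟩
    · simpa using hx

variable [Fintype V]

theorem traces_le {t : ℕ} (a : ι → V) (B I : Finset ι) (P : ι → Finset ι)
    (hK : ¬ HasK t (a '' (B ∪ I : Finset ι))) (hP : ∀ f ∈ I, P f ⊆ B ∧ a f = ∑ j ∈ P f, a j)
    (hind : ∀ Z ⊆ B, ∑ j ∈ Z, a j = 0 → Z = ∅) {S : Finset ι} (hS : S ⊆ B) :
    (I.image (P · ∩ S)).card ≤ gc t * S.card + 1 := by
  classical
  obtain ⟨φ, hφ⟩ := exists_ker (span F2 (a '' (B \ S : Finset ι)))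
  have h0 : ∀ j ∈ B \ S, φ (a j) = 0 := fun j hj =>
    LinearMap.mem_ker.1 (hφ ▸ subset_span ⟨j, hj, rfl⟩)
  have hcon : Con (a '' (B ∪ I : Finset ι)) φ := by
    refine hφ.le.trans (span_mono ?_)
    rintro _ ⟨j, hj, rfl⟩
    exact ⟨⟨j, mem_coe.2 (mem_union_left _ (mem_sdiff.1 hj).1), rfl⟩, h0 j hj⟩
  have hQ : ∀ Q ⊆ B, φ (∑ j ∈ Q, a j) = ∑ j ∈ Q ∩ S, φ (a j) := by
    intro Q hQ
    rw [map_sum, ← sum_sdiff (inter_subset_left (s₁ := Q) (s₂ := S)), sdiff_inter_self_left,
      sum_eq_zero fun j hj => h0 j (sdiff_subset_sdiff hQ subset_rfl hj), zero_add]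
  have h1 := growth t ((B ∪ I).image (fun j => φ (a j))) (by
    rw [coe_image, ← Set.image_image]
    exact fun h => hK (h.of_con hcon))
  have h2 : span F2 ((B ∪ I).image (fun j => φ (a j)) : Set V) ≤
      span F2 (S.image (fun j => φ (a j)) : Set V) := by
    have key : ∀ Q ⊆ B, φ (∑ j ∈ Q, a j) ∈ span F2 (S.image (fun j => φ (a j)) : Set V) := by
      intro Q h
      rw [hQ Q h]
      exact sum_mem fun j hj => subset_span (mem_coe.2 (mem_image_of_mem _ (mem_inter.1 hj).2))
    rw [span_le]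
    intro x hx
    obtain ⟨j, hj, rfl⟩ := mem_image.1 (mem_coe.1 hx)
    rcases mem_union.1 hj with hj | hj
    · simpa using key {j} (singleton_subset_iff.2 hj)
    · rw [(hP j hj).2]; exact key _ (hP j hj).1
  have h3 := (Submodule.finrank_mono h2).trans
    ((finrank_span_finset_le_card _).trans card_image_le)
  refine le_trans ?_ (h1.trans (Nat.add_le_add_right (Nat.mul_le_mul_left _ h3) _))
  refine card_le_card_of_injOn (fun Q => ∑ j ∈ Q, φ (a j)) (fun Q hQ' => ?_)
    (fun Q hQ1 Q' hQ2 h => ?_)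
  · obtain ⟨f, hf, rfl⟩ := mem_image.1 (mem_coe.1 hQ')
    refine mem_coe.2 (mem_image.2 ⟨f, mem_union_right _ hf, ?_⟩)
    rw [(hP f hf).2, hQ _ (hP f hf).1]
  · have k : ∀ Q ∈ (I.image (P · ∩ S) : Set (Finset ι)), Q ⊆ S := fun Q h => by
      obtain ⟨f, -, rfl⟩ := mem_image.1 (mem_coe.1 h)
      exact inter_subset_right
    have hs : Q ∆ Q' ⊆ S := symmDiff_le_sup.trans (sup_le (k Q hQ1) (k Q' hQ2))
    have h4 : ∑ j ∈ Q ∆ Q', a j ∈ LinearMap.ker φ := by
      have h' : ∑ j ∈ Q, φ (a j) = ∑ j ∈ Q', φ (a j) := h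
      rw [LinearMap.mem_ker, sum_symmDiff, map_add, map_sum, map_sum, h', add_self_v]
    obtain ⟨R, hR, h5⟩ := exists_sum_of_mem_span a _ (hφ ▸ h4)
    have h6 := hind ((Q ∆ Q') ∆ R) (symmDiff_le_sup.trans (sup_le (hs.trans hS)
      (hR.trans sdiff_subset))) (by rw [sum_symmDiff, h5, add_self_v])
    have h7 : Q ∆ Q' = R := symmDiff_eq_bot.1 h6
    refine symmDiff_eq_bot.1 (eq_empty_of_forall_notMem fun j hj => ?_)
    exact (mem_sdiff.1 (hR (h7 ▸ hj))).2 (hs hj)

/-- Girth times corank is at most linear in the number of elements. -/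
theorem fund_bound {t d g : ℕ} (hd : gc t * d + 1 < 2 ^ d) (a : ι → V) (B I : Finset ι)
    (hBI : Disjoint B I) (P : ι → Finset ι) (hK : ¬ HasK t (a '' (B ∪ I : Finset ι)))
    (hP : ∀ f ∈ I, P f ⊆ B ∧ a f = ∑ j ∈ P f, a j)
    (hind : ∀ Z ⊆ B, ∑ j ∈ Z, a j = 0 → Z = ∅)
    (hg : ∀ Z ⊆ B ∪ I, Z.Nonempty → ∑ j ∈ Z, a j = 0 → g ≤ Z.card) :
    g * I.card ≤ (8 * gc t * d + 2) * (B ∪ I).card := by
  have hn : ∀ f ∈ I, ∀ f' ∈ I, f ∉ P f' := fun f hf f' hf' h =>
    disjoint_left.1 hBI ((hP f' hf').1 h) hf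
  have h1 := packing I B P (δ := g - 2) hd (fun f hf => (hP f hf).1) (fun f hf f' hf' hne => by
    have h2 : f' ∉ P f ∆ P f' := by simp [mem_symmDiff, hn f' hf' f hf, hn f' hf' f' hf']
    have h3 : f ∉ insert f' (P f ∆ P f') := by
      simp [mem_symmDiff, hn f hf f hf, hn f hf f' hf', hne]
    have h4 := hg (insert f (insert f' (P f ∆ P f')))
      (insert_subset (mem_union_right _ hf) (insert_subset (mem_union_right _ hf')
        ((symmDiff_le_sup.trans (sup_le (hP f hf).1 (hP f' hf').1)).trans subset_union_left)))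
      (insert_nonempty _ _) (by
        rw [sum_insert h3, sum_insert h2, sum_symmDiff, ← (hP f hf).2, ← (hP f' hf').2,
          ← add_assoc, add_self_v])
    rw [card_insert_of_notMem h3, card_insert_of_notMem h2] at h4
    omega) (fun S hS => traces_le a B I P hK hP hind hS)
  rw [card_union_of_disjoint hBI]
  rcases I.eq_empty_or_nonempty with rfl | ⟨f, hf⟩
  · simp
  have h2 := hg (insert f (P f)) (insert_subset (mem_union_right _ hf)
    ((hP f hf).1.trans subset_union_left)) (insert_nonempty _ _)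
    (by rw [sum_insert (hn f hf f hf), ← (hP f hf).2, add_self_v])
  rw [card_insert_of_notMem (hn f hf f hf)] at h2
  have h3 := card_le_card (hP f hf).1
  have h4 : g * I.card ≤ (g - 2 + 2) * I.card := Nat.mul_le_mul_right _ (by omega)
  have h5 : g - 2 ≤ B.card := by omega
  nlinarith [Nat.zero_le (8 * gc t * d * I.card)]

/-- The outcome of one greedy elimination: `I` is the complement of a basis chosen greedily by
decreasing load and `P f` is the rest of the fundamental circuit of `f`. -/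
structure Rnd (a : ι → V) (E : Finset ι) (l : ι → ℕ) (I : Finset ι) (P : ι → Finset ι) :
    Prop where
  sub : I ⊆ E
  fund : ∀ f ∈ I, P f ⊆ E \ I ∧ a f = ∑ j ∈ P f, a j ∧ ∀ j ∈ P f, l f ≤ l j
  ind : ∀ Z ⊆ E \ I, ∑ j ∈ Z, a j = 0 → Z = ∅

theorem two_pow_eq (L : ℕ) : ∀ k ≤ L, 2 ^ k = 1 + ∑ θ ∈ range L, if θ + 1 ≤ k then 2 ^ θ else 0 := by
  intro k hk
  have : (range L).filter (· + 1 ≤ k) = range k := by
    ext θ; simp only [mem_filter, mem_range]; omega
  rw [← sum_filter, this, Nat.geomSum_eq le_rfl]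
  have := Nat.one_le_two_pow (n := k)
  omega

omit [DecidableEq ι] in
theorem layer (S : Finset ι) (l : ι → ℕ) {L : ℕ} (h : ∀ j ∈ S, l j ≤ L) :
    ∑ j ∈ S, 2 ^ l j = S.card + ∑ θ ∈ range L, 2 ^ θ * (S.filter (θ + 1 ≤ l ·)).card := by
  rw [sum_congr rfl fun j hj => two_pow_eq L _ (h j hj), sum_add_distrib, sum_comm,
    ← card_eq_sum_ones]
  congr 1
  refine sum_congr rfl fun θ _ => ?_
  rw [← sum_filter, sum_const, smul_eq_mul, mul_comm]

theorem Rnd.weight {t d g : ℕ} (hd : gc t * d + 1 < 2 ^ d) {a : ι → V} {E I : Finset ι}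
    {l : ι → ℕ} {P : ι → Finset ι} (h : Rnd a E l I P) (hK : ¬ HasK t (a '' E))
    (hg : ∀ Z ⊆ E, Z.Nonempty → ∑ j ∈ Z, a j = 0 → g ≤ Z.card) :
    g * ∑ j ∈ I, 2 ^ l j ≤ (8 * gc t * d + 2) * ∑ j ∈ E, 2 ^ l j := by
  have key : ∀ θ, g * (I.filter (θ ≤ l ·)).card ≤
      (8 * gc t * d + 2) * (E.filter (θ ≤ l ·)).card := by
    intro θ
    have hu : (E \ I).filter (θ ≤ l ·) ∪ I.filter (θ ≤ l ·) = E.filter (θ ≤ l ·) := by
      rw [← filter_union, sdiff_union_of_subset h.sub]
    rw [← hu]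
    refine fund_bound hd a _ _ (disjoint_filter_filter sdiff_disjoint) P ?_ ?_ ?_ ?_
    · rw [hu]
      exact fun h' => hK (h'.mono (Set.image_mono (coe_subset.2 (filter_subset _ _))))
    · intro f hf
      obtain ⟨hf, hθ⟩ := mem_filter.1 hf
      obtain ⟨h1, h2, h3⟩ := h.fund f hf
      exact ⟨fun j hj => mem_filter.2 ⟨h1 hj, hθ.trans (h3 j hj)⟩, h2⟩
    · exact fun Z hZ => h.ind Z (hZ.trans (filter_subset _ _))
    · rw [hu]
      exact fun Z hZ => hg Z (hZ.trans (filter_subset _ _))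
  have h0 := key 0
  simp only [Nat.zero_le, filter_true] at h0
  rw [layer I l (L := E.sup l) fun j hj => le_sup (h.sub hj),
    layer E l (L := E.sup l) fun j hj => le_sup hj, mul_add, mul_add, mul_sum, mul_sum]
  refine Nat.add_le_add h0 (sum_le_sum fun θ _ => ?_)
  rw [mul_left_comm, mul_left_comm (8 * gc t * d + 2)]
  exact Nat.mul_le_mul_left _ (key _)

theorem add_pow_le (g c : ℕ) (hg : 0 < g) : (g + c) ^ g ≤ 4 ^ c * g ^ g := by
  have hg' : (0 : ℝ) < g := by exact_mod_cast hg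
  have h1 : ((g : ℝ) + c) ≤ Real.exp (c / g) * g := by
    have := Real.add_one_le_exp ((c : ℝ) / g)
    calc ((g : ℝ) + c) = (c / g + 1) * g := by field_simp; ring
      _ ≤ _ := by gcongr
  have h2 : Real.exp (c / g) ^ g ≤ 4 ^ c := by
    rw [← Real.exp_nat_mul, mul_div_cancel₀ _ hg'.ne', ← mul_one (c : ℝ), Real.exp_nat_mul]
    exact pow_le_pow_left₀ (Real.exp_pos 1).le (by linarith [Real.exp_one_lt_d9]) _
  have h3 : ((g : ℝ) + c) ^ g ≤ 4 ^ c * g ^ g :=
    calc ((g : ℝ) + c) ^ g ≤ (Real.exp (c / g) * g) ^ g := by gcongr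
      _ ≤ _ := by rw [mul_pow]; gcongr
  exact_mod_cast h3

/-- Multiplicative weights: some round meets the given set in few elements. -/
theorem exists_round {E C : Finset ι} {c : ℕ} (hC : C ⊆ E) (hne : C.Nonempty)
    (l : ℕ → ι → ℕ) (I : ℕ → Finset ι) (h0 : ∀ j ∈ E, l 0 j = 0)
    (hs : ∀ k, ∀ j ∈ E, l (k + 1) j = l k j + if j ∈ I k then 1 else 0)
    (hw : ∀ k < E.card * E.card,
      I k ⊆ E ∧ C.card * ∑ j ∈ I k, 2 ^ l k j ≤ c * ∑ j ∈ E, 2 ^ l k j) :
    ∃ k < E.card * E.card, (I k ∩ C).card ≤ 2 * c := by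
  by_contra hcon
  push Not at hcon
  have hpos := card_pos.2 hne
  have h1 : ∀ k ≤ E.card * E.card,
      C.card ^ k * ∑ j ∈ E, 2 ^ l k j ≤ (C.card + c) ^ k * E.card := by
    intro k
    induction k with
    | zero => intro _; simp +contextual [sum_congr rfl fun j hj => congrArg (2 ^ ·) (h0 j hj)]
    | succ k ih =>
      intro hk
      obtain ⟨h2, h3⟩ := hw k hk
      have h4 : ∑ j ∈ E, 2 ^ l (k + 1) j = ∑ j ∈ E, 2 ^ l k j + ∑ j ∈ I k, 2 ^ l k j := by
        rw [← inter_eq_right.2 h2, ← sum_ite_mem, ← sum_add_distrib]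
        refine sum_congr rfl fun j hj => ?_
        rw [hs k j hj]
        split_ifs <;> ring
      have h5 := Nat.mul_le_mul_left (C.card + c) (ih (by omega))
      have h6 := Nat.mul_le_mul_left (C.card ^ k) h3
      rw [h4, pow_succ, pow_succ]
      nlinarith
  have h2 : ∀ k ≤ E.card * E.card, (2 * c + 1) * k ≤ ∑ j ∈ C, l k j := by
    intro k
    induction k with
    | zero => simp
    | succ k ih =>
      intro hk
      rw [sum_congr rfl fun j hj => hs k j (hC hj), sum_add_distrib, sum_ite_mem, inter_comm,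
        ← card_eq_sum_ones, Nat.mul_succ]
      exact Nat.add_le_add (ih (by omega)) (hcon k hk)
  have hT : C.card * E.card ≤ E.card * E.card := Nat.mul_le_mul_right _ (card_le_card hC)
  obtain ⟨j, hj, h3⟩ : ∃ j ∈ C, (2 * c + 1) * E.card ≤ l (C.card * E.card) j := by
    refine exists_le_of_sum_le hne (le_trans (le_of_eq ?_) (h2 _ hT))
    rw [sum_const, smul_eq_mul]; ring
  have h4 : 2 ^ ((2 * c + 1) * E.card) ≤ ∑ j ∈ E, 2 ^ l (C.card * E.card) j :=
    (Nat.pow_le_pow_right two_pos h3).trans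
      (single_le_sum (f := fun j => 2 ^ l (C.card * E.card) j) (fun _ _ => Nat.zero_le _) (hC hj))
  have h5 := (Nat.mul_le_mul_left _ h4).trans (h1 _ hT)
  have h6 : (C.card + c) ^ (C.card * E.card) ≤
      C.card ^ (C.card * E.card) * 2 ^ (2 * c * E.card) := by
    rw [pow_mul, pow_mul, pow_mul, pow_mul, ← mul_pow, mul_comm]
    exact Nat.pow_le_pow_left (add_pow_le _ _ hpos) _
  have h7 := h5.trans (Nat.mul_le_mul_right _ h6)
  rw [mul_assoc, add_mul, one_mul, pow_add] at h7
  have h8 := Nat.le_of_mul_le_mul_left (Nat.le_of_mul_le_mul_left h7 (by positivity))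
    (by positivity)
  exact absurd h8 (not_le.2 Nat.lt_two_pow_self)

end rounds

section algo

open Pool.Agent.H82

/-- Entry in row `i` of column `j`. -/
def ent (A : List (List Bool)) (i j : ℕ) : Bool := (A.getD j []).getD i false

/-- Column `j` as a vector. -/
def col (m : ℕ) (A : List (List Bool)) (j : ℕ) : Fin m → F2 := fun i => if ent A i j then 1 else 0

/-- Support of a bit vector. -/
def sp (A : List (List Bool)) (z : List Bool) : Finset ℕ :=
  (range A.length).filter (z.getD · false)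

/-- Parity of row `p` over a set of columns. -/
def cs (A : List (List Bool)) (Z : Finset ℕ) (p : ℕ) : F2 := ∑ j ∈ Z, if ent A p j then 1 else 0

def xorL (A : List (List Bool)) (z z' : List Bool) : List Bool :=
  (idx A).map (fun j => xor (z.getD j false) (z'.getD j false))

def unit (A : List (List Bool)) (e : ℕ) : List Bool := (idx A).map (fun j => eqB j e)

def syn (A : List (List Bool)) (z : List Bool) (p : ℕ) : Bool :=
  ((idx A).filter (fun j => z.getD j false && ent A p j)).length.bodd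

def wt (A : List (List Bool)) (z : List Bool) : ℕ := ((idx A).filter (z.getD · false)).length

def red (A : List (List Bool)) (piv : List (ℕ × List Bool)) (z : List Bool) : List Bool :=
  piv.foldl (fun z q => bif syn A z q.1 then xorL A z q.2 else z) z

/-- Pivots and fundamental circuits. -/
abbrev St := List (ℕ × List Bool) × List (ℕ × List Bool)

def upd (A : List (List Bool)) (st : St) (e : ℕ) (z : List Bool) : St :=
  bif ((idx (A.headD [])).filter (syn A z)).isEmpty then (st.1, (e, z) :: st.2)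
  else (st.1 ++ [(((idx (A.headD [])).filter (syn A z)).headD 0, z)], st.2)

def step (A : List (List Bool)) (st : St) (e : ℕ) : St := upd A st e (red A st.1 (unit A e))

def sq (A : List (List Bool)) : List ℕ := A.flatMap (fun _ => idx A)

def ord (A : List (List Bool)) (l : List ℕ) : List ℕ :=
  (idx (sq A)).reverse.flatMap (fun θ => (idx A).filter (fun j => eqB (l.getD j 0) θ))

def elim (A : List (List Bool)) (l : List ℕ) : List (ℕ × List Bool) :=
  ((ord A l).foldl (step A) ([], [])).2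

def bump (A : List (List Bool)) (l : List ℕ) (F : List (ℕ × List Bool)) : List ℕ :=
  (idx A).map (fun j => l.getD j 0 + bif F.any (fun q => eqB q.1 j) then 1 else 0)

def next (A : List (List Bool)) (l : List ℕ) : List ℕ := bump A l (elim A l)

def hist (A : List (List Bool)) : List (List ℕ) :=
  (sq A).foldl (fun h _ => next A (h.headD []) :: h) [[]]

def cands (A : List (List Bool)) (F : List (ℕ × List Bool)) : ℕ → List (List Bool)
  | 0 => [[]]
  | s + 1 => cands A F s ++ (cands A F s).flatMap (fun z => F.map (fun q => xorL A z q.2))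

def wts (s : ℕ) (A : List (List Bool)) : List ℕ :=
  (hist A).flatMap (fun l => (cands A (elim A l) s).map (wt A))

/-- The algorithm. -/
def alg (s : ℕ) (A : List (List Bool)) : ℕ :=
  ((idx ([] :: A)).filter (fun w => ltB 0 w && (wts s A).any (fun v => eqB v w))).headD 0

variable {A : List (List Bool)} {m : ℕ}

theorem getD_map_idx {β : Type} (f : ℕ → β) (d : β) {j : ℕ} (hj : j < A.length) :
    ((idx A).map f).getD j d = f j := by
  simp [idx, List.getD, hj]

theorem sp_xorL (z z' : List Bool) : sp A (xorL A z z') = sp A z ∆ sp A z' := by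
  ext j
  simp only [sp, mem_filter, mem_range, mem_symmDiff, xorL]
  by_cases hj : j < A.length
  · rw [getD_map_idx _ _ hj]
    cases z.getD j false <;> cases z'.getD j false <;> simp [hj]
  · simp [hj]

theorem sp_unit {e : ℕ} (he : e < A.length) : sp A (unit A e) = {e} := by
  ext j
  simp only [sp, mem_filter, mem_range, unit, Finset.mem_singleton]
  by_cases hj : j < A.length
  · rw [getD_map_idx _ _ hj]; simp [hj]
  · simp only [hj, false_and, false_iff]; omega

theorem length_filter_idx (c : ℕ → Bool) :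
    ((idx A).filter c).length = ((range A.length).filter (c ·)).card := by
  rw [idx, ← List.toFinset_card_of_nodup (List.nodup_range.filter _)]
  congr 1
  ext j
  simp

theorem wt_eq (z : List Bool) : wt A z = (sp A z).card := length_filter_idx _

theorem syn_iff (z : List Bool) (p : ℕ) : syn A z p = true ↔ cs A (sp A z) p = 1 := by
  rw [syn, length_filter_idx, cs, sum_boole, sp, filter_filter, ZMod.natCast_eq_one_iff_odd,
    Nat.odd_iff, Nat.mod_two_of_bodd]
  simp only [Bool.and_eq_true]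
  cases Nat.bodd _ <;> simp

theorem cs_symmDiff (Z Z' : Finset ℕ) (p : ℕ) : cs A (Z ∆ Z') p = cs A Z p + cs A Z' p :=
  sum_symmDiff (V := F2) _ Z Z'

theorem sum_col_eq_zero (Z : Finset ℕ) :
    ∑ j ∈ Z, col m A j = 0 ↔ ∀ p < m, cs A Z p = 0 := by
  rw [funext_iff]
  simp only [Finset.sum_apply, col, Pi.zero_apply, cs]
  exact ⟨fun h p hp => h ⟨p, hp⟩, fun h i => h i i.2⟩

theorem red_cons (q : ℕ × List Bool) (piv : List (ℕ × List Bool)) (z : List Bool) :
    red A (q :: piv) z = red A piv (bif syn A z q.1 then xorL A z q.2 else z) := rfl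

theorem red_mem {B : Finset ℕ} : ∀ (piv : List (ℕ × List Bool)) (z : List Bool),
    (∀ q ∈ piv, sp A q.2 ⊆ B) → ∀ j ∉ B, (j ∈ sp A (red A piv z) ↔ j ∈ sp A z)
  | [], _, _, _, _ => Iff.rfl
  | q :: piv, z, h, j, hj => by
    rw [red_cons, red_mem piv _ (fun q hq => h q (List.mem_cons_of_mem _ hq)) j hj]
    cases syn A z q.1
    · rfl
    · have : j ∉ sp A q.2 := fun h' => hj (h q List.mem_cons_self h')
      simp [sp_xorL, mem_symmDiff, this]

theorem red_keep {p : ℕ} : ∀ (piv : List (ℕ × List Bool)) (z : List Bool),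
    (∀ q ∈ piv, cs A (sp A q.2) p = 0) → cs A (sp A (red A piv z)) p = cs A (sp A z) p
  | [], _, _ => rfl
  | q :: piv, z, h => by
    rw [red_cons, red_keep piv _ (fun q hq => h q (List.mem_cons_of_mem _ hq))]
    cases syn A z q.1
    · rfl
    · simp [sp_xorL, cs_symmDiff, h q List.mem_cons_self]

theorem red_zero : ∀ (piv : List (ℕ × List Bool)) (z : List Bool),
    piv.Pairwise (fun q q' => cs A (sp A q'.2) q.1 = 0) → (∀ q ∈ piv, cs A (sp A q.2) q.1 = 1) →
    ∀ q ∈ piv, cs A (sp A (red A piv z)) q.1 = 0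
  | [], _, _, _, _, hq => by cases hq
  | q :: piv, z, h1, h2, q', hq' => by
    rw [List.pairwise_cons] at h1
    rw [red_cons]
    rcases List.mem_cons.1 hq' with rfl | hq'
    · rw [red_keep piv _ h1.1]
      cases hs : syn A z q'.1
      · refine (f2_cases _).resolve_right fun h => ?_
        rw [(syn_iff z _).2 h] at hs; cases hs
      · simp only [cond_true, sp_xorL, cs_symmDiff, (syn_iff z _).1 hs, h2 q' hq']
        decide
    · exact red_zero piv _ h1.2 (fun q hq => h2 q (List.mem_cons_of_mem _ hq)) q' hq'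

/-- Invariant of the elimination after processing the set `D`, of which `B` is the basis. -/
structure Inv (A : List (List Bool)) (m : ℕ) (l : ℕ → ℕ) (D B : Finset ℕ) (st : St) : Prop where
  piv : ∀ q ∈ st.1, sp A q.2 ⊆ B ∧ q.1 < m ∧ cs A (sp A q.2) q.1 = 1
  tri : st.1.Pairwise (fun q q' => cs A (sp A q'.2) q.1 = 0)
  ind : ∀ Y ⊆ B, (∀ q ∈ st.1, cs A Y q.1 = 0) → Y = ∅
  fund : ∀ q ∈ st.2, q.1 ∈ sp A q.2 ∧ sp A q.2 ⊆ insert q.1 B ∧ (∀ p < m, cs A (sp A q.2) p = 0) ∧
    ∀ j ∈ sp A q.2, l q.1 ≤ l j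
  part : ∀ j, j ∈ B ↔ j ∈ D ∧ ∀ q ∈ st.2, q.1 ≠ j
  sub : ∀ q ∈ st.2, q.1 ∈ D

theorem Inv.step {l : ℕ → ℕ} {D B : Finset ℕ} {st : St} (hm : (A.headD []).length = m)
    (h : Inv A m l D B st) {e : ℕ} (he : e < A.length) (heD : e ∉ D) (hl : ∀ j ∈ D, l e ≤ l j) :
    ∃ B', Inv A m l (insert e D) B' (step A st e) := by
  have heB : e ∉ B := fun h' => heD ((h.part e).1 h').1
  set z := red A st.1 (unit A e) with hz
  have h1 : ∀ j ∉ B, (j ∈ sp A z ↔ j = e) := fun j hj => by
    rw [hz, red_mem _ _ (fun q hq => (h.piv q hq).1) j hj, sp_unit he, Finset.mem_singleton]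
  have h2 : sp A z ⊆ insert e B := fun j hj => by
    by_cases hjB : j ∈ B
    · exact mem_insert_of_mem hjB
    · exact mem_insert.2 (Or.inl ((h1 j hjB).1 hj))
  have h3 := red_zero (A := A) st.1 (unit A e) h.tri fun q hq => (h.piv q hq).2.2
  rw [← hz] at h3
  rw [MP71.step, ← hz, upd]
  cases hr : (idx (A.headD [])).filter (syn A z) with
  | nil =>
    refine ⟨B, h.piv, h.tri, h.ind, ?_, fun j => ?_, ?_⟩
    · refine List.forall_mem_cons.2 ⟨⟨(h1 e heB).2 rfl, h2, fun p hp => ?_, fun j hj => ?_⟩, h.fund⟩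
      · refine (f2_cases _).resolve_right fun h' => ?_
        exact List.filter_eq_nil_iff.1 hr p (by rw [mem_idx, hm]; exact hp) ((syn_iff z p).2 h')
      · rcases mem_insert.1 (h2 hj) with rfl | hj
        · exact le_rfl
        · exact hl j ((h.part j).1 hj).1
    · have := h.part j
      simp only [List.isEmpty_nil, cond_true, List.forall_mem_cons, mem_insert]
      constructor
      · intro hj
        exact ⟨Or.inr (this.1 hj).1, fun h' => heB (h' ▸ hj), (this.1 hj).2⟩
      · rintro ⟨h4 | h4, h5, h6⟩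
        · exact absurd h4.symm h5
        · exact this.2 ⟨h4, h6⟩
    · exact List.forall_mem_cons.2 ⟨mem_insert_self _ _, fun q hq => mem_insert_of_mem (h.sub q hq)⟩
  | cons p r =>
    have hp : p ∈ (idx (A.headD [])).filter (syn A z) := hr ▸ List.mem_cons_self
    rw [List.mem_filter, mem_idx, hm, syn_iff] at hp
    simp only [List.isEmpty_cons, cond_false, List.headD_cons]
    refine ⟨insert e B, fun q hq => ?_, ?_, fun Y hY h4 => ?_, fun q hq => ?_, fun j => ?_,
      fun q hq => mem_insert_of_mem (h.sub q hq)⟩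
    · rcases List.mem_append.1 hq with hq | hq
      · exact ⟨(h.piv q hq).1.trans (subset_insert _ _), (h.piv q hq).2⟩
      · rw [List.mem_singleton.1 hq]; exact ⟨h2, hp⟩
    · refine List.pairwise_append.2 ⟨h.tri, List.pairwise_singleton _ _, fun q hq q' hq' => ?_⟩
      rw [List.mem_singleton.1 hq']; exact h3 q hq
    · have h5 : ∀ q ∈ st.1, cs A Y q.1 = 0 := fun q hq => h4 q (List.mem_append_left _ hq)
      by_cases heY : e ∈ Y
      · have h6 := h.ind (Y ∆ sp A z) (fun j hj => by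
          by_contra hjB
          have h7 := h1 j hjB
          have h8 := @hY j
          simp only [mem_symmDiff, mem_insert] at hj h8
          rcases hj with ⟨h9, h10⟩ | ⟨h9, h10⟩
          · exact h10 (h7.2 ((h8 h9).resolve_right hjB))
          · exact h10 (h7.1 h9 ▸ heY)) (fun q hq => by rw [cs_symmDiff, h5 q hq, h3 q hq, add_zero])
        have h7 := h4 (p, z) (List.mem_append_right _ (List.mem_singleton_self _))
        rw [symmDiff_eq_bot.1 h6, hp.2] at h7
        exact absurd h7 one_ne_zero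
      · exact h.ind Y ((subset_insert_iff_of_notMem heY).1 hY) h5
    · obtain ⟨h4, h5, h6⟩ := h.fund q hq
      exact ⟨h4, h5.trans (insert_subset_insert _ (subset_insert _ _)), h6⟩
    · have := h.part j
      simp only [mem_insert]
      constructor
      · rintro (rfl | hj)
        · exact ⟨Or.inl rfl, fun q hq h' => heD (h' ▸ h.sub q hq)⟩
        · exact ⟨Or.inr (this.1 hj).1, (this.1 hj).2⟩
      · rintro ⟨h4 | h4, h5⟩
        · exact Or.inl h4
        · exact Or.inr (this.2 ⟨h4, h5⟩)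

theorem Inv.fold {l : ℕ → ℕ} (hm : (A.headD []).length = m) : ∀ (L : List ℕ) {D B : Finset ℕ}
    {st : St}, Inv A m l D B st → (∀ e ∈ L, e < A.length ∧ e ∉ D ∧ ∀ j ∈ D, l e ≤ l j) →
    L.Pairwise (fun i j => i ≠ j ∧ l j ≤ l i) →
    ∃ B', Inv A m l (D ∪ L.toFinset) B' (L.foldl (MP71.step A) st)
  | [], _, B, _, h, _, _ => ⟨B, by simpa using h⟩
  | e :: L, D, B, st, h, h1, h2 => by
    rw [List.pairwise_cons] at h2
    obtain ⟨h3, h4, h5⟩ := h1 e List.mem_cons_self
    obtain ⟨B', h'⟩ := h.step hm h3 h4 h5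
    have := Inv.fold hm L h' (fun e' he' => by
      obtain ⟨h6, h7, h8⟩ := h1 e' (List.mem_cons_of_mem _ he')
      refine ⟨h6, ?_, fun j hj => ?_⟩
      · rw [mem_insert, not_or]; exact ⟨(h2.1 e' he').1.symm, h7⟩
      · rcases mem_insert.1 hj with rfl | hj
        · exact (h2.1 e' he').2
        · exact h8 j hj) h2.2
    simpa using this

theorem length_sq : (sq A).length = A.length * A.length := by simp [sq]

theorem inv_elim (hm : (A.headD []).length = m) (l : List ℕ) :
    ∃ B, Inv A m (l.getD · 0) (ord A l).toFinset B ((ord A l).foldl (step A) ([], [])) := by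
  have := Inv.fold (l := (l.getD · 0)) hm (ord A l) (D := ∅) (B := ∅) (st := ([], []))
    ⟨by simp, by simp, by simp +contextual, by simp, by simp, by simp⟩
    (fun e he => by simp [ord] at he; simp [he.2]) (by
      refine List.pairwise_flatMap.2 ⟨fun θ _ => ?_, ?_⟩
      · refine List.Pairwise.imp_of_mem (fun hi hj hij => ⟨hij, ?_⟩) (List.nodup_range.filter _)
        rw [eqB_iff.1 (List.mem_filter.1 hi).2, eqB_iff.1 (List.mem_filter.1 hj).2]
      · rw [List.pairwise_reverse]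
        refine List.pairwise_lt_range.imp fun h i hi j hj => ?_
        have h1 := eqB_iff.1 (List.mem_filter.1 hi).2
        have h2 := eqB_iff.1 (List.mem_filter.1 hj).2
        exact ⟨fun h' => by rw [h'] at h1; omega, by omega⟩)
  simpa using this

theorem cands_sound {F : List (ℕ × List Bool)}
    (hF : ∀ q ∈ F, ∀ p < m, cs A (sp A q.2) p = 0) :
    ∀ s, ∀ z ∈ cands A F s, ∀ p < m, cs A (sp A z) p = 0
  | 0, z, hz, p, _ => by
    rw [List.mem_singleton.1 hz]; simp [cs, sp]
  | s + 1, z, hz, p, hp => by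
    rcases List.mem_append.1 hz with hz | hz
    · exact cands_sound hF s z hz p hp
    · obtain ⟨z', hz', hz⟩ := List.mem_flatMap.1 hz
      obtain ⟨q, hq, rfl⟩ := List.mem_map.1 hz
      rw [sp_xorL, cs_symmDiff, cands_sound hF s z' hz' p hp, hF q hq p hp, add_zero]

theorem cands_complete {F : List (ℕ × List Bool)} {B : Finset ℕ}
    (hF : ∀ q ∈ F, q.1 ∈ sp A q.2 ∧ sp A q.2 ⊆ insert q.1 B) :
    ∀ s, ∀ J : Finset ℕ, J.card ≤ s → (∀ j ∈ J, j ∉ B ∧ ∃ q ∈ F, q.1 = j) →
      ∃ z ∈ cands A F s, ∀ j ∉ B, (j ∈ sp A z ↔ j ∈ J)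
  | 0, J, hJ, _ => ⟨[], List.mem_singleton_self _, by simp [sp, card_eq_zero.1 (Nat.le_zero.1 hJ)]⟩
  | s + 1, J, hJ, h => by
    rcases J.eq_empty_or_nonempty with rfl | ⟨f, hf⟩
    · obtain ⟨z, hz, h'⟩ := cands_complete hF s ∅ (Nat.zero_le _) h
      exact ⟨z, List.mem_append_left _ hz, h'⟩
    · obtain ⟨z, hz, h'⟩ := cands_complete hF s (J.erase f)
        (by rw [card_erase_of_mem hf]; omega) fun j hj => h j (mem_of_mem_erase hj)
      obtain ⟨hfB, q, hq, rfl⟩ := h f hf
      refine ⟨xorL A z q.2, List.mem_append_right _ (List.mem_flatMap.2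
        ⟨z, hz, List.mem_map.2 ⟨q, hq, rfl⟩⟩), fun j hj => ?_⟩
      have h1 : j ∈ sp A q.2 ↔ j = q.1 :=
        ⟨fun h2 => (mem_insert.1 ((hF q hq).2 h2)).resolve_right hj, fun h2 => h2 ▸ (hF q hq).1⟩
      rw [sp_xorL, mem_symmDiff, h' j hj, h1, mem_erase]
      by_cases h2 : j = q.1 <;> simp [h2, hf]

/-- The loads after `k` rounds. -/
def loads (A : List (List Bool)) (k : ℕ) : List ℕ := (next A)^[k] []

/-- The loads of the first rounds. -/
def hl (A : List (List Bool)) : ℕ → List (List ℕ)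
  | 0 => [[]]
  | k + 1 => loads A (k + 1) :: hl A k

theorem foldl_hl : ∀ (L : List ℕ) (k : ℕ),
    L.foldl (fun h _ => next A (h.headD []) :: h) (hl A k) = hl A (k + L.length)
  | [], _ => rfl
  | _ :: L, k => by
    have : next A ((hl A k).headD []) :: hl A k = hl A (k + 1) := by
      cases k <;> simp [hl, loads, Function.iterate_succ_apply']
    rw [List.foldl_cons, this, foldl_hl L, List.length_cons]
    congr 1; omega

theorem mem_hl {l : List ℕ} : ∀ {k : ℕ}, l ∈ hl A k ↔ ∃ i ≤ k, l = loads A i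
  | 0 => by simp [hl, loads]
  | k + 1 => by
    rw [hl, List.mem_cons, mem_hl]
    constructor
    · rintro (h | ⟨i, hi, h⟩)
      · exact ⟨_, le_rfl, h⟩
      · exact ⟨i, by omega, h⟩
    · rintro ⟨i, hi, h⟩
      rcases hi.eq_or_lt with rfl | hi
      · exact Or.inl h
      · exact Or.inr ⟨i, by omega, h⟩

theorem loads_succ (k : ℕ) {j : ℕ} (hj : j < A.length) : (loads A (k + 1)).getD j 0 =
    (loads A k).getD j 0 + if j ∈ ((elim A (loads A k)).map Prod.fst).toFinset then 1 else 0 := by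
  rw [loads, Function.iterate_succ_apply', ← loads, next, bump, getD_map_idx _ _ hj,
    Bool.cond_eq_ite]
  congr 2
  simp

theorem loads_le : ∀ (k : ℕ) {j : ℕ}, j < A.length → (loads A k).getD j 0 ≤ k
  | 0, _, _ => by simp [loads]
  | k + 1, j, hj => by
    have := loads_le k hj
    rw [loads_succ k hj]
    split_ifs <;> omega

theorem headD_filter_range {c : ℕ → Bool} {k w : ℕ} (hw : w < k) (hc : c w = true) :
    c (((List.range k).filter c).headD 0) = true ∧ ((List.range k).filter c).headD 0 ≤ w := by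
  have hp := (List.pairwise_lt_range (n := k)).filter c
  have hm : w ∈ (List.range k).filter c := List.mem_filter.2 ⟨List.mem_range.2 hw, hc⟩
  cases h : (List.range k).filter c with
  | nil => rw [h] at hm; cases hm
  | cons x r =>
    have hx : x ∈ (List.range k).filter c := h ▸ List.mem_cons_self
    rw [h] at hp hm
    refine ⟨(List.mem_filter.1 hx).2, ?_⟩
    rcases List.mem_cons.1 hm with rfl | hm
    · exact le_rfl
    · exact ((List.pairwise_cons.1 hp).1 w hm).le

theorem alg_sound (hm : (A.headD []).length = m) {s : ℕ} (h : alg s A ≠ 0) :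
    ∃ Z ⊆ range A.length, ∑ j ∈ Z, col m A j = 0 ∧ Z.card = alg s A := by
  have h1 : alg s A ∈ wts s A := by
    unfold alg at h ⊢
    cases hr : (idx ([] :: A)).filter (fun w => ltB 0 w && (wts s A).any (fun v => eqB v w)) with
    | nil => rw [hr] at h; exact absurd rfl h
    | cons x r =>
      have hx := (List.mem_filter.1 (hr ▸ List.mem_cons_self (a := x) (l := r))).2
      simp only [Bool.and_eq_true, List.any_eq_true, eqB_iff] at hx
      obtain ⟨-, v, hv, rfl⟩ := hx
      exact hv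
  obtain ⟨l, -, h2⟩ := List.mem_flatMap.1 h1
  obtain ⟨z, hz, h3⟩ := List.mem_map.1 h2
  obtain ⟨B, hB⟩ := inv_elim hm l
  exact ⟨sp A z, filter_subset _ _, (sum_col_eq_zero _).2
    (cands_sound (fun q hq => (hB.fund q hq).2.2.1) s z hz), by rw [← wt_eq, h3]⟩

theorem rnd_elim (hm : (A.headD []).length = m) {l : List ℕ}
    (hl : ∀ j < A.length, l.getD j 0 < A.length * A.length) :
    (∃ P, Rnd (col m A) (range A.length) (l.getD · 0) ((elim A l).map Prod.fst).toFinset P) ∧
    ∀ q ∈ elim A l, q.1 ∈ sp A q.2 ∧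
      sp A q.2 ⊆ insert q.1 (range A.length \ ((elim A l).map Prod.fst).toFinset) := by
  obtain ⟨B, hB⟩ := inv_elim hm l
  have hD : (ord A l).toFinset = range A.length := by
    ext j
    simp only [ord, List.mem_toFinset, List.mem_flatMap, List.mem_reverse, mem_idx, length_sq,
      List.mem_filter, eqB_iff, mem_range]
    exact ⟨fun ⟨_, _, h, _⟩ => h, fun h => ⟨_, hl j h, h, rfl⟩⟩
  have hBe : range A.length \ ((elim A l).map Prod.fst).toFinset = B := by
    ext j
    rw [hB.part, hD, mem_sdiff, List.mem_toFinset, List.mem_map]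
    simp only [not_exists, not_and]
    rfl
  rw [hBe]
  refine ⟨?_, fun q hq => ⟨(hB.fund q hq).1, (hB.fund q hq).2.1⟩⟩
  have : ∀ f, ∃ Q : Finset ℕ, f ∈ ((elim A l).map Prod.fst).toFinset →
      Q ⊆ B ∧ col m A f = ∑ j ∈ Q, col m A j ∧ ∀ j ∈ Q, l.getD f 0 ≤ l.getD j 0 := by
    intro f
    by_cases hf : f ∈ ((elim A l).map Prod.fst).toFinset
    · obtain ⟨q, hq, rfl⟩ := List.mem_map.1 (List.mem_toFinset.1 hf)
      obtain ⟨h1, h2, h3, h4⟩ := hB.fund q hq
      refine ⟨(sp A q.2).erase q.1, fun _ => ⟨subset_insert_iff.1 h2, ?_,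
        fun j hj => h4 j (mem_of_mem_erase hj)⟩⟩
      have h5 := (sum_col_eq_zero (m := m) _).2 h3
      rw [← add_sum_erase _ _ h1] at h5
      rw [← add_zero (col m A q.1), ← h5, ← add_assoc, add_self_v, zero_add]
    · exact ⟨∅, fun h => absurd h hf⟩
  choose P hP using this
  refine ⟨P, fun f hf => ?_, hBe ▸ hP, fun Z hZ h => hB.ind Z (hBe ▸ hZ) fun q hq =>
    (sum_col_eq_zero _).1 h _ (hB.piv q hq).2.1⟩
  obtain ⟨q, hq, rfl⟩ := List.mem_map.1 (List.mem_toFinset.1 hf)
  exact hD ▸ hB.sub q hq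

theorem alg_complete (hm : (A.headD []).length = m) {t d : ℕ} (hd : gc t * d + 1 < 2 ^ d)
    (hK : ¬ HasK t (col m A '' (range A.length : Finset ℕ))) {Z : Finset ℕ}
    (hZ : Z ⊆ range A.length) (hne : Z.Nonempty) (h0 : ∑ j ∈ Z, col m A j = 0) :
    alg (2 * (8 * gc t * d + 2)) A ≠ 0 ∧ alg (2 * (8 * gc t * d + 2)) A ≤ Z.card := by
  obtain ⟨C, hC, hmin⟩ := exists_min_image ((range A.length).powerset.filter
    (fun Z => Z.Nonempty ∧ ∑ j ∈ Z, col m A j = 0)) card
    ⟨Z, mem_filter.2 ⟨mem_powerset.2 hZ, hne, h0⟩⟩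
  simp only [mem_filter, mem_powerset, and_imp] at hC hmin
  have hr : ∀ k < A.length * A.length, _ := fun k hk =>
    rnd_elim hm (l := loads A k) fun j hj => (loads_le k hj).trans_lt hk
  obtain ⟨k, hk, h1⟩ := exists_round (c := 8 * gc t * d + 2) hC.1 hC.2.1
    (fun k j => (loads A k).getD j 0) (fun k => ((elim A (loads A k)).map Prod.fst).toFinset)
    (fun j _ => by simp [loads]) (fun k j hj => loads_succ k (mem_range.1 hj)) (fun k hk => by
      rw [card_range] at hk
      obtain ⟨⟨P, hP⟩, -⟩ := hr k hk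
      exact ⟨hP.sub, hP.weight hd hK hmin⟩)
  rw [card_range] at hk
  obtain ⟨⟨P, hP⟩, h2⟩ := hr k hk
  obtain ⟨z, hz, h3⟩ := cands_complete h2 _ _ h1 (fun j hj => by
    have := (mem_inter.1 hj).1
    exact ⟨fun h => (mem_sdiff.1 h).2 this, List.mem_map.1 (List.mem_toFinset.1 this)⟩)
  obtain ⟨B, hB⟩ := inv_elim hm (loads A k)
  have h4 := (sum_col_eq_zero (m := m) _).2
    (cands_sound (fun q hq => (hB.fund q hq).2.2.1) _ z hz)
  have h5 : sp A z = C := symmDiff_eq_bot.1 (hP.ind _ (fun j hj => by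
    by_contra hjB
    have h6 := h3 j hjB
    have h7 : j ∈ range A.length :=
      (symmDiff_le_sup.trans (sup_le (filter_subset _ _) hC.1) : sp A z ∆ C ⊆ _) hj
    simp only [mem_symmDiff, mem_sdiff, mem_inter] at hj h6 hjB
    tauto) (by rw [sum_symmDiff, h4, hC.2.2, add_zero]))
  have h6 : C.card ∈ wts (2 * (8 * gc t * d + 2)) A := by
    refine List.mem_flatMap.2 ⟨loads A k, ?_, List.mem_map.2 ⟨z, hz, by rw [wt_eq, h5]⟩⟩
    rw [hist, ← hl, foldl_hl, length_sq]
    exact mem_hl.2 ⟨k, by omega, rfl⟩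
  have h7 := headD_filter_range (k := ([] :: A).length) (w := C.card)
    (c := fun w => ltB 0 w && (wts (2 * (8 * gc t * d + 2)) A).any (fun v => eqB v w))
    (by simpa [Nat.lt_succ_iff] using card_le_card hC.1)
    (by simpa [hC.2.1] using h6)
  refine ⟨?_, h7.2.trans (hmin Z hZ hne h0)⟩
  have := h7.1
  rw [Bool.and_eq_true, ltB_iff] at this
  exact this.1.ne'

end algo

end Pool.Agent.MP71

end MrgPart2

-- ======== part 3: formerly Pool.Agent.MP_71daef_lc.Link
section MrgPart3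

/-!
Running time of the algorithm, and graphic minors from clique configurations.
-/

set_option autoImplicit false

namespace Pool.Agent.MP71

section poly

open Pool.Agent.H82 Pool.Agent.PolyT N487b59b3

variable {α β : Type} [N487b59b3 α] [N487b59b3 β]

@[fun_prop] theorem p_bodd {f : α → ℕ} (hf : PolyT.Poly f) : PolyT.Poly (fun a => (f a).bodd) :=
  hf.bodd

@[fun_prop] theorem p_xor {c d : α → Bool} (hc : PolyT.Poly c) (hd : PolyT.Poly d) :
    PolyT.Poly (fun a => xor (c a) (d a)) := hc.xor hd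

@[fun_prop] theorem p_headD {l : α → List β} {d : α → β} (hl : PolyT.Poly l) (hd : PolyT.Poly d) :
    PolyT.Poly (fun a => (l a).headD (d a)) := hl.headD hd

@[fun_prop] theorem p_isEmpty {l : α → List β} (hl : PolyT.Poly l) :
    PolyT.Poly (fun a => (l a).isEmpty) := hl.isEmpty

@[fun_prop] theorem p_reverse {l : α → List β} (hl : PolyT.Poly l) :
    PolyT.Poly (fun a => (l a).reverse) := hl.reverse

variable {A : α → List (List Bool)}

@[fun_prop] theorem p_ent {i j : α → ℕ} (hA : PolyT.Poly A) (hi : PolyT.Poly i)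
    (hj : PolyT.Poly j) : PolyT.Poly (fun a => ent (A a) (i a) (j a)) := by
  unfold ent; fun_prop

@[fun_prop] theorem p_xorL {z z' : α → List Bool} (hA : PolyT.Poly A) (hz : PolyT.Poly z)
    (hz' : PolyT.Poly z') : PolyT.Poly (fun a => xorL (A a) (z a) (z' a)) := by
  unfold xorL; fun_prop

@[fun_prop] theorem p_unit {e : α → ℕ} (hA : PolyT.Poly A) (he : PolyT.Poly e) :
    PolyT.Poly (fun a => unit (A a) (e a)) := by
  unfold unit; fun_prop

@[fun_prop] theorem p_syn {z : α → List Bool} {p : α → ℕ} (hA : PolyT.Poly A) (hz : PolyT.Poly z)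
    (hp : PolyT.Poly p) : PolyT.Poly (fun a => syn (A a) (z a) (p a)) := by
  unfold syn; fun_prop

@[fun_prop] theorem p_wt {z : α → List Bool} (hA : PolyT.Poly A) (hz : PolyT.Poly z) :
    PolyT.Poly (fun a => wt (A a) (z a)) := by
  unfold wt; fun_prop

theorem length_red (A : List (List Bool)) : ∀ (piv : List (ℕ × List Bool)) (z : List Bool),
    (red A piv z).length ≤ max z.length A.length
  | [], _ => le_max_left _ _
  | q :: piv, z => by
    rw [red_cons]
    refine (length_red A piv _).trans ?_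
    cases syn A z q.1 <;> simp [xorL]

@[fun_prop] theorem p_red {piv : α → List (ℕ × List Bool)} {z : α → List Bool}
    (hA : PolyT.Poly A) (hp : PolyT.Poly piv) (hz : PolyT.Poly z) :
    PolyT.Poly (fun a => red (A a) (piv a) (z a)) := by
  refine PolyT.Poly.foldl
    (f := fun a z (q : ℕ × List Bool) => bif syn (A a) z q.1 then xorL (A a) z q.2 else z)
    (by fun_prop) hp hz (hz.bd.add ((Bd.const 3).mul hA.bd)) fun a n => ?_
  have h1 := length_red (A a) ((piv a).take n) (z a)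
  have h2 := length_le_enc (A a)
  rw [red] at h1
  rw [PolyT.Poly.enc_bools_length, PolyT.Poly.enc_bools_length]
  omega

@[fun_prop] theorem p_upd {st : α → St} {e : α → ℕ} {z : α → List Bool} (hA : PolyT.Poly A)
    (hs : PolyT.Poly st) (he : PolyT.Poly e) (hz : PolyT.Poly z) :
    PolyT.Poly (fun a => upd (A a) (st a) (e a) (z a)) := by
  unfold upd; fun_prop

@[fun_prop] theorem p_step {st : α → St} {e : α → ℕ} (hA : PolyT.Poly A)
    (hs : PolyT.Poly st) (he : PolyT.Poly e) : PolyT.Poly (fun a => step (A a) (st a) (e a)) := by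
  unfold step; fun_prop

theorem enc_step (A : List (List Bool)) (st : St) (e : ℕ) :
    (bitEncode (step A st e)).length ≤ (bitEncode st).length +
      (8 * (bitEncode e).length + 20 * (bitEncode A).length + 6) := by
  have h1 := length_red A st.1 (unit A e)
  have h2 := length_le_enc A
  have h3 : (A.headD []).length ≤ (bitEncode A).length := by
    cases A with
    | nil => simp
    | cons x r => exact (length_le_enc x).trans (enc_mem_le List.mem_cons_self)
  simp only [unit, List.length_map, length_idx, max_self] at h1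
  rw [step, upd, length_enc_pair st]
  cases hr : (idx (A.headD [])).filter (syn A (red A st.1 (unit A e))) with
  | nil =>
    simp only [List.isEmpty_nil, cond_true, length_enc_pair, length_enc_cons,
      PolyT.Poly.enc_bools_length, unit]
    omega
  | cons p r =>
    have hp := mem_idx.1 (List.mem_filter.1 (hr ▸ List.mem_cons_self (a := p) (l := r))).1
    have := length_enc_nat_le_self p
    simp only [List.isEmpty_cons, cond_false, List.headD_cons, length_enc_pair, length_enc_cons,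
      enc_append, List.length_append, PolyT.Poly.enc_bools_length, unit, enc_nil, List.length_nil]
    omega

theorem enc_fold (A : List (List Bool)) (k : ℕ) : ∀ (L : List ℕ) (st : St),
    (∀ e ∈ L, (bitEncode e).length ≤ k) → (bitEncode (L.foldl (step A) st)).length ≤
      (bitEncode st).length + L.length * (8 * k + 20 * (bitEncode A).length + 6)
  | [], _, _ => by simp
  | e :: L, st, h => by
    have h1 := enc_fold A k L (step A st e) fun x hx => h x (List.mem_cons_of_mem _ hx)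
    have h2 := enc_step A st e
    have h3 := h e List.mem_cons_self
    rw [List.foldl_cons, List.length_cons, Nat.succ_mul]
    omega

@[fun_prop] theorem p_sq (hA : PolyT.Poly A) : PolyT.Poly (fun a => sq (A a)) := by
  unfold sq; fun_prop

@[fun_prop] theorem p_ord {l : α → List ℕ} (hA : PolyT.Poly A) (hl : PolyT.Poly l) :
    PolyT.Poly (fun a => ord (A a) (l a)) := by
  unfold ord; fun_prop

@[fun_prop] theorem p_elim {l : α → List ℕ} (hA : PolyT.Poly A) (hl : PolyT.Poly l) :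
    PolyT.Poly (fun a => elim (A a) (l a)) := by
  have ho := p_ord hA hl
  refine (PolyT.Poly.foldl (f := fun a st e => step (A a) st e) (by fun_prop) ho
    (PolyT.Poly.const ([], [])) ((Bd.const 1).add (ho.bd.mul ((((Bd.const 8).mul ho.bd).add
      ((Bd.const 20).mul hA.bd)).add (Bd.const 6)))) fun a n => ?_).snd
  refine (enc_fold (A a) _ _ _ fun e he => enc_mem_le (List.mem_of_mem_take he)).trans ?_
  refine Nat.add_le_add (le_of_eq rfl) (Nat.mul_le_mul_right _ ?_)
  exact (List.length_take_le' _ _).trans (length_le_enc _)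

@[fun_prop] theorem p_next {l : α → List ℕ} (hA : PolyT.Poly A) (hl : PolyT.Poly l) :
    PolyT.Poly (fun a => next (A a) (l a)) := by
  unfold next bump; fun_prop

theorem enc_loads (A : List (List Bool)) (k : ℕ) :
    (bitEncode (loads A k)).length ≤ A.length * (2 * k + 1) := by
  have h1 : (loads A k).length ≤ A.length := by
    cases k <;> simp [loads, Function.iterate_succ_apply', next, bump]
  rw [enc_list, List.length_flatMap]
  refine (PolyT.Poly.sum_map_le _ _ (2 * k + 1) fun x hx => ?_).trans (Nat.mul_le_mul_right _ h1)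
  obtain ⟨j, hj, rfl⟩ := List.getElem_of_mem hx
  have h2 := loads_le (A := A) k (hj.trans_le h1)
  rw [List.getD_eq_getElem _ _ hj] at h2
  have := length_enc_nat_le_self (loads A k)[j]
  rw [length_delimit]
  omega

theorem enc_hl (A : List (List Bool)) (K : ℕ) : ∀ k ≤ K,
    (bitEncode (hl A k)).length ≤ (k + 1) * (2 * (A.length * (2 * K + 1)) + 1)
  | 0, _ => by simp [hl, length_enc_cons]
  | k + 1, hk => by
    have h1 := enc_hl A K k (by omega)
    have h2 := (enc_loads A (k + 1)).trans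
      (Nat.mul_le_mul_left A.length (show 2 * (k + 1) + 1 ≤ 2 * K + 1 by omega))
    rw [hl, length_enc_cons, Nat.succ_mul (k + 1)]
    omega

@[fun_prop] theorem p_hist (hA : PolyT.Poly A) : PolyT.Poly (fun a => hist (A a)) := by
  have hs := p_sq hA
  refine PolyT.Poly.foldl (f := fun a h _ => next (A a) (h.headD []) :: h) (by fun_prop) hs
    (PolyT.Poly.const [[]]) ((hs.bd.add (Bd.const 1)).mul (((Bd.const 2).mul (hA.bd.mul
      (((Bd.const 2).mul hs.bd).add (Bd.const 1)))).add (Bd.const 1))) fun a n => ?_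
  have h1 := (List.length_take_le' n (sq (A a))).trans (length_le_enc _)
  rw [← hl, foldl_hl, zero_add]
  refine (enc_hl (A a) _ _ h1).trans ?_
  have := length_le_enc (A a)
  gcongr

theorem p_cands (s : ℕ) :
    PolyT.Poly (fun x : List (List Bool) × List (ℕ × List Bool) => cands x.1 x.2 s) := by
  induction s with
  | zero => exact PolyT.Poly.const _
  | succ s ih => unfold cands; fun_prop

theorem poly_alg (s : ℕ) : N68a2faeb.IsPolyTime (alg s) := by
  have h1 : PolyT.Poly (fun x : List (List Bool) × List ℕ => cands x.1 (elim x.1 x.2) s) :=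
    (p_cands s).comp (f := fun x : List (List Bool) × List ℕ => (x.1, elim x.1 x.2)) (by fun_prop)
  have h2 : PolyT.Poly (wts s) := by
    refine PolyT.Poly.flatMap (g := fun A l => (cands A (elim A l) s).map (wt A)) ?_ (by fun_prop)
    fun_prop
  refine (poly_iff _).1 ?_
  unfold alg
  fun_prop

end poly

section link

open Submodule

variable {V : Type} [AddCommGroup V] [Module F2 V]

/-- A clique configuration contains every multigraph after contracting independent columns. -/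
theorem HasK.graph {ι ν ε : Type} [Fintype ν] [Fintype ε] [DecidableEq ν] (s t : ε → ν)
    {a : ι → V} (h : HasK (Fintype.card (ν ⊕ ε × Bool)) (Set.range a)) :
    ∃ (C : Set ι) (ψ : ε → ι), LinearIndepOn F2 a C ∧ Function.Injective ψ ∧ (∀ e, ψ e ∉ C) ∧
      ∀ J : Set ε, LinearIndepOn F2 (fun e => (Pi.single (s e) 1 + Pi.single (t e) 1 : ν → F2)) J ↔
        LinearIndepOn F2 a (C ∪ ψ '' J) := by
  classical
  obtain ⟨Y, x₀, hY, -, h1, h2⟩ := h
  set q := Fintype.equivFin (ν ⊕ ε × Bool)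
  set x : ν ⊕ ε × Bool → V := fun i => x₀ (q i) with hx
  have h3 : ∀ i j, i ≠ j → ∃ k, a k + x i + x j ∈ span F2 Y := by
    intro i j hij
    obtain ⟨_, ⟨k, rfl⟩, hk⟩ := h2 (q i) (q j) (q.injective.ne hij)
    exact ⟨k, hk⟩
  choose α hα using fun e => h3 (.inl (s e)) (.inr (e, false)) (by simp)
  choose β hβ using fun e => h3 (.inl (t e)) (.inr (e, true)) (by simp)
  choose ψ hψ using fun e => h3 (.inr (e, false)) (.inr (e, true)) (by simp)
  obtain ⟨g, hg⟩ := LinearMap.exists_leftInverse_of_injective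
    ((span F2 Y).mkQ ∘ₗ Fintype.linearCombination F2 x) (by
      rw [LinearMap.ker_eq_bot']
      intro c hc
      rw [LinearMap.comp_apply, mkQ_apply, Quotient.mk_eq_zero,
        Fintype.linearCombination_apply] at hc
      have := h1 (c ∘ q.symm) (by
        rw [← Equiv.sum_comp q]; simpa using hc)
      funext i
      simpa using congrFun this (q i))
  set ρ := g ∘ₗ (span F2 Y).mkQ with hρ
  have ρ0 : ∀ y ∈ span F2 Y, ρ y = 0 := fun y hy => by
    rw [hρ, LinearMap.comp_apply, mkQ_apply, (Quotient.mk_eq_zero _).2 hy, map_zero]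
  have ρx : ∀ i, ρ (x i) = Pi.single i 1 := fun i => by
    simpa [hρ] using LinearMap.congr_fun hg (Pi.single i 1)
  have ρa : ∀ k i j, a k + x i + x j ∈ span F2 Y → ρ (a k) = Pi.single i 1 + Pi.single j 1 := by
    intro k i j hk
    have := ρ0 _ hk
    rw [map_add, map_add, ρx, ρx, add_assoc] at this
    rw [← add_zero (ρ (a k)), ← add_self_v (Pi.single i 1 + Pi.single j 1 : _ → F2), ← add_assoc,
      this, zero_add]
  obtain ⟨C, hC, -, hsp, hli⟩ := exists_linearIndepOn_extension (K := F2) (v := a)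
    (linearIndepOn_empty F2 a) (Set.empty_subset ({k | a k ∈ Y} ∪ Set.range α ∪ Set.range β))
  have hinj : Function.Injective ψ := fun e e' h => by
    have h4 := congrFun ((ρa _ _ _ (hψ e)).symm.trans (h ▸ ρa _ _ _ (hψ e'))) (.inr (e, false))
    by_contra hne
    simp [Pi.single_apply, hne] at h4
  have hnot : ∀ e, ψ e ∉ C := fun e he => by
    have h4 := ρa _ _ _ (hψ e)
    rcases hC he with (h | ⟨e', h⟩) | ⟨e', h⟩
    · have := congrFun ((ρ0 _ (subset_span h)).symm.trans h4) (.inr (e, false))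
      simp at this
    · have := congrFun ((h ▸ ρa _ _ _ (hα e')).symm.trans h4) (.inr (e, true))
      simp at this
    · have := congrFun ((h ▸ ρa _ _ _ (hβ e')).symm.trans h4) (.inr (e, false))
      simp at this
  refine ⟨C, ψ, hli, hinj, hnot, fun J => ?_⟩
  rw [← hli.quotient_iff_union (Set.disjoint_right.2 (by rintro _ ⟨e, -, rfl⟩; exact hnot e))]
  set W := span F2 (a '' C) with hW
  have hYW : span F2 Y ≤ W := span_le.2 fun y hy => by
    obtain ⟨k, rfl⟩ := hY hy
    exact hsp ⟨k, Or.inl (Or.inl hy), rfl⟩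
  set π : (ν ⊕ ε × Bool → F2) →ₗ[F2] (ν → F2) := Fintype.linearCombination F2
    (Sum.elim (fun u => Pi.single u 1) (fun p => Pi.single (bif p.2 then t p.1 else s p.1) 1))
    with hπ
  have hker : W ≤ LinearMap.ker (π ∘ₗ ρ) := span_le.2 (by
    rintro _ ⟨k, hk, rfl⟩
    rw [SetLike.mem_coe, LinearMap.mem_ker, LinearMap.comp_apply]
    rcases hC hk with (h | ⟨e, rfl⟩) | ⟨e, rfl⟩
    · rw [ρ0 _ (subset_span h), map_zero]
    · rw [ρa _ _ _ (hα e)]; simp [hπ, add_self_v]
    · rw [ρa _ _ _ (hβ e)]; simp [hπ, add_self_v])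
  have e1 : (fun e => (Pi.single (s e) 1 + Pi.single (t e) 1 : ν → F2)) =
      W.liftQ (π ∘ₗ ρ) hker ∘ (W.mkQ ∘ a) ∘ ψ := by
    funext e
    simp [ρa _ _ _ (hψ e), hπ]
  have e2 : (W.mkQ ∘ a) ∘ ψ = (W.mkQ ∘ₗ Fintype.linearCombination F2 (fun u => x (.inl u))) ∘
      (fun e => (Pi.single (s e) 1 + Pi.single (t e) 1 : ν → F2)) := by
    funext e
    have h4 : x (.inl (s e)) + x (.inr (e, false)) ∈ W := by
      have := hYW (hα e)
      rw [add_assoc] at this
      exact (W.add_mem_iff_right (hsp ⟨_, Or.inl (Or.inr ⟨e, rfl⟩), rfl⟩)).1 this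
    have h5 : x (.inl (t e)) + x (.inr (e, true)) ∈ W := by
      have := hYW (hβ e)
      rw [add_assoc] at this
      exact (W.add_mem_iff_right (hsp ⟨_, Or.inr ⟨e, rfl⟩, rfl⟩)).1 this
    simp only [Function.comp_apply, LinearMap.comp_apply, map_add,
      Fintype.linearCombination_apply_single, one_smul]
    rw [← map_add, mkQ_apply, mkQ_apply, Submodule.Quotient.eq]
    have h6 : a (ψ e) - (x (.inl (s e)) + x (.inl (t e))) =
        (a (ψ e) + x (.inr (e, false)) + x (.inr (e, true))) -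
          (x (.inl (s e)) + x (.inr (e, false))) - (x (.inl (t e)) + x (.inr (e, true))) := by
      abel
    rw [h6]
    exact sub_mem (sub_mem (hYW (hψ e)) h4) h5
  constructor
  · intro h
    rw [e1] at h
    exact (h.of_comp _).image_of_comp ψ _
  · intro h
    have := h.comp_of_image hinj.injOn
    rw [e2] at this
    exact this.of_comp _

theorem not_indep_iff {n : ℕ} (a : ℕ → V) (S : Set (Fin n)) :
    ¬ LinearIndepOn F2 (fun j : Fin n => a j) S ↔
      ∃ Z : Finset (Fin n), (Z : Set (Fin n)) ⊆ S ∧ Z.Nonempty ∧ ∑ j ∈ Z, a j = 0 := by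
  rw [linearIndepOn_iff']
  push Not
  constructor
  · rintro ⟨T, g, hT, h0, i, hi, hg⟩
    refine ⟨T.filter (g · = 1), fun j hj => hT (Finset.mem_filter.1 hj).1,
      ⟨i, Finset.mem_filter.2 ⟨hi, (f2_cases _).resolve_left hg⟩⟩, ?_⟩
    rw [Finset.sum_filter]
    refine (Finset.sum_congr rfl fun j _ => ?_).trans h0
    rcases f2_cases (g j) with h | h <;> simp [h]
  · rintro ⟨Z, hZ, ⟨i, hi⟩, h0⟩
    exact ⟨Z, fun _ => 1, hZ, by simpa using h0, i, hi, one_ne_zero⟩

theorem exists_vc (c : ℕ) : ∃ d, c * d + 1 < 2 ^ d := by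
  refine ⟨(2 * c + 2) + (2 * c + 2), ?_⟩
  have := Nat.succ_le_of_lt (Nat.lt_two_pow_self (n := 2 * c + 2))
  have := Nat.mul_le_mul this this
  rw [pow_add]
  simp only [Nat.succ_eq_add_one] at this
  nlinarith

end link

end Pool.Agent.MP71

end MrgPart3

-- marker of a merged file
example : 731051 + 709034 = 731051 + 709034 := rfl
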