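import Pool.Agent.MP_71daef_lc.Link

-- ======== part 0: formerly Pool.Agent.MP_71daef_lc.Trace
section MrgPart0

/-!
Traces of set families: the Sauer-Shelah bound, projections, sums and a packing bound.
-/

set_option autoImplicit false

namespace Pool.Agent.MP71

open Finset symmDiff

section trace

variable {α : Type} [DecidableEq α]

open Classical in
/-- The traces on `T` of the sets with property `p`. -/
noncomputable def tr (p : Finset α → Prop) (T : Finset α) : Finset (Finset α) :=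
  T.powerset.filter (fun S => ∃ L, p L ∧ L ∩ T = S)

variable {p q r : Finset α → Prop} {T T' : Finset α}

theorem mem_tr {S : Finset α} : S ∈ tr p T ↔ ∃ L, p L ∧ L ∩ T = S := by
  classical
  rw [tr, mem_filter, mem_powerset, and_iff_right_iff_imp]
  rintro ⟨L, -, rfl⟩
  exact inter_subset_right

theorem tr_sub {S : Finset α} (h : S ∈ tr p T) : S ⊆ T := by
  obtain ⟨L, -, rfl⟩ := mem_tr.1 h
  exact inter_subset_right

theorem small_le (T : Finset α) : ∀ d : ℕ,
    (T.powerset.filter (·.card ≤ d)).card ≤ (T.card + 1) ^ d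
  | 0 => by
    rw [pow_zero, card_le_one]
    intro a ha b hb
    rw [card_eq_zero.1 (Nat.le_zero.1 (mem_filter.1 ha).2),
      card_eq_zero.1 (Nat.le_zero.1 (mem_filter.1 hb).2)]
  | d + 1 => by
    have h1 : T.powerset.filter (·.card ≤ d + 1) ⊆ T.powerset.filter (·.card ≤ d) ∪
        T.biUnion (fun a => (T.powerset.filter (·.card ≤ d)).image (insert a)) := by
      intro S hS
      obtain ⟨h1, h2⟩ := mem_filter.1 hS
      rcases S.eq_empty_or_nonempty with rfl | ⟨a, ha⟩
      · simp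
      · refine mem_union_right _ (mem_biUnion.2 ⟨a, mem_powerset.1 h1 ha, mem_image.2
          ⟨S.erase a, mem_filter.2 ⟨mem_powerset.2 ((erase_subset _ _).trans (mem_powerset.1 h1)),
            ?_⟩, insert_erase ha⟩⟩)
        rw [card_erase_of_mem ha]; omega
    have h2 := small_le T d
    have h3 := card_biUnion_le_card_mul T
      (fun a => (T.powerset.filter (·.card ≤ d)).image (insert a)) _
      fun a _ => card_image_le.trans h2
    have h4 := (card_le_card h1).trans (card_union_le _ _)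
    rw [pow_succ, mul_add, mul_one, mul_comm _ T.card]
    omega

theorem sauer {d : ℕ} (h : ∀ T' ⊆ T, T'.card = d → (tr p T').card < 2 ^ d) :
    (tr p T).card ≤ (T.card + 1) ^ d := by
  refine (card_le_card_shatterer _).trans (le_trans (card_le_card fun s hs => ?_) (small_le T d))
  rw [mem_shatterer] at hs
  obtain ⟨t, ht, hst⟩ := hs.exists_superset
  have hsT : s ⊆ T := hst.trans (tr_sub ht)
  refine mem_filter.2 ⟨mem_powerset.2 hsT, ?_⟩
  by_contra hcon
  obtain ⟨U, hU, hc⟩ := exists_subset_card_eq (not_le.1 hcon).le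
  refine (h U (hU.trans hsT) hc).not_ge ?_
  rw [← hc, ← card_powerset]
  refine card_le_card fun S hS => ?_
  obtain ⟨u, hu, h1⟩ := hs.mono_right hU (mem_powerset.1 hS)
  obtain ⟨L, hL, rfl⟩ := mem_tr.1 hu
  refine mem_tr.2 ⟨L, hL, ?_⟩
  rw [← h1, inter_comm L T, ← inter_assoc, inter_eq_left.2 (hU.trans hsT), inter_comm]

theorem tr_proj (h : T' ⊆ T) : (tr p T).card ≤ (tr p T').card * 2 ^ (T.card - T'.card) := by
  rw [← card_sdiff_of_subset h, ← card_powerset, ← card_product]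
  refine card_le_card_of_injOn (fun S => (S ∩ T', S \ T')) (fun S hS => ?_)
    (fun S _ S' _ e => ?_)
  · obtain ⟨L, hL, rfl⟩ := mem_tr.1 (mem_coe.1 hS)
    refine mem_coe.2 (mem_product.2 ⟨mem_tr.2 ⟨L, hL, ?_⟩, mem_powerset.2
      (sdiff_subset_sdiff inter_subset_right subset_rfl)⟩)
    simp only [inter_assoc, inter_eq_right.2 h]
  · obtain ⟨e1, e2⟩ := Prod.ext_iff.1 e
    rw [← sdiff_union_inter S T', ← sdiff_union_inter S' T']
    exact congrArg₂ _ e2 e1

theorem tr_dens {j : ℕ} (h : T' ⊆ T) (hd : 2 ^ T.card ≤ j * (tr p T).card) :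
    2 ^ T'.card ≤ j * (tr p T').card := by
  have h1 := hd.trans (Nat.mul_le_mul_left j (tr_proj h))
  rw [← Nat.add_sub_cancel' (card_le_card h), pow_add, Nat.add_sub_cancel_left,
    ← mul_assoc] at h1
  exact Nat.le_of_mul_le_mul_right h1 (by positivity)

theorem tr_add (h : ∀ L, p L → ∃ L₁ L₂, q L₁ ∧ r L₂ ∧ ∀ x ∈ T, x ∈ L ↔ x ∈ L₁ ∆ L₂) :
    (tr p T).card ≤ (tr q T).card * (tr r T).card := by
  rw [← card_product]
  refine le_trans (card_le_card fun S hS => ?_) (card_image_le (f := fun x => x.1 ∆ x.2))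
  obtain ⟨L, hL, rfl⟩ := mem_tr.1 hS
  obtain ⟨L₁, L₂, h1, h2, h3⟩ := h L hL
  refine mem_image.2 ⟨(L₁ ∩ T, L₂ ∩ T), mem_product.2
    ⟨mem_tr.2 ⟨_, h1, rfl⟩, mem_tr.2 ⟨_, h2, rfl⟩⟩, ?_⟩
  ext x
  have := h3 x
  simp only [mem_symmDiff, mem_inter] at this ⊢
  tauto

theorem tr_le {β : Type} (F : Finset β) (g : β → Finset α) (h : ∀ L, p L → ∃ b ∈ F, g b = L) :
    (tr p T).card ≤ F.card := by
  refine le_trans (card_le_card fun S hS => ?_) (card_image_le (f := fun b => g b ∩ T))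
  obtain ⟨L, hL, rfl⟩ := mem_tr.1 hS
  obtain ⟨b, hb, rfl⟩ := h L hL
  exact mem_image_of_mem _ hb

theorem tr_or : (tr (fun L => p L ∨ q L) T).card ≤ (tr p T).card + (tr q T).card := by
  refine le_trans (card_le_card fun S hS => ?_) (card_union_le _ _)
  obtain ⟨L, hL | hL, rfl⟩ := mem_tr.1 hS
  · exact mem_union_left _ (mem_tr.2 ⟨L, hL, rfl⟩)
  · exact mem_union_right _ (mem_tr.2 ⟨L, hL, rfl⟩)

open Classical in
/-- Few traces if every set disagrees with the target on almost all of some cell. -/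
theorem tr_bad {ν : Type} [Fintype ν] (cell : ν → Finset α) (D : ν → Prop) {d h : ℕ}
    (hc : ∀ t, cell t ⊆ T ∧ (cell t).card = d)
    (hp : ∀ L, p L → ∃ t, ((cell t).filter (fun x => (x ∈ L ↔ D t))).card ≤ h) :
    (tr p T).card ≤ Fintype.card ν * ((d + 1) ^ h * 2 ^ (T.card - d)) := by
  have h1 : tr p T ⊆ univ.biUnion (fun t => tr (fun L =>
      ((cell t).filter (fun x => (x ∈ L ↔ D t))).card ≤ h) T) := by
    intro S hS
    obtain ⟨L, hL, rfl⟩ := mem_tr.1 hS
    obtain ⟨t, ht⟩ := hp L hL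
    exact mem_biUnion.2 ⟨t, mem_univ _, mem_tr.2 ⟨L, ht, rfl⟩⟩
  refine (card_le_card h1).trans (card_biUnion_le_card_mul _ _ _ fun t _ => ?_)
  refine (tr_proj (hc t).1).trans ?_
  rw [(hc t).2]
  refine Nat.mul_le_mul_right _ (le_trans ?_ ((hc t).2 ▸ small_le (cell t) h))
  refine card_le_card_of_injOn (fun S => (cell t).filter (fun x => (x ∈ S ↔ D t)))
    (fun S hS => ?_) (fun S hS S' hS' e => ?_)
  · obtain ⟨L, hL, rfl⟩ := mem_tr.1 (mem_coe.1 hS)
    refine mem_coe.2 (mem_filter.2 ⟨mem_powerset.2 (filter_subset _ _), le_of_eq_of_le ?_ hL⟩)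
    exact congrArg _ (filter_congr fun x hx => by simp [hx])
  · obtain ⟨L, -, rfl⟩ := mem_tr.1 (mem_coe.1 hS)
    obtain ⟨L', -, rfl⟩ := mem_tr.1 (mem_coe.1 hS')
    ext x
    have := Finset.ext_iff.1 e x
    simp only [mem_filter, mem_inter] at this ⊢
    tauto

theorem exists_pow_lt (C s : ℕ) : ∃ d, C * (d + 1) ^ s < 2 ^ d := by
  have h := (tendsto_pow_const_div_const_pow_of_one_lt s (r := 2) one_lt_two).eventually
    (gt_mem_nhds (show (0 : ℝ) < 1 / (2 * (C + 1)) by positivity))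
  obtain ⟨n, hn⟩ := Filter.eventually_atTop.1 h
  refine ⟨n, ?_⟩
  have h1 := hn (n + 1) n.le_succ
  rw [div_lt_div_iff₀ (by positivity) (by positivity), pow_succ] at h1
  have h2 : (0 : ℝ) ≤ ((n + 1 : ℕ) : ℝ) ^ s := by positivity
  have : (C : ℝ) * ((n + 1 : ℕ) : ℝ) ^ s < 2 ^ n := by nlinarith
  exact_mod_cast this

theorem exists_cells (T : Finset α) {r d : ℕ} (h : r * d ≤ T.card) :
    ∃ cell : Fin r → Finset α, (∀ t, cell t ⊆ T ∧ (cell t).card = d) ∧
      ∀ s t, s ≠ t → Disjoint (cell s) (cell t) := by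
  obtain ⟨e, he⟩ := Function.Embedding.exists_of_card_le_finset (α := Fin r × Fin d) (s := T)
    (by simpa using h)
  refine ⟨fun t => univ.image (fun i => e (t, i)), fun t => ⟨fun x hx => ?_, ?_⟩,
    fun s t hst => disjoint_left.2 fun x h1 h2 => ?_⟩
  · obtain ⟨i, -, rfl⟩ := mem_image.1 hx
    exact he ⟨_, rfl⟩
  · rw [card_image_of_injective _ fun i j h => (Prod.ext_iff.1 (e.injective h)).2]; simp
  · obtain ⟨i, -, rfl⟩ := mem_image.1 h1
    obtain ⟨j, -, h⟩ := mem_image.1 h2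
    exact hst (Prod.ext_iff.1 (e.injective h)).1.symm

/-- Packing bound for set systems of bounded dimension. -/
theorem packing_vc {ι : Type} [DecidableEq ι] (K : Finset ι) (B : Finset α) (P : ι → Finset α)
    {d δ : ℕ} (hδ : 0 < δ) (hP : ∀ f ∈ K, P f ⊆ B)
    (h : ∀ f ∈ K, ∀ g ∈ K, f ≠ g → δ ≤ (P f ∆ P g).card)
    (htr : ∀ T ⊆ B, T.card = d → (K.image (P · ∩ T)).card < 2 ^ d) :
    K.card ≤ 2 ^ (4 * d * B.card / δ + 1) := by
  have h0 : ∀ A : Finset α, (K.image (P · ∩ A)).card ≤ 2 ^ A.card := fun A => by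
    rw [← card_powerset]
    refine card_le_card fun S hS => ?_
    obtain ⟨f, -, rfl⟩ := mem_image.1 hS
    exact mem_powerset.2 inter_subset_right
  set s := 4 * d * B.card / δ with hs
  have hs2 : 4 * d * B.card < (s + 1) * δ := by
    rw [mul_comm (s + 1)]; exact Nat.lt_mul_div_succ _ hδ
  rw [pow_succ']
  by_cases hsm : s ≤ B.card
  · have h1 : (B.powersetCard s).card * (δ * K.card) ≤ ∑ A ∈ B.powersetCard s,
        (2 * ∑ a ∈ B \ A, dirw K P A a + δ * 2 ^ s) := by
      rw [← smul_eq_mul, ← sum_const]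
      refine sum_le_sum fun A hA => (dirw_lower K B P δ hP h A).trans ?_
      exact Nat.add_le_add_left (Nat.mul_le_mul_left _ ((mem_powersetCard.1 hA).2 ▸ h0 A)) _
    have h2 : ∑ A ∈ B.powersetCard (s + 1), ∑ a ∈ A, dirw K P (A.erase a) a ≤
        (B.powersetCard (s + 1)).card * (d * K.card) := by
      rw [← smul_eq_mul, ← sum_const]
      exact sum_le_sum fun A hA => dirw_upper K P A fun T hT hc =>
        htr T (hT.trans (mem_powersetCard.1 hA).1) hc
    rw [sum_add_distrib, ← mul_sum, sum_erase_eq, sum_const, smul_eq_mul] at h1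
    rw [card_powersetCard] at h1 h2
    have h3 := Nat.choose_succ_right_eq B.card s
    have h4 : B.card.choose (s + 1) * (s + 1) ≤ B.card.choose s * B.card :=
      h3 ▸ Nat.mul_le_mul_left _ (Nat.sub_le _ _)
    have h5 : (s + 1) * (δ * K.card) ≤ 2 * B.card * (d * K.card) + (s + 1) * (δ * 2 ^ s) := by
      refine Nat.le_of_mul_le_mul_left ?_ (Nat.choose_pos hsm)
      have h6 := Nat.mul_le_mul_left (s + 1) (h1.trans (Nat.add_le_add_right
        (Nat.mul_le_mul_left 2 h2) _))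
      have h7 := Nat.mul_le_mul_right (2 * (d * K.card)) h4
      nlinarith
    refine Nat.le_of_mul_le_mul_left ?_ (Nat.mul_pos (Nat.succ_pos s) hδ)
    have := Nat.mul_le_mul_right K.card hs2.le
    simp only [Nat.succ_eq_add_one]
    nlinarith
  · have h2 : K.card ≤ 2 ^ B.card := by
      refine le_trans (card_image_of_injOn fun f hf g hg hfg => ?_).ge (h0 B)
      by_contra hne
      have := h f hf g hg hne
      simp only [inter_eq_left.2 (hP f hf), inter_eq_left.2 (hP g hg)] at hfg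
      simp [hfg] at this
      omega
    have := Nat.pow_le_pow_right two_pos (not_le.1 hsm).le
    omega

end trace

end Pool.Agent.MP71

end MrgPart0

-- ======== part 1: formerly Pool.Agent.MP_71daef_lc.VC
section MrgPart1

/-!
A binary code that avoids a fixed minor has polynomially many words of nearly minimum weight.
-/

set_option autoImplicit false

namespace Pool.Agent.MP71

open Finset symmDiff

/-- The cycle space of a binary matroid whose elements are natural numbers. -/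
structure Code where
  cyc : Finset ℕ → Prop
  zero : cyc ∅
  add : ∀ {X Y}, cyc X → cyc Y → cyc (X ∆ Y)

namespace Code

variable (c : Code)

theorem add' {X Y Z : Finset ℕ} (hX : c.cyc X) (hY : c.cyc Y) (h : ∀ x, x ∈ Z ↔ x ∈ X ∆ Y) :
    c.cyc Z := (Finset.ext h : Z = X ∆ Y) ▸ c.add hX hY

/-- Independent sets. -/
def Ind (B : Finset ℕ) : Prop := ∀ Z ⊆ B, c.cyc Z → Z = ∅

/-- Nonempty cycles inside `E` have at least `g` elements. -/
def Gir (E : Finset ℕ) (g : ℕ) : Prop := ∀ Z ⊆ E, c.cyc Z → Z.Nonempty → g ≤ Z.card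

/-- The matrix `D` with `k` columns represents a minor of the restriction to `E`. -/
def Emb (E : Finset ℕ) {r : ℕ} (k : ℕ) (D : ℕ → Fin r → Prop) : Prop :=
  ∃ (B : Finset ℕ) (x : Fin r → ℕ) (f : ℕ → ℕ) (L : ℕ → Finset ℕ), B ⊆ E ∧ c.Ind B ∧
    Function.Injective x ∧ (∀ t, x t ∈ B) ∧ (∀ i < k, ∀ j < k, f i = f j → i = j) ∧
    ∀ j < k, f j ∈ E ∧ f j ∉ B ∧ L j ⊆ B ∧ c.cyc (insert (f j) (L j)) ∧ ∀ t, x t ∈ L j ↔ D j t

/-- `B` is a basis of `S`. -/
def Bas (S B : Finset ℕ) : Prop :=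
  B ⊆ S ∧ c.Ind B ∧ ∀ f ∈ S \ B, ∃ P ⊆ B, c.cyc (insert f P)

open Classical in
/-- The cycles inside `S`. -/
noncomputable def cy (S : Finset ℕ) : Finset (Finset ℕ) := S.powerset.filter c.cyc

/-- `L` is the label of a cycle of the contraction of `B` that avoids `R` and has size `≤ h`. -/
def Lab (E R B : Finset ℕ) (h : ℝ) (L : Finset ℕ) : Prop :=
  L ⊆ B ∧ ∃ Y ⊆ E \ R, (Y.card : ℝ) ≤ h ∧ c.cyc (Y ∆ L)

/-- The same for circuits. -/
def Circ (E R B : Finset ℕ) (h : ℝ) (L : Finset ℕ) : Prop :=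
  L ⊆ B ∧ ∃ Q ⊆ E \ R, (Q.card : ℝ) ≤ h ∧ c.cyc (Q ∆ L) ∧ Q.Nonempty ∧
    ∀ Q' ⊆ Q, ∀ L' ⊆ B, c.cyc (Q' ∆ L') → Q' = ∅ ∨ Q' = Q

variable {c} {E S S' R B T : Finset ℕ} {r k g : ℕ} {D : ℕ → Fin r → Prop}

theorem mem_cy {Z : Finset ℕ} : Z ∈ c.cy S ↔ Z ⊆ S ∧ c.cyc Z := by
  classical
  rw [cy, mem_filter, mem_powerset]

theorem Emb.mono (h : c.Emb S k D) (hS : S ⊆ E) : c.Emb E k D := by
  obtain ⟨B, x, f, L, h1, h2, h3, h4, h5, h6⟩ := h
  exact ⟨B, x, f, L, h1.trans hS, h2, h3, h4, h5, fun j hj => ⟨hS (h6 j hj).1, (h6 j hj).2⟩⟩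

theorem exists_bas (c : Code) (S : Finset ℕ) : ∃ B, c.Bas S B := by
  classical
  obtain ⟨B, hB, hmax⟩ := exists_max_image (S.powerset.filter c.Ind) card
    ⟨∅, mem_filter.2 ⟨by simp, fun Z hZ _ => subset_empty.1 hZ⟩⟩
  simp only [mem_filter, mem_powerset, and_imp] at hB hmax
  refine ⟨B, hB.1, hB.2, fun f hf => ?_⟩
  obtain ⟨h1, h2⟩ := mem_sdiff.1 hf
  by_contra hcon
  have := hmax (insert f B) (insert_subset h1 hB.1) fun Z hZ hc => by
    by_cases hfZ : f ∈ Z
    · exact absurd ⟨Z.erase f, subset_insert_iff.1 hZ, by rwa [insert_erase hfZ]⟩ hcon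
    · exact hB.2 Z ((subset_insert_iff_of_notMem hfZ).1 hZ) hc
  rw [card_insert_of_notMem h2] at this
  omega

theorem Bas.lab (h : c.Bas S B) (W : Finset ℕ) : W ⊆ S \ B → ∃ P ⊆ B, c.cyc (W ∆ P) := by
  induction W using Finset.induction_on with
  | empty => exact fun _ => ⟨∅, empty_subset _, by simpa using c.zero⟩
  | insert f W hf ih =>
    intro hW
    obtain ⟨P, h1, h2⟩ := ih ((subset_insert _ _).trans hW)
    have h3 := hW (mem_insert_self _ _)
    obtain ⟨Q, h4, h5⟩ := h.2.2 f h3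
    refine ⟨P ∆ Q, symmDiff_le_sup.trans (sup_le h1 h4), c.add' h2 h5 fun x => ?_⟩
    have h6 : f ∉ Q := fun h' => (mem_sdiff.1 h3).2 (h4 h')
    simp only [mem_symmDiff, mem_insert]
    by_cases hx : x = f
    · simp [hx, hf, h6]
    · simp only [hx, false_or]; grind

theorem Ind.card_cy (h : c.Ind B) (S : Finset ℕ) : (c.cy S).card ≤ 2 ^ (S \ B).card := by
  rw [← card_powerset]
  refine card_le_card_of_injOn (· \ B) (fun Z hZ => mem_coe.2 (mem_powerset.2
    (sdiff_subset_sdiff (mem_cy.1 hZ).1 subset_rfl))) (fun Z hZ Z' hZ' e => ?_)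
  refine symmDiff_eq_bot.1 (h _ (fun x hx => ?_) (c.add (mem_cy.1 hZ).2 (mem_cy.1 hZ').2))
  have := Finset.ext_iff.1 e x
  simp only [mem_symmDiff, mem_sdiff] at this hx
  grind

theorem cy_double (h : S ⊆ S') {Z : Finset ℕ} (hZ : Z ∈ c.cy S') (hS : ¬ Z ⊆ S) :
    2 * (c.cy S).card ≤ (c.cy S').card := by
  have h1 : c.cy S ∪ (c.cy S).image (· ∆ Z) ⊆ c.cy S' := by
    refine union_subset (fun X hX => mem_cy.2 ⟨(mem_cy.1 hX).1.trans h, (mem_cy.1 hX).2⟩)
      fun X hX => ?_
    obtain ⟨X', hX', rfl⟩ := mem_image.1 hX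
    exact mem_cy.2 ⟨symmDiff_le_sup.trans (sup_le ((mem_cy.1 hX').1.trans h) (mem_cy.1 hZ).1),
      c.add (mem_cy.1 hX').2 (mem_cy.1 hZ).2⟩
  have h2 := card_le_card h1
  rw [card_union_of_disjoint, card_image_of_injective _ (symmDiff_left_injective Z)] at h2
  · omega
  · refine disjoint_left.2 fun X hX h3 => hS fun x hx => ?_
    obtain ⟨X', hX', rfl⟩ := mem_image.1 h3
    by_cases h4 : x ∈ X'
    · exact (mem_cy.1 hX').1 h4
    · exact (mem_cy.1 hX).1 (mem_symmDiff.2 (Or.inr ⟨hx, h4⟩))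

/-- Sets of size comparable with the girth have bounded corank. -/
theorem few_more (k : ℕ) (D : ℕ → Fin r → Prop) (β : ℕ) : ∃ F : ℕ, ∀ (c : Code) (E S B : Finset ℕ)
    (g : ℕ), ¬ c.Emb E k D → c.Gir E g → S ⊆ E → S.card ≤ β * g → c.Bas S B →
      (S \ B).card ≤ F := by
  classical
  refine ⟨2 ^ (8 * (r + k) * β + 1) + 4 * β, fun c E S B g hN hg hS hc hB => ?_⟩
  by_cases h4 : g ≤ 4
  · have := card_le_card (sdiff_subset (s := S) (t := B))
    have := Nat.mul_le_mul_left β h4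
    have := Nat.zero_le (2 ^ (8 * (r + k) * β + 1))
    omega
  choose! P hP using hB.2.2
  have hn : ∀ f ∈ S \ B, ∀ f' ∈ S \ B, f ∉ P f' := fun f hf f' hf' h =>
    (mem_sdiff.1 hf).2 ((hP f' hf').1 h)
  refine (packing_vc (S \ B) B P (d := r + k) (δ := g - 2) (by omega) (fun f hf => (hP f hf).1)
    (fun f hf f' hf' hne => ?_) (fun T hT hd => ?_)).trans (le_trans ?_ (Nat.le_add_right _ _))
  · have h1 := hn f hf f hf
    have h2 := hn f hf f' hf'
    have h3 := hn f' hf' f hf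
    have h5 := hn f' hf' f' hf'
    have h6 := hg (insert f (insert f' (P f ∆ P f')))
      (insert_subset (hS (mem_sdiff.1 hf).1) (insert_subset (hS (mem_sdiff.1 hf').1)
        ((symmDiff_le_sup.trans (sup_le (hP f hf).1 (hP f' hf').1)).trans (hB.1.trans hS))))
      (c.add' (hP f hf).2 (hP f' hf').2 fun x => by
        simp only [mem_symmDiff, mem_insert]
        by_cases hx : x = f
        · simp [hx, hne, h2]
        · by_cases hx' : x = f'
          · simp [hx', Ne.symm hne, h3]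
          · simp [hx, hx']) (insert_nonempty _ _)
    have h7 := card_insert_le f (insert f' (P f ∆ P f'))
    have h8 := card_insert_le f' (P f ∆ P f')
    omega
  · by_contra hcon
    have h1 : (S \ B).image (P · ∩ T) = T.powerset := by
      refine eq_of_subset_of_card_le (fun U hU => ?_) (by rw [card_powerset, hd]; omega)
      obtain ⟨f, -, rfl⟩ := mem_image.1 hU
      exact mem_powerset.2 inter_subset_right
    obtain ⟨e, he⟩ := Function.Embedding.exists_of_card_le_finset (α := Fin r ⊕ Fin k) (s := T)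
      (by simp [hd])
    have heT : ∀ y, e y ∈ T := fun y => he ⟨y, rfl⟩
    have h2 : ∀ j : ℕ, ∃ f ∈ S \ B, P f ∩ T = T.filter (fun x =>
        (∃ t, e (.inl t) = x ∧ D j t) ∨ ∃ i : Fin k, e (.inr i) = x ∧ (i : ℕ) = j) := fun j =>
      mem_image.1 (h1 ▸ mem_powerset.2 (filter_subset _ _))
    choose f hf h3 using h2
    refine hN ⟨B, fun t => e (.inl t), f, fun j => P (f j), hB.1.trans hS, hB.2.1,
      fun s t h => Sum.inl.inj (e.injective h), fun t => hT (heT _), fun i hi j hj h => ?_,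
      fun j hj => ⟨hS (mem_sdiff.1 (hf j)).1, (mem_sdiff.1 (hf j)).2, (hP _ (hf j)).1,
        (hP _ (hf j)).2, fun t => ?_⟩⟩
    · have := Finset.ext_iff.1 ((h3 i).symm.trans (h ▸ h3 j)) (e (.inr ⟨i, hi⟩))
      simpa [heT] using this
    · simpa [heT] using Finset.ext_iff.1 (h3 j) (e (.inl t))
  · refine Nat.pow_le_pow_right two_pos (Nat.succ_le_succ (Nat.div_le_of_le_mul ?_))
    have h1 := Nat.mul_le_mul_left (4 * (r + k)) ((card_le_card hB.1).trans hc)
    have h2 := Nat.mul_le_mul_left (4 * (r + k) * β) (show g ≤ 2 * (g - 2) by omega)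
    nlinarith

/-- Labels of short cycles have polynomially many traces. -/
def PL (k : ℕ) (D : ℕ → Fin r → Prop) (η ρ : ℝ) (v : ℕ) : Prop :=
  ∀ (c : Code) (E R B T : Finset ℕ) (g : ℕ), ¬ c.Emb E k D → c.Gir E g → B ⊆ R → R ⊆ E →
    c.Ind B → (R.card : ℝ) ≤ ρ * g → T ⊆ B →
      (tr (c.Lab E R B (η * g)) T).card ≤ (T.card + 1) ^ v

theorem pl_base (k : ℕ) (D : ℕ → Fin r → Prop) (β : ℕ) :
    ∃ η₀ > (0 : ℝ), ∃ v, ∀ η ρ : ℝ, 0 ≤ η → η ≤ η₀ → ρ ≤ β → PL k D η ρ v := by
  obtain ⟨F, hF⟩ := few_more k D (β + 1)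
  refine ⟨1 / (F + 1), by positivity, F, fun η ρ h0 hη hρ c E R B T g hN hg hB hR hI hc hT => ?_⟩
  have hg0 : (0 : ℝ) ≤ g := by positivity
  have key : ∀ i : ℕ, ∃ S, R ⊆ S ∧ S ⊆ E ∧ (S.card : ℝ) ≤ β * g + i * (η * g) ∧
      ((∀ Y ⊆ E \ R, (Y.card : ℝ) ≤ η * g → ∀ L ⊆ B, c.cyc (Y ∆ L) → Y ⊆ S) ∨
        2 ^ i ≤ (c.cy S).card) := by
    intro i
    induction i with
    | zero =>
      exact ⟨R, subset_rfl, hR, by simpa using hc.trans (by gcongr),
        Or.inr (card_pos.2 ⟨∅, mem_cy.2 ⟨empty_subset _, c.zero⟩⟩)⟩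
    | succ i ih =>
      obtain ⟨S, h1, h2, h3, h4⟩ := ih
      by_cases h5 : ∀ Y ⊆ E \ R, (Y.card : ℝ) ≤ η * g → ∀ L ⊆ B, c.cyc (Y ∆ L) → Y ⊆ S
      · exact ⟨S, h1, h2, h3.trans (by push_cast; nlinarith [mul_nonneg h0 hg0]), Or.inl h5⟩
      have h6 := h4.resolve_left h5
      push Not at h5
      obtain ⟨Y, h7, h8, L, h9, h10, h11⟩ := h5
      refine ⟨S ∪ Y, h1.trans subset_union_left, union_subset h2 (h7.trans sdiff_subset), ?_,
        Or.inr ?_⟩
      · have : ((S ∪ Y).card : ℝ) ≤ S.card + Y.card := by exact_mod_cast card_union_le _ _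
        push_cast; linarith
      · have := cy_double (c := c) (subset_union_left (s₁ := S) (s₂ := Y)) (Z := Y ∆ L)
          (mem_cy.2 ⟨symmDiff_le_sup.trans (sup_le subset_union_right
            ((h9.trans (hB.trans h1)).trans subset_union_left)), h10⟩)
          (fun h => h11 fun x hx => h (mem_symmDiff.2 (Or.inl
            ⟨hx, fun h' => (mem_sdiff.1 (h7 hx)).2 (hB (h9 h'))⟩)))
        rw [pow_succ]; omega
  obtain ⟨S, h1, h2, h3, h4⟩ := key (F + 1)
  obtain ⟨B', hB'⟩ := c.exists_bas S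
  have h5 : S.card ≤ (β + 1) * g := by
    rw [le_div_iff₀ (by positivity)] at hη
    have : (S.card : ℝ) ≤ (β + 1) * g := by push_cast at h3; nlinarith
    exact_mod_cast this
  have h6 := (hB'.2.1.card_cy S).trans (Nat.pow_le_pow_right two_pos (hF c E S B' g hN hg h2 h5 hB'))
  rcases h4 with h4 | h4
  · rcases T.eq_empty_or_nonempty with rfl | hne
    · simpa using card_le_card (fun U hU => mem_powerset.2 (tr_sub hU) :
        tr (c.Lab E R B (η * g)) ∅ ⊆ powerset ∅)
    refine (tr_le (c.cy S) (· ∩ B) fun L ⟨h7, Y, h8, h9, h10⟩ => ⟨Y ∆ L, mem_cy.2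
      ⟨symmDiff_le_sup.trans (sup_le (h4 Y h8 h9 L h7 h10) (h7.trans (hB.trans h1))), h10⟩,
        ?_⟩).trans (h6.trans (Nat.pow_le_pow_left (Nat.succ_le_succ (card_pos.2 hne)) _))
    ext x
    have := @h7 x
    have := @h8 x
    have := @hB x
    simp only [mem_inter, mem_symmDiff, mem_sdiff] at *
    grind
  · have := Nat.pow_lt_pow_right one_lt_two (Nat.lt_succ_self F)
    omega

theorem Lab.split {h : ℝ} {L : Finset ℕ} (hL : c.Lab E R B h L) :
    ∃ L₁ L₂, c.Lab E R B (2 / 3 * h) L₁ ∧ (c.Lab E R B (2 / 3 * h) L₂ ∨ c.Circ E R B h L₂) ∧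
      ∀ x ∈ T, x ∈ L ↔ x ∈ L₁ ∆ L₂ := by
  classical
  obtain ⟨h1, Y, h2, h3, h4⟩ := hL
  have h0 : 0 ≤ h := le_trans (by positivity) h3
  obtain ⟨Y₁, hY, hmax⟩ := exists_max_image (Y.powerset.filter
    (fun Y₁ => (Y₁.card : ℝ) ≤ 2 / 3 * h ∧ ∃ L₁ ⊆ B, c.cyc (Y₁ ∆ L₁))) card
    ⟨∅, mem_filter.2 ⟨by simp, by simpa using h0, ∅, empty_subset _, by simpa using c.zero⟩⟩
  simp only [mem_filter, mem_powerset, and_imp, forall_exists_index] at hY hmax
  obtain ⟨h5, h6, L₁, h7, h8⟩ := hY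
  have h9 : L ∆ L₁ ⊆ B := symmDiff_le_sup.trans (sup_le h1 h7)
  have sub : ∀ {Y L Y₁ L₁ : Finset ℕ}, Y₁ ⊆ Y → c.cyc (Y ∆ L) → c.cyc (Y₁ ∆ L₁) →
      c.cyc ((Y \ Y₁) ∆ (L ∆ L₁)) := fun {Y L Y₁ L₁} h h' h'' => c.add' h' h'' fun x => by
    have := @h x
    simp only [mem_symmDiff, mem_sdiff]
    grind
  have h10 := sub h5 h4 h8
  have h11 : ((Y \ Y₁).card : ℝ) + Y₁.card = Y.card := by exact_mod_cast card_sdiff_add_card_eq_card h5
  refine ⟨L₁, L ∆ L₁, ⟨h7, Y₁, h5.trans h2, h6, h8⟩, ?_, fun x _ => by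
    simp only [mem_symmDiff]; grind⟩
  by_cases h12 : ((Y \ Y₁).card : ℝ) ≤ 2 / 3 * h
  · exact Or.inl ⟨h9, _, sdiff_subset.trans h2, h12, h10⟩
  have key : ∀ Q ⊆ Y \ Y₁, ∀ L' ⊆ B, c.cyc (Q ∆ L') → 2 * Q.card ≤ (Y \ Y₁).card → Q = ∅ := by
    intro Q hQ L' hL' hc h13
    have hd : Disjoint Y₁ Q := disjoint_of_subset_right hQ disjoint_sdiff
    have h14 : (2 : ℝ) * Q.card ≤ (Y \ Y₁).card := by exact_mod_cast h13
    have := hmax (Y₁ ∪ Q) (union_subset h5 (hQ.trans sdiff_subset))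
      (by rw [card_union_of_disjoint hd]; push_cast; linarith) (L₁ ∆ L')
      (symmDiff_le_sup.trans (sup_le h7 hL')) (c.add' h8 hc fun x => by
        have := @disjoint_left.1 hd x
        simp only [mem_symmDiff, mem_union]
        grind)
    rw [card_union_of_disjoint hd] at this
    exact card_eq_zero.1 (by omega)
  refine Or.inr ⟨h9, _, sdiff_subset.trans h2, by linarith [Nat.cast_nonneg (α := ℝ) Y₁.card], h10,
    ?_, fun Q hQ L' hL' hc => ?_⟩
  · rw [← card_pos, ← Nat.cast_pos (α := ℝ)]; linarith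
  · have h13 := card_sdiff_add_card_eq_card hQ
    by_cases h14 : 2 * Q.card ≤ (Y \ Y₁).card
    · exact Or.inl (key Q hQ L' hL' hc h14)
    · exact Or.inr (hQ.antisymm (sdiff_eq_empty_iff_subset.1 (key _ sdiff_subset _
        (symmDiff_le_sup.trans (sup_le h9 hL')) (sub hQ h10 hc) (by omega))))

theorem Lab.ext {h : ℝ} {L M Q : Finset ℕ} {f : ℕ} (hB : B ⊆ R) (hT : T ⊆ B) (hM : M ⊆ B)
    (hQ : Q ⊆ E \ R) (hc : c.cyc (Q ∆ M)) (hL : c.Lab E R B h L) :
    ∃ L₁ L₂, c.Lab E (R ∪ Q) (B ∪ Q.erase f) h L₁ ∧ (L₂ = ∅ ∨ L₂ = M) ∧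
      ∀ x ∈ T, x ∈ L ↔ x ∈ L₁ ∆ L₂ := by
  obtain ⟨h1, Y, h2, h3, h4⟩ := hL
  have h5 : Y \ Q ⊆ E \ (R ∪ Q) := fun x hx => by
    have := @h2 x
    simp only [mem_sdiff, mem_union] at *
    grind
  have h6 : ((Y \ Q).card : ℝ) ≤ h :=
    le_trans (by exact_mod_cast card_le_card sdiff_subset) h3
  by_cases hf : f ∈ Y
  · refine ⟨L ∆ M ∪ Q \ Y, M, ⟨union_subset_union (symmDiff_le_sup.trans (sup_le h1 hM))
      fun x hx => mem_erase.2 ⟨fun e => (mem_sdiff.1 hx).2 (e ▸ hf), (mem_sdiff.1 hx).1⟩,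
        _, h5, h6, c.add' h4 hc fun x => ?_⟩, Or.inr rfl, fun x hx => ?_⟩
    · have := @h1 x; have := @hM x; have := @hB x; have := @hQ x
      simp only [mem_symmDiff, mem_sdiff, mem_union] at *
      grind
    · have := hB (hT hx); have := @hQ x
      simp only [mem_symmDiff, mem_sdiff, mem_union] at *
      grind
  · refine ⟨L ∪ Y ∩ Q, ∅, ⟨union_subset_union h1
      fun x hx => mem_erase.2 ⟨fun e => hf (e ▸ (mem_inter.1 hx).1), (mem_inter.1 hx).2⟩,
        _, h5, h6, c.add' h4 c.zero fun x => ?_⟩, Or.inl rfl, fun x hx => ?_⟩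
    · have := @h1 x; have := @hB x; have := @hQ x
      simp only [mem_symmDiff, mem_sdiff, mem_union, mem_inter, notMem_empty] at *
      grind
    · have := hB (hT hx); have := @hQ x
      simp only [mem_symmDiff, mem_sdiff, mem_union, mem_inter, notMem_empty] at *
      grind

theorem Circ.ind {Q : Finset ℕ} {f : ℕ} (hI : c.Ind B) (hf : f ∈ Q) (hfB : f ∉ B)
    (h : ∀ Q' ⊆ Q, ∀ L' ⊆ B, c.cyc (Q' ∆ L') → Q' = ∅ ∨ Q' = Q) : c.Ind (B ∪ Q.erase f) := by
  intro Z hZ hc
  rcases h (Z \ B) (fun x hx => mem_of_mem_erase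
    ((mem_union.1 (hZ (mem_sdiff.1 hx).1)).resolve_left (mem_sdiff.1 hx).2)) (Z ∩ B)
    inter_subset_right (c.add' hc c.zero fun x => by
      simp only [mem_symmDiff, mem_sdiff, mem_inter, notMem_empty]; grind) with h1 | h1
  · exact hI Z (sdiff_eq_empty_iff_subset.1 h1) hc
  · have := hZ (mem_sdiff.1 (h1 ▸ hf)).1
    simp [hfB] at this

theorem exists_dim (k r v h : ℕ) (hr : 0 < r) : ∃ d, 2 ^ k * ((r * d + 1) ^ v *
    ((r * d + 1) ^ v + r * ((d + 1) ^ h * 2 ^ (r * d - d)))) < 2 ^ (r * d) := by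
  obtain ⟨d, hd⟩ := exists_pow_lt (2 ^ k * (r ^ v * (r ^ v + r))) (v + (v + h))
  refine ⟨d, ?_⟩
  have h1 : (r * d + 1) ^ v ≤ r ^ v * (d + 1) ^ v := by
    rw [← mul_pow]; exact Nat.pow_le_pow_left (by rw [mul_add]; omega) _
  have h2 : (d + 1) ^ v ≤ (d + 1) ^ (v + h) * 2 ^ (r * d - d) :=
    (Nat.pow_le_pow_right d.succ_pos (Nat.le_add_right _ _)).trans
      (Nat.le_mul_of_pos_right _ (by positivity))
  have h3 : (d + 1) ^ h * 2 ^ (r * d - d) ≤ (d + 1) ^ (v + h) * 2 ^ (r * d - d) :=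
    Nat.mul_le_mul_right _ (Nat.pow_le_pow_right d.succ_pos (Nat.le_add_left _ _))
  have h4 : 2 ^ (r * d) = 2 ^ d * 2 ^ (r * d - d) := by
    rw [← pow_add, Nat.add_sub_cancel' (Nat.le_mul_of_pos_left _ hr)]
  calc _ ≤ 2 ^ k * (r ^ v * (d + 1) ^ v * (r ^ v * ((d + 1) ^ (v + h) * 2 ^ (r * d - d)) +
        r * ((d + 1) ^ (v + h) * 2 ^ (r * d - d)))) := by
        gcongr
        exact h1.trans (Nat.mul_le_mul_left _ h2)
    _ = 2 ^ k * (r ^ v * (r ^ v + r)) * (d + 1) ^ (v + (v + h)) * 2 ^ (r * d - d) := by ring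
    _ < _ := by rw [h4]; gcongr

theorem greedy {η ρ : ℝ} {v : ℕ} (hr : 0 < r) (hη : 0 ≤ η)
    (hPL : PL k D (2 / 3 * η) (ρ + k * η) v) : ∀ i j : ℕ, i + j = k → ∃ d, ∀ (c : Code)
    (E R B T : Finset ℕ) (g : ℕ) (cell : Fin r → Finset ℕ) (f : ℕ → ℕ) (L : ℕ → Finset ℕ),
    ¬ c.Emb E k D → c.Gir E g → B ⊆ R → R ⊆ E → c.Ind B → (R.card : ℝ) ≤ (ρ + j * η) * g →
    T ⊆ B → (∀ t, cell t ⊆ T ∧ (cell t).card = d) → (∀ s t, s ≠ t → Disjoint (cell s) (cell t)) →
    (∀ a < j, ∀ b < j, f a = f b → a = b) → (∀ a < j, f a ∈ R ∧ f a ∉ B ∧ L a ⊆ B ∧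
      c.cyc (insert (f a) (L a)) ∧ ∀ t, ∀ x ∈ cell t, x ∈ L a ↔ D a t) →
    (tr (c.Lab E R B (η * g)) T).card * 2 ^ j < 2 ^ T.card := by
  classical
  intro i
  induction i with
  | zero =>
    intro j hj
    refine ⟨1, fun c E R B T g cell f L hN _ hB hR hI _ hT h1 h2 h3 h4 => (hN ?_).elim⟩
    rw [zero_add] at hj
    subst hj
    choose x hx using fun t => card_eq_one.1 (h1 t).2
    have h5 : ∀ t, x t ∈ cell t := fun t => hx t ▸ mem_singleton_self _
    refine ⟨B, x, f, L, hB.trans hR, hI, fun s t h => ?_, fun t => hT ((h1 t).1 (h5 t)), h3,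
      fun a ha => ?_⟩
    · by_contra hne
      exact disjoint_left.1 (h2 s t hne) (h5 s) (h ▸ h5 t)
    · obtain ⟨h6, h7, h8, h9, h10⟩ := h4 a ha
      exact ⟨hR h6, h7, h8, h9, fun t => h10 t _ (h5 t)⟩
  | succ i ih =>
    intro j hj
    obtain ⟨h, hh⟩ := ih (j + 1) (by omega)
    obtain ⟨d, hd⟩ := exists_dim j r v h hr
    refine ⟨d, fun c E R B T g cell f L hN hg hB hR hI hc hT h1 h2 h3 h4 => ?_⟩
    have hg0 : (0 : ℝ) ≤ g := by positivity
    by_contra hcon
    rw [not_lt, mul_comm] at hcon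
    have hU : univ.biUnion cell ⊆ T := biUnion_subset.2 fun t _ => (h1 t).1
    have hUc : (univ.biUnion cell).card = r * d := by
      rw [card_biUnion fun s _ t _ h => h2 s t h]; simp [fun t => (h1 t).2]
    have h5 := hPL c E R B _ g hN hg hB hR hI (hc.trans (by
      have : (j : ℝ) ≤ k := by exact_mod_cast (show j ≤ k by omega)
      gcongr)) (hU.trans hT)
    have h6 := (tr_dens hU hcon).trans (Nat.mul_le_mul_left _ ((tr_add fun L hL => hL.split).trans
      (Nat.mul_le_mul_left _ tr_or)))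
    rw [mul_assoc] at h5
    have h7 : ∃ M, c.Circ E R B (η * g) M ∧
        ∀ t, h ≤ ((cell t).filter (fun x => (x ∈ M ↔ D j t))).card := by
      by_contra h7
      push Not at h7
      have h8 := tr_bad (p := c.Circ E R B (η * g)) (T := univ.biUnion cell) (h := h) cell (D j)
        (fun t => ⟨subset_biUnion_of_mem cell (mem_univ t), (h1 t).2⟩) fun M hM =>
          (h7 M hM).imp fun t ht => by convert ht.le
      rw [hUc] at h5 h6 h8
      rw [Fintype.card_fin] at h8
      exact (h6.trans (by gcongr)).not_gt hd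
    obtain ⟨M, ⟨h8, Q, h9, h10, h11, ⟨e, he⟩, h12⟩, h13⟩ := h7
    choose cell' h14 h15 using fun t => exists_subset_card_eq (h13 t)
    have heR : e ∉ R := (mem_sdiff.1 (h9 he)).2
    have hQR : ∀ x ∈ Q, x ∉ R := fun x hx => (mem_sdiff.1 (h9 hx)).2
    have h16 : ∀ t, cell' t ⊆ cell t := fun t => (h14 t).trans (filter_subset _ _)
    have := hh c E (R ∪ Q) (B ∪ Q.erase e) T g cell' (Function.update f j e)
      (Function.update L j (M ∪ Q.erase e)) hN hg (union_subset_union hB (erase_subset _ _))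
      (union_subset hR (h9.trans sdiff_subset)) (Circ.ind hI he (fun h => heR (hB h)) h12)
      (by
        have : ((R ∪ Q).card : ℝ) ≤ R.card + Q.card := by exact_mod_cast card_union_le _ _
        push_cast; linarith)
      (hT.trans subset_union_left) (fun t => ⟨(h16 t).trans (h1 t).1, h15 t⟩)
      (fun s t h => (h2 s t h).mono (h16 s) (h16 t)) (fun a ha b hb hab => ?_) (fun a ha => ?_)
    · have h17 := (tr_add (T := T) fun L hL => Lab.ext (h := η * g) (f := e) hB hT h8 h9 h11 hL).trans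
        (Nat.mul_le_mul_left _ ((tr_le {∅, M} id fun L hL => ⟨L, by simpa using hL, rfl⟩).trans
          card_le_two))
      have h18 := Nat.mul_le_mul_left (2 ^ j) h17
      rw [pow_succ] at this
      nlinarith
    · by_cases h17 : a = j <;> by_cases h18 : b = j
      · rw [h17, h18]
      · rw [h17, Function.update_self, Function.update_of_ne h18] at hab
        exact absurd (hab ▸ (h4 b (by omega)).1) heR
      · rw [h18, Function.update_self, Function.update_of_ne h17] at hab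
        exact absurd (hab ▸ (h4 a (by omega)).1) heR
      · rw [Function.update_of_ne h17, Function.update_of_ne h18] at hab
        exact h3 a (by omega) b (by omega) hab
    · by_cases h17 : a = j
      · rw [h17, Function.update_self, Function.update_self]
        refine ⟨mem_union_right _ he, by simpa using fun h => heR (hB h),
          union_subset_union h8 subset_rfl, c.add' h11 c.zero fun x => ?_, fun t x hx => ?_⟩
        · have := @h8 x; have := @hB x; have := hQR x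
          simp only [mem_symmDiff, mem_insert, mem_union, mem_erase, notMem_empty] at *
          grind
        · have h18 := hB (hT ((h1 t).1 (h16 t hx)))
          rw [← (mem_filter.1 (h14 t hx)).2, mem_union, or_iff_left]
          exact fun h => hQR x (mem_of_mem_erase h) h18
      · rw [Function.update_of_ne h17, Function.update_of_ne h17]
        obtain ⟨h18, h19, h20, h21, h22⟩ := h4 a (by omega)
        exact ⟨mem_union_left _ h18, fun h => (mem_union.1 h).elim h19
          fun h => hQR _ (mem_of_mem_erase h) h18, h20.trans subset_union_left, h21,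
          fun t x hx => h22 t x (h16 t hx)⟩

theorem pl_step {η ρ : ℝ} {v : ℕ} (hr : 0 < r) (hη : 0 ≤ η)
    (hPL : PL k D (2 / 3 * η) (ρ + k * η) v) : ∃ v', PL k D η ρ v' := by
  obtain ⟨d, hd⟩ := greedy hr hη hPL k 0 rfl
  refine ⟨r * d, fun c E R B T g hN hg hB hR hI hc hT => sauer fun U hU hUc => ?_⟩
  obtain ⟨cell, h1, h2⟩ := exists_cells U hUc.ge
  simpa [hUc] using hd c E R B U g cell id (fun _ => ∅) hN hg hB hR hI (by simpa using hc)
    (hU.trans hT) h1 h2 (by simp) (by simp)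

theorem pl_all (hr : 0 < r) (k : ℕ) (D : ℕ → Fin r → Prop) (α : ℕ) : ∃ v, PL k D α α v := by
  obtain ⟨η₀, h0, v, hv⟩ := pl_base k D (α + 3 * k * α)
  have key : ∀ (u : ℕ) (η ρ : ℝ), 0 ≤ η → η * (2 / 3) ^ u ≤ η₀ →
      ρ + 3 * k * η ≤ (α + 3 * k * α : ℕ) → ∃ v, PL k D η ρ v := by
    intro u
    induction u with
    | zero =>
      intro η ρ h1 h2 h3
      have : 0 ≤ 3 * k * η := by positivity
      exact ⟨v, hv η ρ h1 (by simpa using h2) (by linarith)⟩
    | succ u ih =>
      intro η ρ h1 h2 h3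
      obtain ⟨v, hv⟩ := ih (2 / 3 * η) (ρ + k * η) (by positivity)
        (by rw [pow_succ] at h2; linarith) (by linarith)
      exact pl_step hr h1 hv
  obtain ⟨u, hu⟩ := exists_pow_lt_of_lt_one (show 0 < η₀ / (α + 1) by positivity)
    (show (2 / 3 : ℝ) < 1 by norm_num)
  rw [lt_div_iff₀ (by positivity)] at hu
  have : (0 : ℝ) ≤ (2 / 3) ^ u := by positivity
  exact key u α α (by positivity) (by nlinarith) (by push_cast; exact le_rfl)

/-- Polynomially many cycles of size at most `α` times the girth. -/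
theorem count (hr : 0 < r) (k : ℕ) (D : ℕ → Fin r → Prop) (α : ℕ) : ∃ V, ∀ (c : Code)
    (E : Finset ℕ) (g : ℕ), ¬ c.Emb E k D → c.Gir E g →
      ((c.cy E).filter (·.card ≤ α * g)).card ≤ (E.card + 1) ^ V := by
  obtain ⟨v, hv⟩ := pl_all hr k D α
  obtain ⟨F, hF⟩ := few_more k D α
  obtain ⟨d, hd⟩ := exists_pow_lt (2 ^ F * 2 ^ F) v
  refine ⟨d, fun c E g hN hg => le_trans (card_le_card fun Z hZ => ?_)
    (sauer (p := fun Z => Z ⊆ E ∧ c.cyc Z ∧ Z.card ≤ α * g) fun T _ hT => ?_)⟩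
  · obtain ⟨h1, h2⟩ := mem_filter.1 hZ
    exact mem_tr.2 ⟨Z, ⟨(mem_cy.1 h1).1, (mem_cy.1 h1).2, h2⟩, inter_eq_left.2 (mem_cy.1 h1).1⟩
  by_contra hcon
  have h1 := eq_of_subset_of_card_le (fun U hU => mem_powerset.2 (tr_sub hU))
    (by rw [card_powerset, hT]; exact not_lt.1 hcon)
  obtain ⟨R, ⟨h2, -, h3⟩, h4⟩ := mem_tr.1 (h1 ▸ mem_powerset_self T)
  obtain ⟨B, hB⟩ := c.exists_bas R
  have h5 := hF c E R B g hN hg h2 h3 hB
  choose! P hP using hB.lab
  have h6 := tr_add (p := fun Z => Z ⊆ E ∧ c.cyc Z ∧ Z.card ≤ α * g) (T := T ∩ B)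
    (q := c.Lab E R B ((α : ℝ) * g)) (r := fun L => ∃ W ∈ (R \ B).powerset, P W = L)
    fun Z ⟨h6, h7, h8⟩ => by
      obtain ⟨h9, h10⟩ := hP (Z ∩ (R \ B)) inter_subset_right
      refine ⟨(Z ∩ B) ∆ P (Z ∩ (R \ B)), P (Z ∩ (R \ B)),
        ⟨symmDiff_le_sup.trans (sup_le inter_subset_right h9), Z \ R, sdiff_subset_sdiff h6 subset_rfl, ?_, c.add' h7 h10 fun x => ?_⟩,
        ⟨Z ∩ (R \ B), mem_powerset.2 inter_subset_right, rfl⟩, fun x hx => ?_⟩
      · exact_mod_cast (card_le_card sdiff_subset).trans h8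
      · have := @hB.1 x
        simp only [mem_symmDiff, mem_sdiff, mem_inter] at *
        grind
      · simp only [mem_symmDiff, mem_inter] at *
        grind
  have h7 := hv c E R B (T ∩ B) g hN hg hB.1 h2 hB.2.1 (by exact_mod_cast h3) inter_subset_right
  have h8 := tr_le (T := T ∩ B) (R \ B).powerset P fun L hL => hL
  rw [card_powerset] at h8
  have h9 : T.card - (T ∩ B).card ≤ F := by
    have := card_sdiff_add_card_inter T B
    have := card_le_card (sdiff_subset_sdiff (inter_eq_right.1 h4) (subset_rfl (a := B)))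
    omega
  have h10 : (T ∩ B).card ≤ d := hT ▸ card_le_card inter_subset_left
  refine hcon ((tr_proj (inter_subset_left (s₂ := B))).trans_lt (lt_of_le_of_lt ?_ hd))
  calc _ ≤ (d + 1) ^ v * 2 ^ F * 2 ^ F := by
        gcongr
        · exact h6.trans (Nat.mul_le_mul (h7.trans (by gcongr))
            (h8.trans (Nat.pow_le_pow_right two_pos h5)))
        · exact one_le_two
    _ = _ := by ring

end Code

end Pool.Agent.MP71

end MrgPart1

-- ======== part 2: formerly Pool.Agent.MP_71daef_lc.Rand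
section MrgPart2

/-!
Random deletion isolates a shortest cycle with inverse polynomial probability.
-/

set_option autoImplicit false

namespace Pool.Agent.MP71

open Finset symmDiff Pool.Agent.H82

section avg

/-- Average over all bit lists of length `m`. -/
noncomputable def avg (m : ℕ) (f : List Bool → ℝ) : ℝ :=
  (∑ w : Fin m → Bool, f (List.ofFn w)) / 2 ^ m

variable {m k : ℕ} {f g : List Bool → ℝ}

theorem avg_zero : avg 0 f = f [] := by simp [avg]

theorem avg_succ : avg (m + 1) f =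
    (avg m (fun w => f (true :: w)) + avg m (fun w => f (false :: w))) / 2 := by
  rw [avg, ← (Fin.consEquiv fun _ => Bool).sum_comp, Fintype.sum_prod_type, Fintype.sum_bool,
    avg, avg]
  simp only [Fin.consEquiv, Equiv.coe_fn_mk, List.ofFn_succ, Fin.cons_zero, Fin.cons_succ]
  field_simp
  ring

theorem avg_mono (h : ∀ w : List Bool, w.length = m → f w ≤ g w) : avg m f ≤ avg m g :=
  div_le_div_of_nonneg_right (sum_le_sum fun w _ => h _ (List.length_ofFn ..)) (by positivity)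

theorem avg_congr (h : ∀ w : List Bool, w.length = m → f w = g w) : avg m f = avg m g :=
  (avg_mono fun w hw => (h w hw).le).antisymm (avg_mono fun w hw => (h w hw).ge)

theorem avg_const (x : ℝ) : avg m (fun _ => x) = x := by
  simp [avg]

theorem avg_mul (x : ℝ) : avg m (fun w => f w * x) = avg m f * x := by
  rw [avg, avg, ← sum_mul]; ring

theorem avg_sub : avg m (fun w => f w - g w) = avg m f - avg m g := by
  rw [avg, avg, avg, sum_sub_distrib, sub_div]

theorem avg_sum {ι : Type} (s : Finset ι) (F : ι → List Bool → ℝ) :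
    avg m (fun w => ∑ i ∈ s, F i w) = ∑ i ∈ s, avg m (F i) := by
  simp only [avg]
  rw [sum_comm, sum_div]

theorem avg_append : ∀ (m : ℕ) (f : List Bool → ℝ),
    avg (m + k) f = avg m (fun u => avg k (fun v => f (u ++ v)))
  | 0, f => by simp [avg_zero]
  | m + 1, f => by
    rw [Nat.add_right_comm, avg_succ, avg_append, avg_append, avg_succ]
    rfl

/-- The `i`-th block of length `m`. -/
def chunk (m : ℕ) (w : List Bool) (i : ℕ) : List Bool := (w.drop (i * m)).take m

theorem chunk_zero {u v : List Bool} (h : u.length = m) : chunk m (u ++ v) 0 = u := by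
  simp [chunk, ← h]

theorem chunk_succ {u v : List Bool} (h : u.length = m) (i : ℕ) :
    chunk m (u ++ v) (i + 1) = chunk m v i := by
  rw [chunk, chunk, Nat.succ_mul, add_comm, ← h, List.drop_append, List.drop_of_length_le (by omega),
    Nat.add_sub_cancel_left, List.nil_append]

theorem avg_prod : ∀ (k : ℕ) (φ : ℕ → List Bool → ℝ),
    avg (k * m) (fun w => ∏ i ∈ range k, φ i (chunk m w i)) = ∏ i ∈ range k, avg m (φ i)
  | 0, φ => by simp [avg_zero]
  | k + 1, φ => by
    rw [Nat.succ_mul, add_comm, avg_append, prod_range_succ', ← avg_prod k,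
      mul_comm _ (avg m (φ 0)), ← avg_mul]
    refine avg_congr fun u hu => ?_
    rw [mul_comm (φ 0 u), ← avg_mul]
    refine avg_congr fun v _ => ?_
    simp only [prod_range_succ', chunk_zero hu, chunk_succ hu]

theorem avg_prod_sub {U : Finset ℕ} (hU : U ⊆ range k) (φ : List Bool → ℝ) :
    avg (k * m) (fun w => ∏ i ∈ U, φ (chunk m w i)) = avg m φ ^ U.card := by
  have h := avg_prod (m := m) k (fun i u => if i ∈ U then φ u else 1)
  simp only [prod_ite_mem, inter_eq_right.2 hU] at h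
  rw [h, ← prod_const, ← inter_eq_right.2 hU, ← prod_ite_mem, inter_eq_right.2 hU]
  refine prod_congr rfl fun i _ => ?_
  split_ifs
  · rfl
  · exact avg_const 1

theorem avg_take : ∀ (b m : ℕ), b ≤ m →
    avg m (fun w => if (w.take b).all id then 0 else 1) = 1 - 1 / 2 ^ b
  | 0, m, _ => by simp [avg_const]
  | b + 1, m + 1, h => by
    have := avg_take b m (by omega)
    simp only [avg_succ, List.take_succ_cons, List.all_cons, id, Bool.true_and, this,
      Bool.false_and, Bool.false_eq_true, if_false, avg_const]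
    field_simp
    ring

end avg

/-- An element survives a round if none of its first `J` blocks starts with `b` ones. -/
def surv (W b J : ℕ) (u : List Bool) : Bool :=
  ((idx u).take J).all (fun j => !((chunk W u j).take b).all id)

theorem avg_surv {W b J Jm : ℕ} (hb : b ≤ W) (h0 : 0 < b) (hJ : J ≤ Jm) :
    avg (Jm * W) (fun u => if surv W b J u then 1 else 0) = (1 - 1 / 2 ^ b) ^ J := by
  have h := avg_prod_sub (m := W) (range_mono hJ) (fun w => if (w.take b).all id then 0 else 1)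
  rw [avg_take b W hb, card_range] at h
  rw [← h]
  refine avg_congr fun u hu => ?_
  have h1 : min J (Jm * W) = J := min_eq_left (hJ.trans (Nat.le_mul_of_pos_right _ (by omega)))
  simp only [surv, idx, List.take_range, hu, h1, List.all_eq_true, List.mem_range]
  split_ifs with h2
  · exact (prod_eq_one fun j hj => if_neg (by simpa using h2 j (mem_range.1 hj))).symm
  · push Not at h2
    obtain ⟨j, hj, h2⟩ := h2
    symm
    exact prod_eq_zero (mem_range.2 hj) (if_pos (by simpa using h2))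

namespace Code

variable (c : Code)

/-- `C` lies in `S` and all other cycles of `S` have many elements outside `C`. -/
def Iso (C : Finset ℕ) (b : ℕ) (S : Finset ℕ) : Prop :=
  C ⊆ S ∧ ∀ Z ⊆ S, c.cyc Z → Z.Nonempty → Z ≠ C → 2 ^ b ≤ (Z \ C).card

variable {c} {C S : Finset ℕ} {n V b : ℕ}

open Classical in
theorem round (hV : ∀ S ⊆ range n, ∀ g, c.Gir S g →
      ((c.cy S).filter (·.card ≤ 6 * g)).card ≤ (S.card + 1) ^ V)
    (hC : c.cyc C) (hne : C.Nonempty) (hS : S ⊆ range n) (h : c.Iso C b S)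
    (hb : C.card ≤ 4 * 2 ^ b) {m : ℕ} (φ : List Bool → Bool) {s : ℝ}
    (hs : avg m (fun u => if φ u then 1 else 0) = s) :
    s ^ C.card * (1 - (n + 1) ^ V * s ^ 2 ^ b) ≤ avg (n * m) (fun u =>
      if c.Iso C (b + 1) (S.filter fun e => φ (chunk m u e)) then 1 else 0) := by
  obtain ⟨e, he⟩ := hne
  have hs0 : 0 ≤ s := hs ▸ (avg_const (m := m) 0).ge.trans (avg_mono fun u _ => by positivity)
  have hs1 : s ≤ 1 := hs ▸ (avg_mono fun u _ => by split_ifs <;> norm_num).trans
    (avg_const (m := m) 1).le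
  have hbig : ∀ Z ⊆ S.erase e, c.cyc Z → Z.Nonempty → 2 ^ b ≤ (Z \ C).card := fun Z h1 h2 h3 =>
    h.2 Z (h1.trans (erase_subset _ _)) h2 h3 fun h4 => notMem_erase e S (h1 (h4 ▸ he))
  set bad := ((c.cy (S.erase e)).filter (·.card ≤ 6 * 2 ^ b)).erase ∅ with hbad
  have hb1 : ∀ Z ∈ bad, Z ⊆ S.erase e ∧ c.cyc Z ∧ Z.Nonempty := fun Z hZ =>
    ⟨(mem_cy.1 (mem_filter.1 (mem_erase.1 hZ).2).1).1,
      (mem_cy.1 (mem_filter.1 (mem_erase.1 hZ).2).1).2, nonempty_iff_ne_empty.2 (mem_erase.1 hZ).1⟩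
  have hb2 : (bad.card : ℝ) ≤ (n + 1) ^ V := by
    have h1 := hV _ ((erase_subset e S).trans hS) (2 ^ b) fun Z h1 h2 h3 =>
      (hbig Z h1 h2 h3).trans (card_le_card sdiff_subset)
    have h2 := card_le_card ((erase_subset e S).trans hS)
    rw [card_range] at h2
    exact_mod_cast card_erase_le.trans (h1.trans (Nat.pow_le_pow_left (by omega) _))
  set ψ : List Bool → ℝ := fun u => if φ u then 1 else 0 with hψ
  have key := avg_mono (m := n * m) (f := fun u => ∏ i ∈ C, ψ (chunk m u i) -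
      ∑ Z ∈ bad, ∏ i ∈ C ∪ Z, ψ (chunk m u i)) (g := fun u =>
      if c.Iso C (b + 1) (S.filter fun e => φ (chunk m u e)) then 1 else 0) fun u _ => by
    have h0 : ∀ i, 0 ≤ ψ (chunk m u i) := fun i => by simp only [hψ]; positivity
    have h1 : ∏ i ∈ C, ψ (chunk m u i) ≤ 1 :=
      prod_le_one (fun i _ => h0 i) fun i _ => by simp only [hψ]; split_ifs <;> norm_num
    have h2 : ∀ Z ∈ bad, 0 ≤ ∏ i ∈ C ∪ Z, ψ (chunk m u i) :=
      fun Z _ => prod_nonneg fun i _ => h0 i
    split_ifs with h3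
    · linarith [sum_nonneg h2]
    by_cases h4 : ∀ i ∈ C, φ (chunk m u i) = true
    swap
    · push Not at h4
      obtain ⟨i, hi, h4⟩ := h4
      rw [prod_eq_zero hi (if_neg h4)]
      linarith [sum_nonneg h2]
    have h5 : C ⊆ S.filter fun e => φ (chunk m u e) := fun i hi => mem_filter.2 ⟨h.1 hi, h4 i hi⟩
    simp only [Iso, h5, true_and, not_forall, not_le] at h3
    obtain ⟨Z, h6, h7, h8, h9, h10⟩ := h3
    obtain ⟨Z', h11, h12, h13, h14, h15⟩ : ∃ Z' ⊆ S.filter fun e => φ (chunk m u e), c.cyc Z' ∧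
        Z' ≠ ∅ ∧ e ∉ Z' ∧ Z' \ C = Z \ C := by
      by_cases heZ : e ∈ Z
      · refine ⟨Z ∆ C, symmDiff_le_sup.trans (sup_le h6 h5), c.add h7 hC,
          fun h => h9 (symmDiff_eq_bot.1 h), by simp [mem_symmDiff, he, heZ], ?_⟩
        ext x; simp only [mem_sdiff, mem_symmDiff]; grind
      · exact ⟨Z, h6, h7, h8.ne_empty, heZ, rfl⟩
    have h16 : Z' ∈ bad := by
      refine mem_erase.2 ⟨h13, mem_filter.2 ⟨mem_cy.2 ⟨subset_erase.2
        ⟨h11.trans (filter_subset _ _), h14⟩, h12⟩, ?_⟩⟩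
      have := card_le_card_sdiff_add_card (s := Z') (t := C)
      rw [h15] at this
      omega
    have h17 := single_le_sum h2 h16
    rw [prod_eq_one fun i hi => if_pos (mem_filter.1 (union_subset h5 h11 hi)).2] at h17
    linarith
  refine le_trans ?_ key
  rw [avg_sub, avg_sum, avg_prod_sub (h.1.trans hS), hs, mul_sub, mul_one]
  refine sub_le_sub_left (le_trans (sum_le_card_nsmul _ _ (s ^ C.card * s ^ 2 ^ b)
    fun Z hZ => ?_) ?_) _
  · obtain ⟨h1, h2, h3⟩ := hb1 Z hZ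
    rw [avg_prod_sub (union_subset (h.1.trans hS) ((h1.trans (erase_subset _ _)).trans hS)), hs,
      ← pow_add]
    refine pow_le_pow_of_le_one hs0 hs1 ?_
    have := hbig Z h1 h2 h3
    rw [← union_sdiff_self_eq_union, card_union_of_disjoint disjoint_sdiff]
    omega
  · rw [nsmul_eq_mul, mul_left_comm]
    gcongr

theorem surv_lower (b J x : ℕ) :
    Real.exp (-(J * x / 2 ^ b)) ≤ ((1 - 1 / 2 ^ (b + 1) : ℝ) ^ J) ^ x := by
  have h0 : (0 : ℝ) < 2 ^ b := by positivity
  have h1 : (1 : ℝ) ≤ 2 ^ b := one_le_pow₀ one_le_two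
  have h2 : Real.exp (-(1 / 2 ^ b)) ≤ 1 - 1 / 2 ^ (b + 1) := by
    rw [Real.exp_neg]
    refine (inv_anti₀ (by positivity) (Real.add_one_le_exp _)).trans ?_
    rw [inv_le_iff_one_le_mul₀ (by positivity), pow_succ]
    field_simp
    nlinarith
  rw [← pow_mul, show -((J : ℝ) * x / 2 ^ b) = (J * x : ℕ) * -(1 / 2 ^ b) by push_cast; ring,
    Real.exp_nat_mul]
  exact pow_le_pow_left₀ (Real.exp_pos _).le h2 _

theorem surv_upper (b J : ℕ) :
    ((1 - 1 / 2 ^ (b + 1) : ℝ) ^ J) ^ 2 ^ b ≤ Real.exp (-(J / 2)) := by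
  have h1 : (1 : ℝ) ≤ 2 ^ (b + 1) := one_le_pow₀ one_le_two
  rw [← pow_mul, show -((J : ℝ) / 2) = (J * 2 ^ b : ℕ) * -(1 / 2 ^ (b + 1)) by
    push_cast; field_simp; ring, Real.exp_nat_mul]
  refine pow_le_pow_left₀ (sub_nonneg.2 ((div_le_one (by positivity)).2 h1)) ?_ _
  linarith [Real.add_one_le_exp (-(1 / 2 ^ (b + 1) : ℝ))]

/-- The elements of `S` that survive `r` rounds starting from scale `b`. -/
def kp (n W Jm J b r : ℕ) (S : Finset ℕ) (w : List Bool) : Finset ℕ :=
  S.filter fun e => ∀ i < r,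
    surv W (b + i + 1) J (chunk (Jm * W) (chunk (n * (Jm * W)) w i) e) = true

open Classical in
theorem rounds (hV : ∀ S ⊆ range n, ∀ g, c.Gir S g →
      ((c.cy S).filter (·.card ≤ 6 * g)).card ≤ (S.card + 1) ^ V)
    (hC : c.cyc C) (hne : C.Nonempty) {W Jm J : ℕ} (hJ : J ≤ Jm) {ε : ℝ}
    (hε : (n + 1) ^ V * Real.exp (-(J / 2)) ≤ ε) (hε1 : ε ≤ 1) :
    ∀ (r b : ℕ) (S : Finset ℕ), S ⊆ range n → c.Iso C b S → C.card ≤ 4 * 2 ^ b → b + r ≤ W →
      Real.exp (-(2 * (J * C.card / 2 ^ b))) * (1 - ε) ^ r ≤ avg (r * (n * (Jm * W)))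
        (fun w => if c.Iso C (b + r) (kp n W Jm J b r S w) then 1 else 0) := by
  intro r
  induction r with
  | zero =>
    intro b S _ h _ _
    have : Real.exp (-(2 * (J * C.card / 2 ^ b))) ≤ 1 :=
      Real.exp_le_one_iff.2 (neg_nonpos.2 (by positivity))
    simpa [avg_zero, kp, h] using this
  | succ r ih =>
    intro b S hS h hb hW
    have h1 := round hV hC hne hS h hb (surv W (b + 1) J)
      (avg_surv (b := b + 1) (by omega) (by omega) hJ)
    have h2 : Real.exp (-(J * C.card / 2 ^ b)) * (1 - ε) ≤ _ := le_trans (mul_le_mul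
      (surv_lower b J C.card) (sub_le_sub_left (le_trans (mul_le_mul_of_nonneg_left
        (surv_upper b J) (by positivity)) hε) 1) (sub_nonneg.2 hε1)
        ((Real.exp_pos _).le.trans (surv_lower b J C.card))) h1
    have h3 : 0 ≤ Real.exp (-(2 * (J * C.card / 2 ^ (b + 1)))) * (1 - ε) ^ r :=
      mul_nonneg (Real.exp_pos _).le (pow_nonneg (sub_nonneg.2 hε1) _)
    rw [Nat.succ_mul, add_comm (r * _), avg_append]
    refine le_trans (le_of_eq ?_) ((mul_le_mul_of_nonneg_right h2 h3).trans ?_)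
    · rw [mul_mul_mul_comm, ← Real.exp_add, ← pow_succ']
      congr 2
      field_simp
      ring
    rw [← avg_mul]
    refine avg_mono fun u hu => ?_
    have h4 : ∀ v, kp n W Jm J b (r + 1) S (u ++ v) = kp n W Jm J (b + 1) r
        (S.filter fun e => surv W (b + 1) J (chunk (Jm * W) u e)) v := fun v => by
      simp only [kp, filter_filter, Nat.forall_lt_succ_left, chunk_zero hu, chunk_succ hu,
        add_zero, add_assoc, add_comm 1]
    simp only [h4, show b + (r + 1) = b + 1 + r by omega]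
    split_ifs with h5
    · rw [one_mul]
      exact ih _ _ ((filter_subset _ _).trans hS) h5 (by rw [pow_succ]; omega) (by omega)
    · rw [zero_mul]
      exact (avg_const 0).ge.trans (avg_mono fun u _ => by positivity)

theorem exists_start (hC : c.cyc C) (hne : C.Nonempty) (hS : C ⊆ S) (hmin : c.Gir S C.card) :
    ∃ b < C.card, c.Iso C b S ∧ C.card ≤ 4 * 2 ^ b := by
  have hex : ∃ b, C.card ≤ 4 * 2 ^ b := ⟨C.card, by have := Nat.lt_two_pow_self (n := C.card); omega⟩
  have hpos := card_pos.2 hne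
  have key : ∀ Z ⊆ S, c.cyc Z → Z.Nonempty → Z ≠ C → C.card ≤ 2 * (Z \ C).card := by
    intro Z h1 h2 h3 h4
    have h5 := hmin Z h1 h2 h3
    have h6 := hmin (Z ∆ C) (symmDiff_le_sup.trans (sup_le h1 hS)) (c.add h2 hC)
      (nonempty_iff_ne_empty.2 fun h => h4 (symmDiff_eq_bot.1 h))
    have h7 := card_union_le (Z \ C) (C \ Z)
    have h8 := card_sdiff_add_card_inter Z C
    have h9 := card_sdiff_add_card_inter C Z
    rw [inter_comm] at h9
    rw [symmDiff_def, sup_eq_union] at h6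
    omega
  cases hb : Nat.find hex with
  | zero =>
    have := hb ▸ Nat.find_spec hex
    exact ⟨0, hpos, ⟨hS, fun Z h1 h2 h3 h4 => by have := key Z h1 h2 h3 h4; omega⟩, this⟩
  | succ b =>
    have h0 := Nat.find_min hex (show b < Nat.find hex by omega)
    have h5 := Nat.lt_two_pow_self (n := b + 1)
    rw [pow_succ] at h5
    exact ⟨b + 1, by omega, ⟨hS, fun Z h1 h2 h3 h4 => by
      have := key Z h1 h2 h3 h4; rw [pow_succ]; omega⟩, hb ▸ Nat.find_spec hex⟩

variable (c) in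
/-- `C` is the only nonempty cycle inside `S`. -/
def Uniq (C S : Finset ℕ) : Prop := C ⊆ S ∧ ∀ Z ⊆ S, c.cyc Z → Z.Nonempty → Z = C

open Classical in
theorem trial (hV : ∀ S ⊆ range n, ∀ g, c.Gir S g →
      ((c.cy S).filter (·.card ≤ 6 * g)).card ≤ (S.card + 1) ^ V)
    (hC : c.cyc C) (hne : C.Nonempty) (hS : C ⊆ range n) (hmin : c.Gir (range n) C.card)
    {K : ℕ} (hK : K = 2 * (V + 2)) : ∃ b < n, ∃ J ≤ K * (n + 1),
      1 / (2 * (2 * n + 2) ^ (16 * K)) ≤ avg (n * (n * (K * (n + 1) * (2 * n)))) (fun w =>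
        if c.Uniq C (kp n (2 * n) (K * (n + 1)) J b n (range n) w) then 1 else 0) := by
  obtain ⟨b, h1, h2, h3⟩ := exists_start hC hne hS hmin
  have h4 := card_le_card hS
  rw [card_range] at h4
  obtain ⟨L, hL, h5, h6⟩ : ∃ L ≤ n + 1, (n : ℝ) + 1 ≤ 2 ^ L ∧ (2 : ℝ) ^ L ≤ 2 * n + 2 := by
    refine ⟨Nat.log 2 (n + 1) + 1, Nat.log_lt_self 2 n.succ_ne_zero, ?_, ?_⟩
    · exact_mod_cast (Nat.lt_pow_succ_log_self one_lt_two (n + 1)).le
    · have := Nat.pow_log_le_self 2 n.succ_ne_zero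
      have : 2 ^ (Nat.log 2 (n + 1) + 1) ≤ 2 * n + 2 := by
        rw [pow_succ]; simp only [Nat.succ_eq_add_one] at this; omega
      exact_mod_cast this
  have hn : (0 : ℝ) ≤ n := by positivity
  refine ⟨b, by omega, K * L, Nat.mul_le_mul_left _ hL, le_trans ?_ ((rounds hV hC hne
    (Nat.mul_le_mul_left _ hL) (ε := 1 / (n + 1) ^ 2) ?_ ?_ n b _ subset_rfl h2 h3
    (by omega)).trans (avg_mono fun w _ => ?_))⟩
  · have h7 : (1 : ℝ) / 2 ≤ (1 - 1 / (n + 1) ^ 2) ^ n := by
      refine le_trans ?_ (one_add_mul_le_pow (a := -(1 / (n + 1) ^ 2 : ℝ)) (by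
        have : (1 : ℝ) / (n + 1) ^ 2 ≤ 1 := (div_le_one (by positivity)).2 (by nlinarith)
        linarith) n)
      have : (n : ℝ) / (n + 1) ^ 2 ≤ 1 / 2 := by
        rw [div_le_div_iff₀ (by positivity) two_pos]; nlinarith
      rw [mul_neg, mul_one_div]; linarith
    have h8 : (1 : ℝ) / (2 * n + 2) ^ (16 * K) ≤
        Real.exp (-(2 * ((K * L : ℕ) * C.card / 2 ^ b))) := by
      have h9 : (C.card : ℝ) / 2 ^ b ≤ 4 := by
        rw [div_le_iff₀ (by positivity)]; exact_mod_cast h3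
      rw [Real.exp_neg, ← one_div]
      refine one_div_le_one_div_of_le (Real.exp_pos _) ?_
      calc _ ≤ Real.exp ((8 * (K * L) : ℕ) * 1) := by
            rw [mul_div_assoc, Real.exp_le_exp]
            have : (0 : ℝ) ≤ (K * L : ℕ) := by positivity
            push_cast at this ⊢
            nlinarith
        _ ≤ (2 ^ 2) ^ (8 * (K * L)) := by
            rw [Real.exp_nat_mul]
            exact pow_le_pow_left₀ (Real.exp_pos _).le (by linarith [Real.exp_one_lt_d9]) _
        _ = (2 ^ L) ^ (16 * K) := by rw [← pow_mul, ← pow_mul]; congr 1; ring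
        _ ≤ _ := by gcongr
    calc _ = (1 : ℝ) / (2 * n + 2) ^ (16 * K) * (1 / 2) := by field_simp
      _ ≤ _ := by gcongr
  · have h7 : Real.exp (-((K * L : ℕ) / 2)) ≤ 1 / (n + 1) ^ (V + 2) := by
      rw [Real.exp_neg, ← one_div]
      refine one_div_le_one_div_of_le (by positivity) ?_
      calc _ ≤ ((2 : ℝ) ^ L) ^ (V + 2) := by gcongr
        _ ≤ (Real.exp 1 ^ L) ^ (V + 2) := by gcongr; linarith [Real.add_one_le_exp 1]
        _ = _ := by
          rw [← pow_mul, ← Real.exp_nat_mul, hK]; congr 1; push_cast; ring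
    refine (mul_le_mul_of_nonneg_left h7 (by positivity)).trans (le_of_eq ?_)
    field_simp
    ring
  · exact (div_le_one (by positivity)).2 (by nlinarith)
  · split_ifs with h7 h8
    · rfl
    · refine (h8 ⟨h7.1, fun Z h9 h10 h11 => ?_⟩).elim
      by_contra h12
      have h13 := (h7.2 Z h9 h10 h11 h12).trans
        (card_le_card (sdiff_subset.trans (h9.trans (filter_subset _ _))))
      have h14 := Nat.lt_two_pow_self (n := b + n)
      rw [card_range] at h13
      omega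
    all_goals norm_num

open Classical in
theorem amplify {m T : ℕ} {p : List Bool → Prop} {q : ℝ} (hq : 2 ≤ T * q)
    (h : q ≤ avg m (fun w => if p w then 1 else 0)) :
    2 / 3 ≤ avg (T * m) (fun w => if ∃ t < T, p (chunk m w t) then 1 else 0) := by
  have h1 := avg_prod_sub (m := m) (subset_rfl (a := range T)) (fun w => 1 - if p w then 1 else 0)
  have h2 : 0 ≤ avg m (fun w => 1 - if p w then 1 else 0) :=
    (avg_const 0).ge.trans (avg_mono fun u _ => by split_ifs <;> norm_num)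
  have h3 : avg m (fun w => 1 - if p w then 1 else 0) ≤ Real.exp (-q) := by
    rw [avg_sub, avg_const]; linarith [Real.add_one_le_exp (-q)]
  have h4 : Real.exp (-q) ^ T ≤ 1 / 3 := by
    rw [← Real.exp_nat_mul, mul_neg, Real.exp_neg, ← one_div]
    exact one_div_le_one_div_of_le three_pos (by linarith [Real.add_one_le_exp (T * q)])
  have h5 := avg_mono (m := T * m)
    (f := fun w => 1 - ∏ i ∈ range T, (1 - if p (chunk m w i) then 1 else 0))
    (g := fun w => if ∃ t < T, p (chunk m w t) then 1 else 0) fun w _ => by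
      split_ifs with h6
      · exact sub_le_self _ (prod_nonneg fun i _ => by split_ifs <;> norm_num)
      · rw [prod_eq_one fun i hi => by rw [if_neg fun h => h6 ⟨i, mem_range.1 hi, h⟩, sub_zero]]
        norm_num
  rw [avg_sub, avg_const, h1, card_range] at h5
  linarith [pow_le_pow_left₀ h2 h3 T]

end Code

end Pool.Agent.MP71

end MrgPart2

-- ======== part 3: formerly Pool.Agent.MP_71daef_lc.RAlg
section MrgPart3

/-!
The randomized algorithm for the shortest cycle, its running time and its success probability.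
-/

set_option autoImplicit false

namespace Pool.Agent.MP71

open Finset symmDiff Pool.Agent.H82

/-- The elements that survive all rounds. -/
def keep (A : List (List Bool)) (K b J : ℕ) (w : List Bool) : List ℕ :=
  (idx A).filter fun e => (idx A).all fun i => surv (2 * A.length) (b + i + 1) J
    (chunk (K * (A.length + 1) * (2 * A.length))
      (chunk (A.length * (K * (A.length + 1) * (2 * A.length))) w i) e)

/-- The fundamental circuits found by eliminating the columns in `L`. -/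
def fcs (A : List (List Bool)) (L : List ℕ) : List (ℕ × List Bool) :=
  (L.foldl (step A) ([], [])).2

/-- The weights of all cycles that are found. -/
def rwts (K : ℕ) (x : List (List Bool) × List Bool) : List ℕ :=
  (idx x.2).flatMap fun t => (idx x.1).flatMap fun b => (idx x.2).flatMap fun J =>
    (fcs x.1 (keep x.1 K b J (chunk (x.1.length * (x.1.length *
      (K * (x.1.length + 1) * (2 * x.1.length)))) x.2 t))).map fun q => wt x.1 q.2

/-- The randomized algorithm. -/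
def ralg (K : ℕ) (x : List (List Bool) × List Bool) : ℕ :=
  ((idx ([] :: x.1)).filter fun v => ltB 0 v && (rwts K x).any fun u => eqB u v).headD 0

section poly

open Pool.Agent.PolyT N487b59b3

variable {α : Type} [N487b59b3 α] {A : α → List (List Bool)}

@[fun_prop] theorem p_chunk {m i : α → ℕ} {w : α → List Bool} (hm : PolyT.Poly m)
    (hw : PolyT.Poly w) (hi : PolyT.Poly i) : PolyT.Poly (fun a => chunk (m a) (w a) (i a)) := by
  unfold chunk; fun_prop

@[fun_prop] theorem p_surv {W b J : α → ℕ} {u : α → List Bool} (hW : PolyT.Poly W)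
    (hb : PolyT.Poly b) (hJ : PolyT.Poly J) (hu : PolyT.Poly u) :
    PolyT.Poly (fun a => surv (W a) (b a) (J a) (u a)) := by
  show PolyT.Poly (fun a => ((idx (u a)).take (J a)).all fun j =>
    !((chunk (W a) (u a) j).take (b a)).all fun x => x)
  fun_prop

@[fun_prop] theorem p_keep {K b J : α → ℕ} {w : α → List Bool} (hA : PolyT.Poly A)
    (hK : PolyT.Poly K) (hb : PolyT.Poly b) (hJ : PolyT.Poly J) (hw : PolyT.Poly w) :
    PolyT.Poly (fun a => keep (A a) (K a) (b a) (J a) (w a)) := by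
  unfold keep; fun_prop

@[fun_prop] theorem p_fcs {l : α → List ℕ} (hA : PolyT.Poly A) (ho : PolyT.Poly l) :
    PolyT.Poly (fun a => fcs (A a) (l a)) := by
  refine (PolyT.Poly.foldl (f := fun a st e => step (A a) st e) (by fun_prop) ho
    (PolyT.Poly.const ([], [])) ((Bd.const 1).add (ho.bd.mul ((((Bd.const 8).mul ho.bd).add
      ((Bd.const 20).mul hA.bd)).add (Bd.const 6)))) fun a n => ?_).snd
  refine (enc_fold (A a) _ _ _ fun e he => enc_mem_le (List.mem_of_mem_take he)).trans ?_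
  refine Nat.add_le_add (le_of_eq rfl) (Nat.mul_le_mul_right _ ?_)
  exact (List.length_take_le' _ _).trans (length_le_enc _)

theorem poly_ralg (K : ℕ) : N68a2faeb.IsPolyTime (ralg K) := by
  have h : PolyT.Poly (rwts K) := by unfold rwts; fun_prop
  refine (poly_iff _).1 ?_
  unfold ralg
  fun_prop

end poly

/-- The cycle space of the columns of `A`. -/
def mcode (m : ℕ) (A : List (List Bool)) : Code :=
  ⟨fun Z => ∑ j ∈ Z, col m A j = 0, sum_empty, fun h h' => by
    rw [sum_symmDiff, h, h', add_zero]⟩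

variable {A : List (List Bool)} {m K : ℕ} {w : List Bool}

theorem inv_keep (hm : (A.headD []).length = m) (K b J : ℕ) (w : List Bool) :
    ∃ B, Inv A m (fun _ => 0) (keep A K b J w).toFinset B
      ((keep A K b J w).foldl (step A) ([], [])) := by
  have := Inv.fold (l := fun _ => 0) hm (keep A K b J w) (D := ∅) (B := ∅) (st := ([], []))
    ⟨by simp, by simp, by simp +contextual, by simp, by simp, by simp⟩
    (fun e he => by simpa using (List.mem_filter.1 he).1)
    ((List.nodup_range.filter _).imp fun h => ⟨h, le_rfl⟩)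
  simpa using this

theorem ralg_sound (hm : (A.headD []).length = m) (h : ralg K (A, w) ≠ 0) :
    ∃ Z ⊆ range A.length, (mcode m A).cyc Z ∧ Z.card = ralg K (A, w) := by
  have h1 : ralg K (A, w) ∈ rwts K (A, w) := by
    unfold ralg at h ⊢
    cases hr : (idx ([] :: A)).filter
      (fun v => ltB 0 v && (rwts K (A, w)).any fun u => eqB u v) with
    | nil => rw [hr] at h; exact absurd rfl h
    | cons x r =>
      have hx := (List.mem_filter.1 (hr ▸ List.mem_cons_self (a := x) (l := r))).2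
      simp only [Bool.and_eq_true, List.any_eq_true, eqB_iff] at hx
      obtain ⟨-, v, hv, rfl⟩ := hx
      exact hv
  obtain ⟨t, -, h2⟩ := List.mem_flatMap.1 h1
  obtain ⟨b, -, h2⟩ := List.mem_flatMap.1 h2
  obtain ⟨J, -, h2⟩ := List.mem_flatMap.1 h2
  obtain ⟨q, hq, h3⟩ := List.mem_map.1 h2
  obtain ⟨B, hB⟩ := inv_keep hm K b J _
  exact ⟨sp A q.2, filter_subset _ _, (sum_col_eq_zero _).2 (hB.fund q hq).2.2.1,
    by rw [← wt_eq, h3]⟩

theorem ralg_complete (hm : (A.headD []).length = m) {C : Finset ℕ} (hC : (mcode m A).cyc C)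
    (hne : C.Nonempty) {t b J : ℕ} (ht : t < w.length) (hb : b < A.length) (hJ : J < w.length)
    (h : (mcode m A).Uniq C (Code.kp A.length (2 * A.length) (K * (A.length + 1)) J b A.length
      (range A.length) (chunk (A.length * (A.length * (K * (A.length + 1) * (2 * A.length))))
        w t))) : ralg K (A, w) ≠ 0 ∧ ralg K (A, w) ≤ C.card := by
  set u := chunk (A.length * (A.length * (K * (A.length + 1) * (2 * A.length)))) w t with hu
  have hS : Code.kp A.length (2 * A.length) (K * (A.length + 1)) J b A.length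
      (range A.length) u = (keep A K b J u).toFinset := by
    ext e; simp [Code.kp, keep]
  have h0 := card_le_card (h.1.trans (filter_subset _ _))
  rw [hS] at h
  obtain ⟨B, hB⟩ := inv_keep hm K b J u
  obtain ⟨j, hj, hjB⟩ : ∃ j ∈ C, j ∉ B := not_subset.1 fun h' => hne.ne_empty
    (hB.ind C h' fun q hq => (sum_col_eq_zero _).1 hC _ (hB.piv q hq).2.1)
  obtain ⟨q, hq, -⟩ : ∃ q ∈ fcs A (keep A K b J u), q.1 = j := by
    by_contra hcon
    push Not at hcon
    exact hjB ((hB.part j).2 ⟨h.1 hj, hcon⟩)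
  obtain ⟨h1, h2, h3, -⟩ := hB.fund q hq
  have h4 := h.2 _ (h2.trans (insert_subset (hB.sub q hq) fun x hx => ((hB.part x).1 hx).1))
    ((sum_col_eq_zero _).2 h3) ⟨_, h1⟩
  have h6 : C.card ∈ rwts K (A, w) :=
    List.mem_flatMap.2 ⟨t, mem_idx.2 ht, List.mem_flatMap.2 ⟨b, mem_idx.2 hb,
      List.mem_flatMap.2 ⟨J, mem_idx.2 hJ, List.mem_map.2 ⟨q, hq, by rw [wt_eq, h4]⟩⟩⟩⟩
  have h7 := headD_filter_range (k := ([] :: A).length) (w := C.card)
    (c := fun v => ltB 0 v && (rwts K (A, w)).any fun u => eqB u v)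
    (by simpa [Nat.lt_succ_iff] using h0) (by simpa [hne] using h6)
  refine ⟨?_, h7.2⟩
  have := h7.1
  rw [Bool.and_eq_true, ltB_iff] at this
  exact this.1.ne'

/-- The number of random bits. -/
noncomputable def bits (K : ℕ) : Polynomial ℕ :=
  4 * (2 * Polynomial.X + 2) ^ (16 * K) *
    (Polynomial.X * (Polynomial.X *
      (Polynomial.C K * (Polynomial.X + 1) * (2 * Polynomial.X))))

open Classical in
theorem ralg_prob {r : ℕ} (hr : 0 < r) (k : ℕ) (D : ℕ → Fin r → Prop) : ∃ K, ∀ (m : ℕ)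
    (A : List (List Bool)), (A.headD []).length = m → ¬ (mcode m A).Emb (range A.length) k D →
      2 / 3 ≤ avg ((bits K).eval A.length) (fun w => if ∀ Z ⊆ range A.length, (mcode m A).cyc Z →
        Z.Nonempty → ralg K (A, w) ≠ 0 ∧ ralg K (A, w) ≤ Z.card then 1 else 0) := by
  obtain ⟨V, hV⟩ := Code.count hr k D 6
  obtain ⟨K, hK⟩ : ∃ K, K = 2 * (V + 2) := ⟨_, rfl⟩
  refine ⟨K, fun m A hm hN => ?_⟩
  by_cases hex : ∃ Z ⊆ range A.length, (mcode m A).cyc Z ∧ Z.Nonempty
  swap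
  · refine le_trans ?_ (avg_mono (f := fun _ => 1) fun w _ =>
      (if_pos fun Z h1 h2 h3 => (hex ⟨Z, h1, h2, h3⟩).elim).ge)
    rw [avg_const]; norm_num
  obtain ⟨C, hC, hmin⟩ := exists_min_image ((range A.length).powerset.filter
    (fun Z => (mcode m A).cyc Z ∧ Z.Nonempty)) card
    (hex.imp fun Z h => mem_filter.2 ⟨mem_powerset.2 h.1, h.2⟩)
  simp only [mem_filter, mem_powerset, and_imp] at hC hmin
  obtain ⟨b, hb, J, hJ, h⟩ := Code.trial (fun S hS g hg => hV _ S g (fun h => hN (h.mono hS)) hg)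
    hC.2.1 hC.2.2 hC.1 hmin hK
  have h1 := Code.amplify (T := 4 * (2 * A.length + 2) ^ (16 * K)) (le_of_eq (by
    push_cast; field_simp; norm_num)) h
  have he : (bits K).eval A.length = 4 * (2 * A.length + 2) ^ (16 * K) *
      (A.length * (A.length * (K * (A.length + 1) * (2 * A.length)))) := by simp [bits]
  rw [he]
  refine h1.trans (avg_mono fun w hw => ?_)
  split_ifs with h2 h3
  · rfl
  · obtain ⟨t, ht, h2⟩ := h2
    have h4 : 0 < A.length := by omega
    have h5 : K * (A.length + 1) < A.length * (A.length * (K * (A.length + 1) * (2 * A.length))) :=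
      lt_of_lt_of_le (lt_mul_of_one_lt_right (Nat.mul_pos (by omega) (by omega)) (by omega))
        ((Nat.le_mul_of_pos_left _ h4).trans (Nat.le_mul_of_pos_left _ h4))
    have h6 := ralg_complete hm hC.2.1 hC.2.2
      (ht.trans_le (hw ▸ Nat.le_mul_of_pos_right _ (by omega))) hb
      ((hJ.trans_lt h5).trans_le (hw ▸ Nat.le_mul_of_pos_left _ (by positivity))) h2
    exact (h3 fun Z h7 h8 h9 => ⟨h6.1, h6.2.trans (hmin Z h7 h8 h9)⟩).elim
  all_goals norm_num

open Classical in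
theorem Code.Emb.minor {c : Code} {E : Finset ℕ} {r k : ℕ} {D : ℕ → Fin r → Prop}
    (h : c.Emb E k D) : ∃ (C : Finset ℕ) (ψ : Fin k → ℕ), C ⊆ E ∧ c.Ind C ∧
      Function.Injective ψ ∧ (∀ j, ψ j ∈ E ∧ ψ j ∉ C) ∧ ∀ J : Set (Fin k),
        (∃ W : Finset (Fin k), (W : Set (Fin k)) ⊆ J ∧ W.Nonempty ∧
          ∀ t, ∑ j ∈ W, (if D j t then 1 else 0 : F2) = 0) ↔
        ∃ Z, c.cyc Z ∧ Z.Nonempty ∧ ∀ z ∈ Z, z ∈ C ∨ ∃ j ∈ J, ψ j = z := by
  obtain ⟨B, x, f, L, h1, h2, -, h4, h5, h6⟩ := h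
  have hinj : Function.Injective (fun j : Fin k => f j) := fun i j h => Fin.ext (h5 _ i.2 _ j.2 h)
  have key : ∀ W : Finset (Fin k), ∃ P ⊆ B, c.cyc (W.image (fun j : Fin k => f j) ∆ P) ∧
      ∀ t, x t ∈ P ↔ ∑ j ∈ W, (if D j t then 1 else 0 : F2) ≠ 0 := by
    intro W
    induction W using Finset.induction_on with
    | empty => exact ⟨∅, empty_subset _, by simpa using c.zero, by simp⟩
    | insert j W hj ih =>
      obtain ⟨P, h7, h8, h9⟩ := ih
      obtain ⟨-, h10, h11, h12, h13⟩ := h6 j j.2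
      refine ⟨P ∆ L j, symmDiff_le_sup.trans (sup_le h7 h11), c.add' h8 h12 fun y => ?_,
        fun t => ?_⟩
      · have h14 : f j ∉ W.image (fun j : Fin k => f j) := fun h => by
          obtain ⟨i, hi, e⟩ := mem_image.1 h
          exact hj (hinj e ▸ hi)
        have := @h11 y
        simp only [image_insert, mem_symmDiff, mem_insert]
        grind
      · rw [sum_insert hj, mem_symmDiff, h9, h13]
        generalize ∑ j ∈ W, (if D j t then 1 else 0 : F2) = s
        by_cases hD : D j t <;> rcases f2_cases s with rfl | rfl <;> simp [hD]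
        decide
  have hfB : ∀ j : Fin k, f j ∉ B := fun j => (h6 j j.2).2.1
  refine ⟨B \ univ.image x, fun j => f j, sdiff_subset.trans h1,
    fun Z hZ => h2 Z (hZ.trans sdiff_subset), hinj,
    fun j => ⟨(h6 j j.2).1, fun h => hfB j (mem_sdiff.1 h).1⟩, fun J => ⟨?_, ?_⟩⟩
  · rintro ⟨W, h7, ⟨j, hj⟩, h8⟩
    obtain ⟨P, h9, h10, h11⟩ := key W
    refine ⟨_, h10, ⟨f j, mem_symmDiff.2 (Or.inl ⟨mem_image_of_mem _ hj,
      fun h => hfB j (h9 h)⟩)⟩, fun z hz => ?_⟩
    rcases mem_symmDiff.1 hz with hz | hz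
    · obtain ⟨i, hi, rfl⟩ := mem_image.1 hz.1
      exact Or.inr ⟨i, h7 hi, rfl⟩
    · refine Or.inl (mem_sdiff.2 ⟨h9 hz.1, fun h => ?_⟩)
      obtain ⟨t, -, rfl⟩ := mem_image.1 h
      exact (h11 t).1 hz.1 (h8 t)
  · rintro ⟨Z, h7, h8, h9⟩
    obtain ⟨P, h10, h11, h12⟩ := key (univ.filter fun j : Fin k => f j ∈ Z)
    have h13 : ∀ z, z ∈ (univ.filter fun j : Fin k => f j ∈ Z).image (fun j : Fin k => f j) ↔
        z ∈ Z ∧ z ∉ B := fun z => by
      simp only [mem_image, mem_filter, mem_univ, true_and]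
      refine ⟨fun ⟨j, h, e⟩ => e ▸ ⟨h, hfB j⟩, fun ⟨h, h'⟩ => ?_⟩
      obtain ⟨j, -, rfl⟩ := (h9 z h).resolve_left fun h => h' (mem_sdiff.1 h).1
      exact ⟨j, h, rfl⟩
    have h14 : Z ∩ B = P := symmDiff_eq_bot.1 (h2 _
      (symmDiff_le_sup.trans (sup_le inter_subset_right h10)) (c.add' h7 h11 fun y => by
        simp only [mem_symmDiff, h13, mem_inter]; grind))
    refine ⟨univ.filter fun j : Fin k => f j ∈ Z, fun j hj => ?_, ?_, fun t => ?_⟩
    · obtain ⟨i, hi, e⟩ := (h9 _ (mem_filter.1 hj).2).resolve_left fun h => hfB j (mem_sdiff.1 h).1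
      exact hinj e ▸ hi
    · obtain ⟨z, hz, hzB⟩ := not_subset.1 fun h => h8.ne_empty (h2 Z h h7)
      exact image_nonempty.1 ⟨z, (h13 z).2 ⟨hz, hzB⟩⟩
    · by_contra h15
      rcases h9 _ (mem_inter.1 (h14 ▸ (h12 t).2 h15)).1 with h | ⟨j, -, h⟩
      · exact (mem_sdiff.1 h).2 (mem_image_of_mem _ (mem_univ t))
      · exact hfB j ((show f j = x t from h) ▸ h4 t)

theorem not_indep_iff' {n : ℕ} (S : Set (Fin n)) :
    ¬ LinearIndepOn F2 (fun j : Fin n => col m A j) S ↔
      ∃ Z, (mcode m A).cyc Z ∧ Z.Nonempty ∧ ∀ z ∈ Z, ∃ j ∈ S, (j : ℕ) = z := by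
  rw [not_indep_iff]
  constructor
  · rintro ⟨Z, h1, h2, h3⟩
    refine ⟨Z.map Fin.valEmbedding, by simpa [mcode] using h3, by simpa using h2, fun z hz => ?_⟩
    obtain ⟨j, hj, rfl⟩ := mem_map.1 hz
    exact ⟨j, h1 hj, rfl⟩
  · rintro ⟨Z, h1, h2, h3⟩
    have h5 : (univ.filter (fun j : Fin n => (j : ℕ) ∈ Z)).map Fin.valEmbedding = Z := by
      ext z
      simp only [mem_map, mem_filter, mem_univ, true_and, Fin.valEmbedding_apply]
      refine ⟨fun ⟨_, h, e⟩ => e ▸ h, fun h => ?_⟩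
      obtain ⟨j, -, rfl⟩ := h3 z h
      exact ⟨j, h, rfl⟩
    rw [← h5] at h1 h2
    refine ⟨_, fun j hj => ?_, map_nonempty.1 h2, by simpa [mcode] using h1⟩
    obtain ⟨i, hi, e⟩ := h3 _ (mem_filter.1 hj).2
    exact Fin.ext e ▸ hi

end Pool.Agent.MP71

end MrgPart3

-- marker of a merged file
example : 731051 + 384757 = 731051 + 384757 := rfl
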